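import Pool.Agent.Lib.MP_d36e13_an.ND.Defs

/-!
Compactness facts about defining functions.
-/

open MeasureTheory Set Filter Topology Metric
open scoped ENNReal ContDiff

namespace Pool.Agent.Lib.MP_d36e13_an.ND

theorem shrink {D U : Set (ℝ × ℝ)} {G : ℝ × ℝ → ℝ} (h : DefF D G) (hU : IsOpen U)
    (hz : ∀ p, G p = 0 → p ∈ U) : ∃ s : ℝ, 0 < s ∧ ∀ p, |G p| ≤ s → p ∈ U := by
  have hK : IsCompact ({p | G p ≤ 1 / 2} \ U) := (h.isCompact_le (by norm_num)).diff hU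
  obtain ⟨c, hc, hle⟩ := hK.exists_forall_le' (f := fun p => |G p|)
    h.cd.continuous.abs.continuousOn (a := 0)
    fun p hp => abs_pos.2 fun e => hp.2 (hz p e)
  refine ⟨min (c / 2) (1 / 2), by positivity, fun p hp => by_contra fun hn => ?_⟩
  have := hle p ⟨(le_abs_self _).trans (hp.trans (min_le_right _ _)), hn⟩
  linarith [hp.trans (min_le_left _ _)]

theorem basic_fderiv {D : Set (ℝ × ℝ)} {G : ℝ × ℝ → ℝ} (h : DefF D G) :
    Continuous (fderiv ℝ G) ∧ HasCompactSupport (fderiv ℝ G) := by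
  refine ⟨h.cd.continuous_fderiv one_ne_zero, ?_⟩
  have := h.cs.fderiv ℝ
  rwa [show (fderiv ℝ fun p => G p - 1) = fderiv ℝ G from
    funext fun _ => fderiv_sub_const _] at this

theorem DefF.exists_bound {D : Set (ℝ × ℝ)} {G : ℝ × ℝ → ℝ} (h : DefF D G) :
    ∃ L : ℝ, 1 ≤ L ∧ (∀ p v : ℝ × ℝ, |dd v G p| ≤ L * ‖v‖) ∧
      ∀ p q : ℝ × ℝ, |G p - G q| ≤ L * ‖p - q‖ := by
  obtain ⟨h1, h2⟩ := basic_fderiv h
  obtain ⟨C, hC⟩ := h1.bounded_above_of_compact_support h2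
  have hb : ∀ p, ‖fderiv ℝ G p‖ ≤ max 1 C := fun p => (hC p).trans (le_max_right _ _)
  refine ⟨max 1 C, le_max_left _ _, fun p v => ((fderiv ℝ G p).le_opNorm v).trans
    (mul_le_mul_of_nonneg_right (hb p) (norm_nonneg _)), fun p q => ?_⟩
  exact convex_univ.norm_image_sub_le_of_norm_fderiv_le
    (fun x _ => h.cd.differentiable one_ne_zero x) (fun x _ => hb x) (mem_univ q) (mem_univ p)

theorem DefF.unif {D : Set (ℝ × ℝ)} {G : ℝ × ℝ → ℝ} (h : DefF D G) {θ : ℝ} (hθ : 0 < θ) :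
    ∃ δ : ℝ, 0 < δ ∧ ∀ p q v : ℝ × ℝ, ‖p - q‖ ≤ δ → |dd v G p - dd v G q| ≤ θ * ‖v‖ := by
  obtain ⟨h1, h2⟩ := basic_fderiv h
  obtain ⟨δ, hδ, hd⟩ := Metric.uniformContinuous_iff_le.1
    (h2.uniformContinuous_of_continuous h1) θ hθ
  refine ⟨δ, hδ, fun p q v hpq => ?_⟩
  have := hd (a := p) (b := q) (by rwa [dist_eq_norm])
  rw [dist_eq_norm] at this
  exact ((fderiv ℝ G p - fderiv ℝ G q).le_opNorm v).trans
    (mul_le_mul_of_nonneg_right this (norm_nonneg _))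

/-- normalisation of the gradient along the boundary -/
theorem exists_normal {D : Set (ℝ × ℝ)} {F : ℝ × ℝ → ℝ} (h : DefF D F) {η : ℝ} (hη : 0 < η) :
    ∃ G, DefF D G ∧ SameDir F G ∧ ∀ p, G p = 0 → |g2 G p - 1| < η := by
  obtain ⟨R, hR⟩ := h.isBounded_ne.subset_ball 0
  have hR' : ∀ p, F p ≠ 1 → ‖p‖ < R := fun p hp => mem_ball_zero_iff.1 (hR hp)
  obtain ⟨θ, hθ, hθ1, hθ2⟩ : ∃ θ : ℝ, 0 < θ ∧ θ ≤ 1 ∧ 3 * θ ≤ η :=
    ⟨min 1 (η / 3), lt_min one_pos (by positivity), min_le_left _ _, by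
      have := min_le_right 1 (η / 3)
      linarith⟩
  have hs : Continuous fun p => √(g2 F p) := (continuous_g2 h.cd).sqrt
  obtain ⟨k, hk⟩ := exists_contMDiffMap_forall_mem_convex_of_local_const (n := 1)
    (modelWithCornersSelf ℝ (ℝ × ℝ)) (M := ℝ × ℝ) (F := ℝ)
    (t := fun p => {y | 0 < y ∧ (F p = 0 → |y * √(g2 F p) - 1| < θ) ∧ (R ≤ ‖p‖ → y = 1)})
    (fun p => by
      refine OrdConnected.convex ⟨?_⟩
      rintro a ⟨a1, a2, a3⟩ b ⟨-, b2, b3⟩ y ⟨y1, y2⟩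
      refine ⟨a1.trans_le y1, fun hp => ?_, fun hp => le_antisymm (b3 hp ▸ y2) (a3 hp ▸ y1)⟩
      have h0 := Real.sqrt_nonneg (g2 F p)
      have h1 := mul_le_mul_of_nonneg_right y1 h0
      have h2 := mul_le_mul_of_nonneg_right y2 h0
      rw [abs_lt]
      exact ⟨by linarith [(abs_lt.1 (a2 hp)).1], by linarith [(abs_lt.1 (b2 hp)).2]⟩)
    (fun x => by
      by_cases hx : F x = 0
      · have hp : 0 < √(g2 F x) := Real.sqrt_pos.2 (h.nz x hx)
        have e1 : ∀ᶠ y in 𝓝 x, |(√(g2 F x))⁻¹ * √(g2 F y) - 1| < θ := by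
          refine (((continuous_const.mul hs).sub continuous_const).abs.continuousAt).eventually_lt
            continuousAt_const ?_
          show |(√(g2 F x))⁻¹ * √(g2 F x) - 1| < θ
          rwa [inv_mul_cancel₀ hp.ne', sub_self, abs_zero]
        have e2 : ∀ᶠ y in 𝓝 x, ‖y‖ < R :=
          continuous_norm.continuousAt.eventually_lt continuousAt_const
            (hR' x (by rw [hx]; exact zero_ne_one))
        refine ⟨(√(g2 F x))⁻¹, ?_⟩
        filter_upwards [e1, e2] with y h1 h2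
        exact ⟨inv_pos.2 hp, fun _ => h1, fun h3 => absurd h2 (not_lt.2 h3)⟩
      · refine ⟨1, ?_⟩
        filter_upwards [h.cd.continuous.continuousAt.eventually_ne hx] with y hy
        exact ⟨one_pos, fun h1 => absurd h1 hy, fun _ => rfl⟩)
  have kc : ContDiff ℝ 1 k := by exact_mod_cast k.contMDiff.contDiff
  have kp : ∀ p, 0 < k p := fun p => (hk p).1
  have hz : ∀ p, F p * k p = 0 → F p = 0 := fun p hp => (mul_eq_zero.1 hp).resolve_right (kp p).ne'
  have hd : ∀ p v, F p = 0 → dd v (fun x => F x * k x) p = k p * dd v F p := fun p v hp => by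
    rw [dd_mul (h.cd.differentiable one_ne_zero p) (kc.differentiable one_ne_zero p), hp]
    ring
  have hg : ∀ p, F p = 0 → g2 (fun x => F x * k x) p = k p ^ 2 * g2 F p := fun p hp => by
    unfold g2
    rw [hd p _ hp, hd p _ hp]
    ring
  refine ⟨fun x => F x * k x, ⟨h.cd.mul kc, ?_, ?_, fun p hp => ?_⟩, fun p hp => ?_,
    fun p hp => ?_⟩
  · rw [h.eq]
    ext p
    exact ⟨fun hp => mul_neg_of_neg_of_pos hp (kp p), fun hp => neg_of_mul_neg_left hp (kp p).le⟩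
  · refine HasCompactSupport.intro (isCompact_closedBall (0 : ℝ × ℝ) R) fun p hp => ?_
    have h1 : R ≤ ‖p‖ := (not_le.1 fun h' => hp (mem_closedBall_zero_iff.2 h')).le
    have h2 : F p = 1 := by
      by_contra h'
      exact absurd (hR' p h') (not_lt.2 h1)
    rw [h2, (hk p).2.2 h1]
    norm_num
  · rw [hg p (hz p hp)]
    exact mul_pos (pow_pos (kp p) 2) (h.nz p (hz p hp))
  · exact ⟨hz p hp, k p, kp p, hd p _ (hz p hp), hd p _ (hz p hp)⟩
  · have h1 := abs_lt.1 ((hk p).2.1 (hz p hp))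
    have h2 : k p ^ 2 * g2 F p = (k p * √(g2 F p)) ^ 2 := by
      rw [mul_pow, Real.sq_sqrt (g2_nonneg F p)]
    rw [hg p (hz p hp), h2, abs_lt]
    constructor <;> nlinarith [h1.1, h1.2]

end Pool.Agent.Lib.MP_d36e13_an.ND
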