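import Pool.Agent.Lib.MP_d36e13_an.ND.Prof

/-!
Calculus for calibrating fields.
-/

open MeasureTheory Set Filter Topology Metric
open scoped ENNReal ContDiff

namespace Pool.Agent.Lib.MP_d36e13_an.ND

theorem cal_comp {w : ℝ → ℝ} (hw : ContDiff ℝ 1 w) {H : ℝ × ℝ → ℝ} (hH : ContDiff ℝ ∞ H)
    (a : ℝ) {ε : ℝ} (hε : 0 < ε) (p : ℝ × ℝ) :
    cal (fun q => -(w ((a - H q) / ε) / ε) * dd (1, 0) H q)
        (fun q => -(w ((a - H q) / ε) / ε) * dd (0, 1) H q) p =
      (deriv w ((a - H p) / ε) - w ((a - H p) / ε) ^ 2) * g2 H p / ε ^ 2 -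
        w ((a - H p) / ε) / ε * lap H p := by
  have hHd : DifferentiableAt ℝ H p := hH.differentiable (by simp) p
  have hs : HasDerivAt (fun s : ℝ => (a - s) / ε) (-1 / ε) (H p) := by
    simpa using ((hasDerivAt_id (H p)).const_sub a).div_const ε
  have hw' : HasDerivAt w (deriv w ((a - H p) / ε)) ((a - H p) / ε) :=
    (hw.differentiable one_ne_zero _).hasDerivAt
  have hh : HasDerivAt (fun s : ℝ => -(w ((a - s) / ε) / ε))
      (-(deriv w ((a - H p) / ε) * (-1 / ε) / ε)) (H p) :=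
    ((HasDerivAt.comp (H p) hw' hs).div_const ε).neg
  have hd : DifferentiableAt ℝ (fun q => -(w ((a - H q) / ε) / ε)) p :=
    hh.differentiableAt.comp p hHd
  have hD : ∀ v, DifferentiableAt ℝ (dd v H) p := fun v =>
    (contDiff_dd_top hH).differentiable (by simp) p
  unfold cal g2 lap
  rw [dd_mul hd (hD _), dd_mul hd (hD _), dd_comp hh hHd, dd_comp hh hHd]
  field_simp
  ring

theorem cal_cut {ζ W₁ W₂ : ℝ × ℝ → ℝ} (hζ : ContDiff ℝ 1 ζ) (h₁ : ContDiff ℝ 1 W₁)
    (h₂ : ContDiff ℝ 1 W₂) {p : ℝ × ℝ} (h0 : 0 ≤ ζ p) (h1 : ζ p ≤ 1) :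
    ζ p * cal W₁ W₂ p + (dd (1, 0) ζ p * W₁ p + dd (0, 1) ζ p * W₂ p) ≤
      cal (fun q => ζ q * W₁ q) (fun q => ζ q * W₂ q) p := by
  unfold cal
  rw [dd_mul (hζ.differentiable one_ne_zero p) (h₁.differentiable one_ne_zero p),
    dd_mul (hζ.differentiable one_ne_zero p) (h₂.differentiable one_ne_zero p)]
  have h := mul_nonneg (mul_nonneg h0 (sub_nonneg.2 h1))
    (add_nonneg (sq_nonneg (W₁ p)) (sq_nonneg (W₂ p)))
  nlinarith

theorem calc_aux {η a b x y u v : ℝ} (h0 : 0 < η) (h1 : η ≤ 1 / 100) (l : 1 - η ≤ a ^ 2 + b ^ 2)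
    (r : a ^ 2 + b ^ 2 ≤ 1 + η) (hx : |x - a| ≤ η) (hy : |y - b| ≤ η) (hu : |u - a| ≤ η)
    (hv : |v - b| ≤ η) :
    1 - 4 * η ≤ x ^ 2 + y ^ 2 ∧ x ^ 2 + y ^ 2 ≤ 2 ∧ 0 ≤ u * x + v * y := by
  have hab : |a| + |b| ≤ 3 / 2 := by
    nlinarith [sq_abs a, sq_abs b, sq_nonneg (|a| - |b|), abs_nonneg a, abs_nonneg b]
  have key : ∀ {c d : ℝ}, |d| ≤ η → |c * d| ≤ |c| * η := fun hd => by
    rw [abs_mul]; exact mul_le_mul_of_nonneg_left hd (abs_nonneg _)
  have sq : ∀ {c d : ℝ}, |c| ≤ η → |d| ≤ η → |c * d| ≤ η / 100 := fun hc hd => by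
    rw [abs_mul]
    calc _ ≤ η * (1 / 100) := mul_le_mul hc (hd.trans h1) (abs_nonneg _) h0.le
      _ = _ := by ring
  have s1 : (|a| + |b|) * η ≤ 3 / 2 * η := mul_le_mul_of_nonneg_right hab h0.le
  have a1 := abs_le.1 (key (c := a) hx)
  have a2 := abs_le.1 (key (c := b) hy)
  have a3 := abs_le.1 (key (c := a) hu)
  have a4 := abs_le.1 (key (c := b) hv)
  have b1 := abs_le.1 (sq hx hx)
  have b2 := abs_le.1 (sq hy hy)
  have b3 := abs_le.1 (sq hu hx)
  have b4 := abs_le.1 (sq hv hy)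
  have b5 := mul_self_nonneg (x - a)
  have b6 := mul_self_nonneg (y - b)
  refine ⟨by nlinarith, by nlinarith, by nlinarith⟩

theorem Col.g2H {D Ω : Set (ℝ × ℝ)} {G K H : ℝ × ℝ → ℝ} {η ε t : ℝ}
    (c : Col D Ω G K H η ε t) {p : ℝ × ℝ} (hp : |G p| ≤ 2 * ε) :
    1 - 4 * η ≤ g2 H p ∧ g2 H p ≤ 2 ∧
      0 ≤ dd (1, 0) K p * dd (1, 0) H p + dd (0, 1) K p * dd (0, 1) H p := by
  have hu := abs_le.1 (c.unit p hp)
  have := calc_aux c.eta_pos c.eta_le (by unfold g2 at hu; linarith [hu.1])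
    (by unfold g2 at hu; linarith [hu.2]) (c.dH₁ p) (c.dH₂ p) (c.dK₁ p) (c.dK₂ p)
  exact this

lemma calC_deriv_zero {x : ℝ} (hx : x < 0 ∨ 1 < x) : deriv Real.smoothTransition x = 0 := by
  rcases hx with hx | hx
  · have h : Real.smoothTransition =ᶠ[𝓝 x] fun _ => (0 : ℝ) := by
      filter_upwards [gt_mem_nhds hx] with y hy
      exact Real.smoothTransition.zero_of_nonpos (le_of_lt hy)
    rw [h.deriv_eq, deriv_const]
  · have h : Real.smoothTransition =ᶠ[𝓝 x] fun _ => (1 : ℝ) := by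
      filter_upwards [lt_mem_nhds hx] with y hy
      exact Real.smoothTransition.one_of_one_le (le_of_lt hy)
    rw [h.deriv_eq, deriv_const]

theorem exists_chi_col {η : ℝ} (hη : 0 < η) : ∃ C : ℝ, 0 < C ∧
    ∀ (D Ω : Set (ℝ × ℝ)) (G K H : ℝ × ℝ → ℝ) (ε t : ℝ), Col D Ω G K H η ε t → ε < 1 →
      ∃ χ : ℝ × ℝ → ℝ, IsTest D χ ∧ (∀ p, |χ p| ≤ 1) ∧ (∀ p, H p ≤ -(2 * η * ε) → χ p = 1) ∧
        ∀ p, g2 χ p ≤ C / ε ^ 2 := by
  obtain ⟨B, hB, hBd⟩ := exists_trans_bound
  refine ⟨8 * B ^ 2 / η ^ 2, by positivity, fun D Ω G K H ε t c hε1 => ?_⟩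
  have hε := c.eps_pos
  have hη1 := c.eta_le
  have hs : 0 < η * ε := mul_pos hη hε
  set a : ℝ := -2 / (η * ε) with ha
  have has : a * (η * ε) = -2 := by rw [ha]; field_simp
  have ha0 : a < 0 := by rw [ha]; exact div_neg_of_neg_of_pos (by norm_num) hs
  have hsub : tsupport (fun p => Real.smoothTransition (a * H p - 3)) ⊆
      {p | G p ≤ -(η * ε / 2)} := by
    refine closure_minimal (fun p hp => ?_)
      (isClosed_le c.defG.cd.continuous continuous_const)
    have h1 : 0 < a * H p - 3 := by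
      by_contra h
      exact hp (Real.smoothTransition.zero_of_nonpos (not_lt.1 h))
    have h2 : H p < -(3 * (η * ε) / 2) := by
      by_contra h
      have h3 := mul_le_mul_of_nonpos_left (not_lt.1 h) ha0.le
      have h4 : a * -(3 * (η * ε) / 2) = 3 := by linear_combination (-3 / 2) * has
      linarith
    have h5 := (abs_le.1 (c.val p)).1
    show G p ≤ -(η * ε / 2)
    linarith
  refine ⟨fun p => Real.smoothTransition (a * H p - 3), ⟨?_, ?_, ?_⟩, fun p => ?_, fun p hp => ?_,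
    fun p => ?_⟩
  · exact Real.smoothTransition.contDiff.comp ((contDiff_const.mul c.cH).sub contDiff_const)
  · exact (c.defG.isCompact_le (s := -(η * ε / 2)) (by linarith)).of_isClosed_subset
      (isClosed_tsupport _) hsub
  · intro p hp
    have h1 : G p ≤ -(η * ε / 2) := hsub hp
    rw [c.defG.eq]
    show G p < 0
    linarith
  · rw [abs_of_nonneg (Real.smoothTransition.nonneg _)]
    exact Real.smoothTransition.le_one _
  · refine Real.smoothTransition.one_of_one_le ?_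
    have h3 := mul_le_mul_of_nonpos_left hp ha0.le
    have h4 : a * -(2 * η * ε) = 4 := by linear_combination (-2) * has
    linarith
  · have hS : Differentiable ℝ Real.smoothTransition :=
      (Real.smoothTransition.contDiff (n := 1)).differentiable (by simp)
    have hd : HasDerivAt (fun x : ℝ => Real.smoothTransition (a * x - 3))
        (deriv Real.smoothTransition (a * H p - 3) * a) (H p) := by
      have h1 : HasDerivAt (fun x : ℝ => a * x - 3) a (H p) := by
        simpa using ((hasDerivAt_id (H p)).const_mul a).sub_const 3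
      exact (hS _).hasDerivAt.comp (H p) h1
    have hH : DifferentiableAt ℝ H p := (c.cH.differentiable (by simp)) p
    have e : g2 (fun p => Real.smoothTransition (a * H p - 3)) p =
        (deriv Real.smoothTransition (a * H p - 3) * a) ^ 2 * g2 H p := by
      unfold g2
      rw [dd_comp (v := (1, 0)) hd hH, dd_comp (v := (0, 1)) hd hH]
      ring
    rw [e]
    by_cases hz : a * H p - 3 < 0 ∨ 1 < a * H p - 3
    · rw [calC_deriv_zero hz, zero_mul, zero_pow two_ne_zero, zero_mul]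
      positivity
    · push Not at hz
      obtain ⟨hz1, hz2⟩ := hz
      have h1 : H p ≤ 0 := by
        by_contra h
        have := mul_neg_of_neg_of_pos ha0 (not_le.1 h)
        linarith
      have h2 : -(2 * (η * ε)) ≤ H p := by
        by_contra h
        have h3 := mul_lt_mul_of_neg_left (not_le.1 h) ha0
        have h4 : a * -(2 * (η * ε)) = 4 := by linear_combination (-2) * has
        linarith
      have h5 := abs_le.1 (c.val p)
      have h6 : η * ε ≤ 1 / 100 * ε := mul_le_mul_of_nonneg_right hη1 hε.le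
      have hG : |G p| ≤ 2 * ε := abs_le.2 ⟨by linarith [h5.2], by linarith [h5.1]⟩
      have h7 := (c.g2H hG).2.1
      obtain ⟨h8, h9⟩ := hBd (a * H p - 3)
      have h10 : deriv Real.smoothTransition (a * H p - 3) ^ 2 ≤ B ^ 2 :=
        pow_le_pow_left₀ h8 h9 2
      have h11 : 8 * B ^ 2 / η ^ 2 / ε ^ 2 = B ^ 2 * a ^ 2 * 2 := by
        rw [ha]; field_simp; ring
      rw [h11, mul_pow]
      exact mul_le_mul (mul_le_mul_of_nonneg_right h10 (sq_nonneg a)) h7 (g2_nonneg _ _)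
        (by positivity)

end Pool.Agent.Lib.MP_d36e13_an.ND
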