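import Pool.Agent.Lib.MP_d36e13_an.ND.Pol

/-!
The Cauchy-Pompeiu formula and its companion.
-/

open MeasureTheory Set Filter Topology Metric
open scoped ENNReal ContDiff

namespace Pool.Agent.Lib.MP_d36e13_an.ND

theorem cauchy_pompeiu {u : ℝ × ℝ → ℝ} (hu : ContDiff ℝ 1 u) (hc : HasCompactSupport u)
    (z : ℝ × ℝ) : ∫ ζ, cg u ζ / (cz ζ - cz z) = -(2 * Real.pi * u z : ℝ) := by
  obtain ⟨R, hR0, hR⟩ := exists_far hc.isCompact z
  have c1 := continuous_dd (v := (1, 0)) hu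
  have c2 := continuous_dd (v := (0, 1)) hu
  have cp : Continuous fun p : ℝ × ℝ => pt z p.1 p.2 := by unfold pt; fun_prop
  set a : ℝ × ℝ → ℝ := fun p => Real.cos p.2 * dd (1, 0) u (pt z p.1 p.2) +
    Real.sin p.2 * dd (0, 1) u (pt z p.1 p.2) with ha
  set b : ℝ × ℝ → ℝ := fun p => -Real.sin p.2 * dd (1, 0) u (pt z p.1 p.2) +
    Real.cos p.2 * dd (0, 1) u (pt z p.1 p.2) with hb
  have ca : Continuous a := by
    have := c1.comp cp
    have := c2.comp cp
    fun_prop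
  have cb : Continuous b := by
    have := c1.comp cp
    have := c2.comp cp
    fun_prop
  have a0 : ∀ p : ℝ × ℝ, R ≤ p.1 → a p = 0 := fun p hp => by
    simp [ha, dd_eq_zero_of_notMem (hR _ _ hp)]
  have b0 : ∀ p : ℝ × ℝ, R ≤ p.1 → b p = 0 := fun p hp => by
    simp [hb, dd_eq_zero_of_notMem (hR _ _ hp)]
  obtain ⟨-, fa, ia⟩ := fubini_both (g := fun p => (a p : ℂ)) (Complex.continuous_ofReal.comp ca)
    (R := R) fun p hp => by simp [a0 p hp]
  obtain ⟨fb, -, ib⟩ := fubini_both (g := fun p => (b p : ℂ)) (Complex.continuous_ofReal.comp cb)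
    (R := R) fun p hp => by simp [b0 p hp]
  have hray : ∀ θ : ℝ, ∫ r in Ioi (0 : ℝ), (a (r, θ) : ℂ) = -(u z : ℂ) := by
    intro θ
    have h1 : IntegrableOn (fun r => a (r, θ)) (Ioi 0) :=
      ((ca.comp (Continuous.prodMk_left θ)).integrableOn_Icc (a := 0) 
        (b := R)).of_forall_sdiff_eq_zero measurableSet_Ioi fun r hr => a0 _ (by
          by_contra h
          exact hr.2 ⟨le_of_lt hr.1, (not_le.1 h).le⟩)
    have h2 : Tendsto (fun r => u (pt z r θ)) atTop (𝓝 0) :=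
      tendsto_const_nhds.congr' ((eventually_ge_atTop R).mono fun r hr =>
        (image_eq_zero_of_notMem_tsupport (hR r θ hr)).symm)
    have h3 := integral_Ioi_of_hasDerivAt_of_tendsto' (fun r _ => hasDerivAt_ray hu z r θ) h1 h2
    rw [integral_complex_ofReal, h3]
    simp [pt]
  have hcirc : ∀ r ∈ Ioi (0 : ℝ), ∫ θ in Ioo (-Real.pi) Real.pi, (b (r, θ) : ℂ) = 0 := by
    intro r hr
    have h1 := intervalIntegral.integral_eq_sub_of_hasDerivAt (a := -Real.pi) (b := Real.pi)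
      (fun θ _ => hasDerivAt_circ hu z r θ)
      ((continuous_const.mul (cb.comp (Continuous.prodMk_right r))).intervalIntegrable _ _)
    rw [intervalIntegral.integral_const_mul,
      intervalIntegral.integral_of_le (by linarith [Real.pi_pos]), integral_Ioc_eq_integral_Ioo]
      at h1
    have h2 : u (pt z r Real.pi) - u (pt z r (-Real.pi)) = 0 := by simp [pt]
    rw [h2] at h1
    rw [integral_complex_ofReal, Complex.ofReal_eq_zero]
    exact (mul_eq_zero.1 h1).resolve_left (ne_of_gt hr)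
  rw [polar_int z, setIntegral_congr_fun (measurableSet_Ioi.prod measurableSet_Ioo)
    (g := fun p => (a p : ℂ) + Complex.I * b p), integral_add ia (ib.const_mul _),
    integral_const_mul, fa, fb, setIntegral_congr_fun measurableSet_Ioi hcirc]
  · simp only [hray, integral_zero, mul_zero, add_zero, integral_const, MeasurableSet.univ,
      measureReal_restrict_apply, univ_inter, Real.volume_real_Ioo]
    rw [max_eq_left (by linarith [Real.pi_pos]), Complex.real_smul]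
    push_cast
    ring
  · intro p hp
    have h0 : (p.1 : ℂ) ≠ 0 := Complex.ofReal_ne_zero.2 (ne_of_gt hp.1)
    have h1 := Complex.exp_ne_zero ((p.2 : ℂ) * Complex.I)
    simp only [cz_pt, ha, hb, cg]
    field_simp
    rw [mul_comm Complex.I (p.2 : ℂ), Complex.exp_mul_I]
    push_cast
    linear_combination (-(dd (1, 0) u (pt z p.1 p.2) : ℂ) - dd (0, 1) u (pt z p.1 p.2) * Complex.I) *
      Complex.sin_sq_add_cos_sq (p.2 : ℂ) + ((dd (1, 0) u (pt z p.1 p.2) : ℂ) * Complex.sin p.2 ^ 2 -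
        dd (0, 1) u (pt z p.1 p.2) * Complex.cos p.2 * Complex.sin p.2) * Complex.I_sq

theorem ker_ibp {u : ℝ × ℝ → ℝ} (hu : ContDiff ℝ 1 u) (hc : HasCompactSupport u)
    (ζ : ℝ × ℝ) : ∫ z, cg u z * ker z ζ = -2 * ∫ z, (u z : ℂ) / (cz z - cz ζ) := by
  obtain ⟨R, hR0, hR⟩ := exists_far hc.isCompact ζ
  let E : ℝ → ℂ := fun θ => (Real.cos θ : ℂ) - (Real.sin θ : ℂ) * Complex.I
  let U : ℝ × ℝ → ℝ := fun p => u (pt ζ p.1 p.2)
  let A : ℝ × ℝ → ℝ := fun p =>
    Real.cos p.2 * dd (1, 0) u (pt ζ p.1 p.2) + Real.sin p.2 * dd (0, 1) u (pt ζ p.1 p.2)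
  let B : ℝ × ℝ → ℝ := fun p => p.1 *
    (-Real.sin p.2 * dd (1, 0) u (pt ζ p.1 p.2) + Real.cos p.2 * dd (0, 1) u (pt ζ p.1 p.2))
  have cP : Continuous fun p : ℝ × ℝ => pt ζ p.1 p.2 := by unfold pt; fun_prop
  have c1 : Continuous fun p : ℝ × ℝ => dd (1, 0) u (pt ζ p.1 p.2) :=
    (continuous_dd (v := (1, 0)) hu).comp cP
  have c2 : Continuous fun p : ℝ × ℝ => dd (0, 1) u (pt ζ p.1 p.2) :=
    (continuous_dd (v := (0, 1)) hu).comp cP
  have cU : Continuous U := hu.continuous.comp cP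
  have cA : Continuous A := by simp only [A]; fun_prop
  have cB : Continuous B := by simp only [B]; fun_prop
  have cE : Continuous E := by simp only [E]; fun_prop
  have zU : ∀ p : ℝ × ℝ, R ≤ p.1 → U p = 0 := fun p hp =>
    image_eq_zero_of_notMem_tsupport (f := u) (hR _ _ hp)
  have zA : ∀ p : ℝ × ℝ, R ≤ p.1 → A p = 0 := fun p hp => by
    simp [A, dd_eq_zero_of_notMem (hR _ _ hp)]
  have zB : ∀ p : ℝ × ℝ, R ≤ p.1 → B p = 0 := fun p hp => by
    simp [B, dd_eq_zero_of_notMem (hR _ _ hp)]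
  have hsq : ∀ θ : ℝ, (Real.sin θ : ℂ) ^ 2 + (Real.cos θ : ℂ) ^ 2 = 1 := fun θ => by
    exact_mod_cast Real.sin_sq_add_cos_sq θ
  have hex : ∀ θ : ℝ, Complex.exp ((θ : ℂ) * Complex.I) =
      (Real.cos θ : ℂ) + (Real.sin θ : ℂ) * Complex.I := fun θ => by
    rw [Complex.exp_mul_I, Complex.ofReal_cos, Complex.ofReal_sin]
  have hinv : ∀ θ : ℝ, (Complex.exp ((θ : ℂ) * Complex.I))⁻¹ = E θ := fun θ => by
    refine inv_eq_of_mul_eq_one_right ?_
    rw [hex]
    simp only [E]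
    linear_combination hsq θ - (Real.sin θ : ℂ) ^ 2 * Complex.I_sq
  have hconj : ∀ θ : ℝ, (starRingEnd ℂ) (Complex.exp ((θ : ℂ) * Complex.I)) = E θ := fun θ => by
    rw [hex, map_add, map_mul, Complex.conj_ofReal, Complex.conj_ofReal, Complex.conj_I]
    simp only [E]
    ring
  have dE : ∀ θ : ℝ, HasDerivAt E (-Complex.I * E θ) θ := fun θ => by
    refine ((Real.hasDerivAt_cos θ).ofReal_comp.sub
      ((Real.hasDerivAt_sin θ).ofReal_comp.mul_const Complex.I)).congr_deriv ?_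
    simp only [E, Complex.ofReal_neg]
    linear_combination (-(Real.sin θ : ℂ)) * Complex.I_sq
  let g1 : ℝ × ℝ → ℂ := fun p => E p.2 * ((1 * U p + p.1 * A p : ℝ) : ℂ)
  let g2 : ℝ × ℝ → ℂ := fun p => Complex.I * (-Complex.I * E p.2 * (U p : ℂ) + E p.2 * (B p : ℂ))
  let g3 : ℝ × ℝ → ℂ := fun p => E p.2 * (U p : ℂ)
  obtain ⟨-, f1, i1⟩ := fubini_both (g := g1) (R := R) (by simp only [g1]; fun_prop)
    fun p hp => by simp [g1, zU p hp, zA p hp]
  obtain ⟨f2, -, i2⟩ := fubini_both (g := g2) (R := R) (by simp only [g2]; fun_prop)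
    fun p hp => by simp [g2, zU p hp, zB p hp]
  obtain ⟨-, -, i3⟩ := fubini_both (g := g3) (R := R) (by simp only [g3]; fun_prop)
    fun p hp => by simp [g3, zU p hp]
  have e1 : ∀ θ : ℝ, ∫ r in Ioi (0 : ℝ), g1 (r, θ) = 0 := fun θ => by
    have hd : ∀ r : ℝ, HasDerivAt (fun s : ℝ => s * U (s, θ)) (1 * U (r, θ) + r * A (r, θ)) r :=
      fun r => (hasDerivAt_id r).mul (hasDerivAt_ray hu ζ r θ)
    have hi : IntegrableOn (fun r : ℝ => 1 * U (r, θ) + r * A (r, θ)) (Ioi 0) := by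
      have h0 : Continuous fun r : ℝ => 1 * U (r, θ) + r * A (r, θ) := by fun_prop
      refine (h0.integrableOn_Icc (a := 0) (b := R)).of_forall_sdiff_eq_zero measurableSet_Ioi
        fun r hr => ?_
      have h1 : R ≤ r := by
        by_contra h
        exact hr.2 ⟨le_of_lt hr.1, (not_le.1 h).le⟩
      rw [zU (r, θ) h1, zA (r, θ) h1]
      ring
    have ht : Tendsto (fun s : ℝ => s * U (s, θ)) atTop (𝓝 0) := by
      refine tendsto_const_nhds.congr' ?_
      filter_upwards [eventually_ge_atTop R] with s hs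
      rw [zU (s, θ) hs, mul_zero]
    have h := integral_Ioi_of_hasDerivAt_of_tendsto (hd 0).continuousAt.continuousWithinAt
      (fun r _ => hd r) hi ht
    simp only [g1]
    rw [integral_const_mul, integral_complex_ofReal, h]
    simp
  have e2 : ∀ r : ℝ, ∫ θ in Ioo (-Real.pi) Real.pi, g2 (r, θ) = 0 := fun r => by
    have hd : ∀ θ : ℝ, HasDerivAt (fun s : ℝ => E s * (U (r, s) : ℂ))
        (-Complex.I * E θ * (U (r, θ) : ℂ) + E θ * (B (r, θ) : ℂ)) θ :=
      fun θ => (dE θ).mul (hasDerivAt_circ hu ζ r θ).ofReal_comp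
    have h0 : Continuous fun θ : ℝ =>
        -Complex.I * E θ * (U (r, θ) : ℂ) + E θ * (B (r, θ) : ℂ) := by fun_prop
    have h := intervalIntegral.integral_eq_sub_of_hasDerivAt (a := -Real.pi) (b := Real.pi)
      (fun θ _ => hd θ) (h0.intervalIntegrable _ _)
    rw [intervalIntegral.integral_of_le (by linarith [Real.pi_pos]),
      integral_Ioc_eq_integral_Ioo] at h
    simp only [g2]
    rw [integral_const_mul, h]
    simp [E, U, pt]
  have hS : MeasurableSet (Ioi (0 : ℝ) ×ˢ Ioo (-Real.pi) Real.pi) :=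
    measurableSet_Ioi.prod measurableSet_Ioo
  have hL : ∫ z, cg u z * ker z ζ =
      ∫ p in Ioi (0 : ℝ) ×ˢ Ioo (-Real.pi) Real.pi, (g1 p + g2 p + -2 * g3 p) := by
    rw [polar_int ζ]
    refine setIntegral_congr_fun hS fun p hp => ?_
    have hr : (p.1 : ℂ) ≠ 0 := Complex.ofReal_ne_zero.2 (ne_of_gt hp.1)
    have hk : ker (pt ζ p.1 p.2) ζ = E p.2 * E p.2 := by
      unfold ker
      rw [cz_pt, map_mul, Complex.conj_ofReal, hconj, mul_div_mul_left _ _ hr, div_eq_mul_inv, hinv]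
    simp only [hk, g1, g2, g3, cg, A, B]
    have hE : E p.2 = (Real.cos p.2 : ℂ) - (Real.sin p.2 : ℂ) * Complex.I := rfl
    generalize E p.2 = e at hE ⊢
    generalize Real.cos p.2 = c at hE ⊢
    generalize Real.sin p.2 = s at hE ⊢
    push_cast
    linear_combination (p.1 : ℂ) * ((dd (1, 0) u (pt ζ p.1 p.2) : ℂ) +
      (dd (0, 1) u (pt ζ p.1 p.2) : ℂ) * Complex.I) * e * hE +
      (e * (U p : ℂ) - (p.1 : ℂ) * e * (s : ℂ) * (dd (0, 1) u (pt ζ p.1 p.2) : ℂ)) * Complex.I_sq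
  have hRr : ∫ z, (u z : ℂ) / (cz z - cz ζ) =
      ∫ p in Ioi (0 : ℝ) ×ˢ Ioo (-Real.pi) Real.pi, g3 p := by
    rw [polar_int ζ]
    refine setIntegral_congr_fun hS fun p hp => ?_
    have hr : (p.1 : ℂ) ≠ 0 := Complex.ofReal_ne_zero.2 (ne_of_gt hp.1)
    simp only [g3, U]
    rw [cz_pt, ← mul_div_assoc, mul_div_mul_left _ _ hr, div_eq_mul_inv, hinv, mul_comm]
  rw [hL, hRr, integral_add (f := fun p => g1 p + g2 p) (i1.add i2) (i3.const_mul _),
    integral_add i1 i2, f1, f2, integral_const_mul]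
  simp [e1, e2]

end Pool.Agent.Lib.MP_d36e13_an.ND
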