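import Pool.Agent.Lib.MP_d36e13_an.ND.Defs

/-!
Small perturbations of the identity.
-/

open MeasureTheory Set Filter Topology Metric
open scoped ENNReal ContDiff

namespace Pool.Agent.Lib.MP_d36e13_an.ND

theorem homeo_equiv (A : (ℝ × ℝ) →L[ℝ] (ℝ × ℝ)) {l : ℝ} (hl : l < 1 / 2)
    (hb : ∀ v, ‖A v‖ ≤ l * ‖v‖) :
    ∃ e : (ℝ × ℝ) ≃L[ℝ] (ℝ × ℝ),
      (e : (ℝ × ℝ) →L[ℝ] (ℝ × ℝ)) = ContinuousLinearMap.id ℝ _ + A := by
  have hinj : Function.Injective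
      ((ContinuousLinearMap.id ℝ (ℝ × ℝ) + A : (ℝ × ℝ) →L[ℝ] (ℝ × ℝ)) :
        (ℝ × ℝ) →ₗ[ℝ] (ℝ × ℝ)) := by
    rw [injective_iff_map_eq_zero]
    intro w hw
    have h1 : w + A w = 0 := hw
    have h2 : w = -A w := eq_neg_of_add_eq_zero_left h1
    have h3 : ‖w‖ ≤ l * ‖w‖ := by
      calc ‖w‖ = ‖A w‖ := by rw [← norm_neg (A w), ← h2]
        _ ≤ l * ‖w‖ := hb w
    have h4 := norm_nonneg w
    exact norm_eq_zero.1 (by nlinarith)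
  exact ⟨(LinearEquiv.ofInjectiveEndo _ hinj).toContinuousLinearEquiv, by ext <;> rfl⟩

theorem exists_homeo {V : ℝ × ℝ → ℝ × ℝ} (hV : ContDiff ℝ 1 V) {l : ℝ} (hl0 : 0 ≤ l)
    (hl : l < 1 / 2) (hb : ∀ p v : ℝ × ℝ, ‖fderiv ℝ V p v‖ ≤ l * ‖v‖) :
    ∃ T : (ℝ × ℝ) ≃ₜ (ℝ × ℝ), (∀ p, T p = p + V p) ∧ ContDiff ℝ 1 T.symm ∧
      ∀ y v : ℝ × ℝ, ‖fderiv ℝ T.symm y v - v‖ ≤ 2 * l * ‖v‖ := by
  have hd : Differentiable ℝ V := hV.differentiable one_ne_zero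
  have hA : ApproximatesLinearOn (fun p => p + V p)
      ((ContinuousLinearEquiv.refl ℝ (ℝ × ℝ) : (ℝ × ℝ) ≃L[ℝ] (ℝ × ℝ)) :
        (ℝ × ℝ) →L[ℝ] (ℝ × ℝ)) univ ⟨l, hl0⟩ := by
    intro x _ y _
    have h := (convex_univ (𝕜 := ℝ) (E := ℝ × ℝ)).norm_image_sub_le_of_norm_fderiv_le
      (f := V) (C := l) (fun z _ => hd z)
      (fun z _ => ContinuousLinearMap.opNorm_le_bound _ hl0 (hb z)) (mem_univ y) (mem_univ x)
    have e : x + V x - (y + V y) - (x - y) = V x - V y := by abel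
    change ‖x + V x - (y + V y) - (x - y)‖ ≤ l * ‖x - y‖
    rw [e]
    exact h
  have hc : Subsingleton (ℝ × ℝ) ∨ (⟨l, hl0⟩ : NNReal) <
      ‖((ContinuousLinearEquiv.refl ℝ (ℝ × ℝ)).symm : (ℝ × ℝ) →L[ℝ] (ℝ × ℝ))‖₊⁻¹ := by
    right
    have : ‖((ContinuousLinearEquiv.refl ℝ (ℝ × ℝ)).symm : (ℝ × ℝ) →L[ℝ] (ℝ × ℝ))‖₊ = 1 := by
      simp
    rw [this, inv_one]
    exact (show l < 1 by linarith)
  obtain ⟨T, hT⟩ : ∃ T : (ℝ × ℝ) ≃ₜ (ℝ × ℝ), ∀ p, T p = p + V p :=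
    ⟨hA.toHomeomorph _ hc, fun _ => rfl⟩
  have hT' : (T : ℝ × ℝ → ℝ × ℝ) = fun p => p + V p := funext hT
  choose e he using fun p => homeo_equiv (fderiv ℝ V p) hl (hb p)
  have hS : ContDiff ℝ 1 T.symm := by
    refine T.contDiff_symm (f₀' := e) (fun a => ?_) ?_
    · rw [hT', he]
      exact (hasFDerivAt_id a).add (hd a).hasFDerivAt
    · rw [hT']
      exact contDiff_id.add hV
  refine ⟨T, hT, hS, fun y v => ?_⟩
  have hSd := (hS.differentiable one_ne_zero y).hasFDerivAt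
  have h1 : HasFDerivAt (fun z => T.symm z + V (T.symm z))
      (fderiv ℝ T.symm y + (fderiv ℝ V (T.symm y)).comp (fderiv ℝ T.symm y)) y :=
    hSd.add ((hd _).hasFDerivAt.comp y hSd)
  have h2 : (fun z => T.symm z + V (T.symm z)) = id := by
    funext z
    rw [← hT, T.apply_symm_apply]
    rfl
  rw [h2] at h1
  have h3 := DFunLike.congr_fun (h1.unique (hasFDerivAt_id y)) v
  have h4 : fderiv ℝ T.symm y v + fderiv ℝ V (T.symm y) (fderiv ℝ T.symm y v) = v := h3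
  generalize fderiv ℝ T.symm y v = w at h4 ⊢
  have h5 := hb (T.symm y) w
  have h6 : w - v = -fderiv ℝ V (T.symm y) w := by rw [← h4]; abel
  have h7 : ‖w - v‖ ≤ l * ‖w‖ := by rw [h6, norm_neg]; exact h5
  have h8 : ‖w‖ ≤ ‖w - v‖ + ‖v‖ := by simpa using norm_add_le (w - v) v
  have h9 := norm_nonneg w
  have h10 : ‖w‖ ≤ 2 * ‖v‖ := by nlinarith
  nlinarith [mul_le_mul_of_nonneg_left h10 hl0]

end Pool.Agent.Lib.MP_d36e13_an.ND
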