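import Pool.Agent.Lib.MP_d36e13_an.ND.Basic

/-!
Increments of the defining function along an approximate gradient.
-/

open MeasureTheory Set Filter Topology Metric
open scoped ENNReal ContDiff

namespace Pool.Agent.Lib.MP_d36e13_an.ND

theorem increment {D : Set (ℝ × ℝ)} {G : ℝ × ℝ → ℝ} (h : DefF D G) {η : ℝ} (hη : 0 < η) :
    ∃ θ₀ : ℝ, 0 < θ₀ ∧ ∃ ε₀ : ℝ, 0 < ε₀ ∧ ∀ ε : ℝ, 0 < ε → ε < ε₀ → ∀ p V : ℝ × ℝ,
      |V.1 - dd (1, 0) G p| ≤ θ₀ → |V.2 - dd (0, 1) G p| ≤ θ₀ →
      |G (p + ε • V) - G p - ε * g2 G p| ≤ η * ε := by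
  obtain ⟨L, hL, hb, -⟩ := h.exists_bound
  obtain ⟨δ, hδ, hu⟩ := h.unif (θ := η / (2 * (L + 1))) (by positivity)
  refine ⟨min 1 (η / (4 * L)), by positivity, δ / (L + 1), by positivity,
    fun ε hε hε₀ p V h1 h2 => ?_⟩
  have b1 : |dd (1, 0) G p| ≤ L := by simpa using hb p (1, 0)
  have b2 : |dd (0, 1) G p| ≤ L := by simpa using hb p (0, 1)
  have hV : ‖V‖ ≤ L + 1 := by
    have a1 := abs_le.1 (h1.trans (min_le_left _ _))
    have a2 := abs_le.1 (h2.trans (min_le_left _ _))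
    have a3 := abs_le.1 b1
    have a4 := abs_le.1 b2
    rw [Prod.norm_def]
    refine max_le ?_ ?_ <;> rw [Real.norm_eq_abs, abs_le] <;> constructor <;> linarith
  have e1 : |dd V G p - g2 G p| ≤ η / 2 := by
    have e : dd V G p - g2 G p = (V.1 - dd (1, 0) G p) * dd (1, 0) G p +
        (V.2 - dd (0, 1) G p) * dd (0, 1) G p := by
      have := clm_apply_eq (fderiv ℝ G p) V
      unfold g2 dd
      rw [this]; ring
    have c1 := mul_le_mul (h1.trans (min_le_right _ _)) b1 (abs_nonneg _) (by positivity)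
    have c2 := mul_le_mul (h2.trans (min_le_right _ _)) b2 (abs_nonneg _) (by positivity)
    have c3 : η / (4 * L) * L = η / 4 := by field_simp
    rw [e]
    refine (abs_add_le _ _).trans ?_
    rw [abs_mul, abs_mul]
    linarith
  have hd : ∀ t : ℝ, HasDerivAt (fun t : ℝ => G (p + t • V) - t * g2 G p)
      (dd V G (p + t • V) - g2 G p) t := fun t => by
    have a1 : HasDerivAt (fun t : ℝ => p + t • V) V t := by
      simpa using ((hasDerivAt_id t).smul_const V).const_add p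
    have a2 := ((h.cd.differentiable one_ne_zero) (p + t • V)).hasFDerivAt.comp_hasDerivAt t a1
    have a3 : HasDerivAt (fun t : ℝ => t * g2 G p) (g2 G p) t := by
      simpa using (hasDerivAt_id t).mul_const (g2 G p)
    exact a2.sub a3
  have mv := norm_image_sub_le_of_norm_deriv_le_segment' (a := 0) (b := ε) (C := η)
    (fun t _ => (hd t).hasDerivWithinAt) (fun t ht => by
      have a1 : ‖p + t • V - p‖ ≤ δ := by
        rw [add_sub_cancel_left, norm_smul, Real.norm_of_nonneg ht.1]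
        have := (lt_div_iff₀ (by positivity : 0 < L + 1)).1 (ht.2.trans hε₀)
        exact (mul_le_mul_of_nonneg_left hV ht.1).trans this.le
      have a2 := (hu _ _ V a1).trans (mul_le_mul_of_nonneg_left hV (by positivity))
      have a3 : η / (2 * (L + 1)) * (L + 1) = η / 2 := by field_simp
      rw [Real.norm_eq_abs]
      refine (abs_sub_le _ (dd V G p) _).trans ?_
      linarith) ε ⟨hε.le, le_rfl⟩
  rw [Real.norm_eq_abs, zero_smul, add_zero, zero_mul, sub_zero, sub_zero] at mv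
  rwa [sub_right_comm]

theorem dd_comp_close {D : Set (ℝ × ℝ)} {G : ℝ × ℝ → ℝ} (h : DefF D G) {η : ℝ} (hη : 0 < η) :
    ∃ δ : ℝ, 0 < δ ∧ ∀ S : ℝ × ℝ → ℝ × ℝ, ContDiff ℝ 1 S → (∀ y, ‖S y - y‖ ≤ δ) →
      (∀ y v : ℝ × ℝ, ‖fderiv ℝ S y v - v‖ ≤ δ * ‖v‖) →
      ∀ y v : ℝ × ℝ, |dd v (fun q => G (S q)) y - dd v G y| ≤ η * ‖v‖ := by
  obtain ⟨L, hL, hb, -⟩ := h.exists_bound
  obtain ⟨δ, hδ, hu⟩ := h.unif (half_pos hη)
  refine ⟨min δ (η / (2 * L)), by positivity, fun S hS h1 h2 y v => ?_⟩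
  have e : dd v (fun q => G (S q)) y - dd v G (S y) = dd (fderiv ℝ S y v - v) G (S y) := by
    have := (((h.cd.differentiable one_ne_zero) (S y)).hasFDerivAt.comp y
      ((hS.differentiable one_ne_zero) y).hasFDerivAt).fderiv
    unfold dd
    rw [map_sub]
    exact congrArg (fun T : ℝ × ℝ →L[ℝ] ℝ => T v - fderiv ℝ G (S y) v) this
  have a1 := hu (S y) y v ((h1 y).trans (min_le_left _ _))
  have a2 := (hb (S y) (fderiv ℝ S y v - v)).trans (mul_le_mul_of_nonneg_left ((h2 y v).trans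
    (mul_le_mul_of_nonneg_right (min_le_right _ _) (norm_nonneg v))) (by positivity))
  have a3 : L * (η / (2 * L) * ‖v‖) = η / 2 * ‖v‖ := by field_simp
  refine (abs_sub_le _ (dd v G (S y)) _).trans ?_
  rw [e]
  linarith

theorem Col.isC1Domain {D Ω : Set (ℝ × ℝ)} {G K H : ℝ × ℝ → ℝ} {η ε t : ℝ}
    (c : Col D Ω G K H η ε t) (hs : IsSimplyConnected Ω) : IsC1Domain Ω := by
  have ho : IsOpen Ω := by rw [c.om]; exact isOpen_lt c.cK.continuous continuous_const
  refine ⟨ho, c.bdd, hs, fun p hp => ⟨univ, K, isOpen_univ, mem_univ _, c.cK.contDiffOn, ?_, ?_, ?_⟩⟩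
  · rw [ho.frontier_eq] at hp
    have h1 : closure Ω ⊆ {q | K q ≤ 0} :=
      closure_minimal (fun q hq => by rw [c.om] at hq; exact le_of_lt (show K q < 0 from hq))
        (isClosed_le c.cK.continuous continuous_const)
    refine le_antisymm (h1 hp.1) (not_lt.1 fun hh => hp.2 ?_)
    rw [c.om]; exact hh
  · intro h0
    rw [ho.frontier_eq] at hp
    have h1 : closure Ω ⊆ {q | G q ≤ (1 + 3 * η) * ε} :=
      closure_minimal (fun q hq => le_of_lt (c.out q hq))
        (isClosed_le c.defG.cd.continuous continuous_const)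
    have h2 : G p ≤ (1 + 3 * η) * ε := h1 hp.1
    have h3 : (1 - 3 * η) * ε < G p := not_le.1 fun hh => hp.2 (c.inn p hh)
    have h4 := c.eta_pos
    have h5 := c.eta_le
    have h6 := c.eps_pos
    have h7 := abs_le.1 (c.unit p (abs_le.2 ⟨by nlinarith, by nlinarith⟩))
    have d1 := c.dK₁ p
    have d2 := c.dK₂ p
    have z : ∀ v, dd v K p = 0 := fun v => by unfold dd; rw [h0]; rfl
    rw [z, zero_sub, abs_neg] at d1 d2
    have s1 := sq_le_sq' (abs_le.1 d1).1 (abs_le.1 d1).2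
    have s2 := sq_le_sq' (abs_le.1 d2).1 (abs_le.1 d2).2
    unfold g2 at h7
    nlinarith [h7.1]
  · rw [c.om]; ext q; simp

end Pool.Agent.Lib.MP_d36e13_an.ND
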