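import Pool.Agent.Lib.MP_d36e13_an.ND.Moll
import Pool.Agent.Lib.MP_d36e13_an.ND.Homeo
import Pool.Agent.Lib.MP_d36e13_an.ND.Incr

/-!
Existence of collars.
-/

open MeasureTheory Set Filter Topology Metric
open scoped ENNReal ContDiff

namespace Pool.Agent.Lib.MP_d36e13_an.ND

theorem collar_n1 : ‖((1 : ℝ), (0 : ℝ))‖ = 1 := by simp [Prod.norm_def]

theorem collar_n2 : ‖((0 : ℝ), (1 : ℝ))‖ = 1 := by simp [Prod.norm_def]

theorem collar_field {H : ℝ × ℝ → ℝ} (hH : ContDiff ℝ ∞ H) {ε θ : ℝ} (hε : 0 < ε)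
    (h2 : ∀ p v w : ℝ × ℝ, |dd w (dd v H) p| ≤ θ / ε * (‖v‖ * ‖w‖)) :
    ContDiff ℝ 1 (fun p => ε • ((dd (1, 0) H p, dd (0, 1) H p) : ℝ × ℝ)) ∧
    ∀ p v : ℝ × ℝ,
      ‖fderiv ℝ (fun p => ε • ((dd (1, 0) H p, dd (0, 1) H p) : ℝ × ℝ)) p v‖ ≤ θ * ‖v‖ := by
  have c1 : ContDiff ℝ 1 (dd (1, 0) H) := (contDiff_dd_top hH).of_le (by simp)
  have c2 : ContDiff ℝ 1 (dd (0, 1) H) := (contDiff_dd_top hH).of_le (by simp)
  refine ⟨(c1.prodMk c2).const_smul ε, fun p v => ?_⟩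
  have hd := (((c1.differentiable (by simp) p).hasFDerivAt).prodMk
    ((c2.differentiable (by simp) p).hasFDerivAt)).const_smul ε
  have e : fderiv ℝ (fun p => ε • ((dd (1, 0) H p, dd (0, 1) H p) : ℝ × ℝ)) p v =
      ε • ((dd v (dd (1, 0) H) p, dd v (dd (0, 1) H) p) : ℝ × ℝ) :=
    congrArg (fun A : ℝ × ℝ →L[ℝ] ℝ × ℝ => A v) hd.fderiv
  have a1 := h2 p (1, 0) v
  have a2 := h2 p (0, 1) v
  rw [collar_n1, one_mul] at a1
  rw [collar_n2, one_mul] at a2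
  rw [e, norm_smul, Real.norm_of_nonneg hε.le]
  calc ε * ‖((dd v (dd (1, 0) H) p, dd v (dd (0, 1) H) p) : ℝ × ℝ)‖ ≤ ε * (θ / ε * ‖v‖) :=
        mul_le_mul_of_nonneg_left (max_le a1 a2) hε.le
    _ = θ * ‖v‖ := by field_simp

theorem exists_col {D : Set (ℝ × ℝ)} {G : ℝ × ℝ → ℝ} (hs : IsSimplyConnected D) (h : DefF D G)
    {η t : ℝ} (hη : 0 < η) (hη1 : η ≤ 1 / 100) (ht : 0 < t)
    (hu : ∀ p, G p = 0 → |g2 G p - 1| < η) :
    ∃ ε₀ : ℝ, 0 < ε₀ ∧ ∀ ε : ℝ, 0 < ε → ε < ε₀ → ∃ (Ω : Set (ℝ × ℝ)) (K H : ℝ × ℝ → ℝ),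
      IsSimplyConnected Ω ∧ Col D Ω G K H η ε t := by
  obtain ⟨s, hs0, hsU⟩ := shrink (U := {p | |g2 G p - 1| < η}) h
    (isOpen_lt ((continuous_g2 h.cd).sub continuous_const).abs continuous_const) hu
  replace hsU : ∀ p, |G p| ≤ s → |g2 G p - 1| < η := hsU
  obtain ⟨L, hL, hLd, -⟩ := h.exists_bound
  obtain ⟨θ₀, hθ₀, ε₁, hε₁, hinc⟩ := increment h hη
  obtain ⟨δ, hδ, hcomp⟩ := dd_comp_close h hη
  obtain ⟨θ, hθ, t1, t2, t3, t4, t5⟩ :
      ∃ θ : ℝ, 0 < θ ∧ θ ≤ η ∧ θ ≤ t / 2 ∧ θ ≤ θ₀ ∧ θ ≤ δ / 2 ∧ θ ≤ 1 / 4 :=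
    ⟨min (min η (t / 2)) (min θ₀ (min (δ / 2) (1 / 4))), by positivity,
      (min_le_left _ _).trans (min_le_left _ _), (min_le_left _ _).trans (min_le_right _ _),
      (min_le_right _ _).trans (min_le_left _ _),
      (min_le_right _ _).trans ((min_le_right _ _).trans (min_le_left _ _)),
      (min_le_right _ _).trans ((min_le_right _ _).trans (min_le_right _ _))⟩
  obtain ⟨ε₂, hε₂, hmol⟩ := exists_moll h hθ
  refine ⟨min (min ε₁ ε₂) (min (δ / (L + 1)) (s / (2 * L ^ 2 + 2))), by positivity,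
    fun ε hε hlt => ?_⟩
  simp only [lt_min_iff] at hlt
  obtain ⟨⟨e1, e2⟩, e3, e4⟩ := hlt
  rw [lt_div_iff₀ (by positivity)] at e3 e4
  obtain ⟨H, hH, hv, hd, h2⟩ := hmol ε hε e2
  obtain ⟨cV, bV⟩ := collar_field hH hε h2
  obtain ⟨T, hT, cS, bS⟩ := exists_homeo cV hθ.le (by linarith) bV
  have d1 : ∀ p, |dd (1, 0) H p - dd (1, 0) G p| ≤ θ := fun p => by
    simpa only [collar_n1, mul_one] using hd p (1, 0)
  have d2 : ∀ p, |dd (0, 1) H p - dd (0, 1) G p| ≤ θ := fun p => by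
    simpa only [collar_n2, mul_one] using hd p (0, 1)
  have l1 : ∀ p, |dd (1, 0) G p| ≤ L := fun p => by
    simpa only [collar_n1, mul_one] using hLd p (1, 0)
  have l2 : ∀ p, |dd (0, 1) G p| ≤ L := fun p => by
    simpa only [collar_n2, mul_one] using hLd p (0, 1)
  have hg : ∀ p, g2 G p ≤ 2 * L ^ 2 := fun p => by
    have a := sq_le_sq' (abs_le.1 (l1 p)).1 (abs_le.1 (l1 p)).2
    have b := sq_le_sq' (abs_le.1 (l2 p)).1 (abs_le.1 (l2 p)).2
    unfold g2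
    linarith
  have hL2 : 1 ≤ L ^ 2 := one_le_pow₀ hL
  have hes : 4 * ε < s := by nlinarith
  have hηε : η * ε ≤ ε / 100 := by nlinarith
  have hηε0 : 0 < η * ε := mul_pos hη hε
  have key : ∀ p, |G (T p) - G p - ε * g2 G p| ≤ η * ε := fun p => by
    rw [hT]
    exact hinc ε hε e1 p _ ((d1 p).trans t3) ((d2 p).trans t3)
  have near : ∀ y, ‖T.symm y - y‖ ≤ δ := fun y => by
    obtain ⟨p, rfl⟩ := T.surjective y
    rw [T.symm_apply_apply, hT, sub_add_cancel_left, norm_neg, norm_smul,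
      Real.norm_of_nonneg hε.le]
    have a : |dd (1, 0) H p| ≤ L + 1 := by
      have := abs_sub_abs_le_abs_sub (dd (1, 0) H p) (dd (1, 0) G p)
      linarith [d1 p, l1 p]
    have b : |dd (0, 1) H p| ≤ L + 1 := by
      have := abs_sub_abs_le_abs_sub (dd (0, 1) H p) (dd (0, 1) G p)
      linarith [d2 p, l2 p]
    exact (mul_le_mul_of_nonneg_left (max_le a b) hε.le).trans e3.le
  have hK := hcomp T.symm cS near fun y v =>
    (bS y v).trans (mul_le_mul_of_nonneg_right (by linarith) (norm_nonneg v))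
  have him : T '' D = {y | G (T.symm y) < 0} := by
    rw [T.image_eq_preimage_symm, h.eq]
    rfl
  refine ⟨T '' D, fun y => G (T.symm y), H, T.isSimplyConnected_image.2 hs, hη, hη1, hε, h,
    h.cd.comp cS, him,
    (h.isBounded.isCompact_closure.image T.continuous).isBounded.subset
      (image_mono subset_closure), hH, fun y hy => ?_, ?_, fun p hp => ?_, fun p => ?_,
    fun p => ?_, fun p => (hv p).trans (mul_le_mul_of_nonneg_right t1 hε.le),
    fun p => (d1 p).trans t1, fun p => (d2 p).trans t1, fun p => ?_⟩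
  · obtain ⟨p, rfl⟩ := T.surjective y
    refine mem_image_of_mem _ ?_
    rw [h.eq]
    by_contra hp
    have hp : 0 ≤ G p := not_lt.1 hp
    have k := (abs_le.1 (key p)).1
    by_cases hps : G p ≤ s
    · have a := (abs_lt.1 (hsU p (abs_le.2 ⟨by linarith, hps⟩))).1
      have b : ε * (1 - η) ≤ ε * g2 G p := mul_le_mul_of_nonneg_left (by linarith) hε.le
      linarith
    · have b : 0 ≤ ε * g2 G p := mul_nonneg hε.le (g2_nonneg _ _)
      linarith
  · rintro _ ⟨p, hp, rfl⟩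
    rw [h.eq] at hp
    have hp : G p < 0 := hp
    have k := (abs_le.1 (key p)).2
    by_cases hps : -s ≤ G p
    · have a := (abs_lt.1 (hsU p (abs_le.2 ⟨hps, by linarith⟩))).2
      have b : ε * g2 G p ≤ ε * (1 + η) := mul_le_mul_of_nonneg_left (by linarith) hε.le
      linarith
    · have b : ε * g2 G p ≤ ε * (2 * L ^ 2) := mul_le_mul_of_nonneg_left (hg p) hε.le
      linarith
  · exact le_of_lt (hsU p (by linarith))
  · simpa only [collar_n1, mul_one] using hK p (1, 0)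
  · simpa only [collar_n2, mul_one] using hK p (0, 1)
  · have a1 := h2 p (1, 0) (1, 0)
    have a2 := h2 p (0, 1) (0, 1)
    rw [collar_n1] at a1
    rw [collar_n2] at a2
    have b : θ / ε ≤ t / 2 / ε := div_le_div_of_nonneg_right t2 hε.le
    have c : t / 2 / ε = t / ε / 2 := by ring
    unfold lap
    linarith [abs_add_le (dd (1, 0) (dd (1, 0) H) p) (dd (0, 1) (dd (0, 1) H) p)]

end Pool.Agent.Lib.MP_d36e13_an.ND
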