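import Pool.Agent.Lib.MP_d36e13_an.ND.Defs

/-!
Choice of constants.
-/

open MeasureTheory Set Filter Topology Metric
open scoped ENNReal ContDiff

namespace Pool.Agent.Lib.MP_d36e13_an.ND

theorem consts {q R₀ : ℝ} (hq : 1 < q) (hR₀ : 0 < R₀) :
    ∃ η : ℝ, 0 < η ∧ η ≤ 1 / 100 ∧ ∃ ε₁ : ℝ, 0 < ε₁ ∧ ∀ ε : ℝ, 0 < ε → ε < ε₁ →
      ∃ d : ℝ, 0 < d ∧ (1 + η) ^ 2 * (2 * R₀ * d + d ^ 2) ≤ 2 * R₀ * q * ((1 - 3 * η) * ε) ∧
        (Real.pi / (2 * d)) ^ 2 * (1 + d / R₀) < (Real.pi ^ 2 / 4 - 72 * η) / ε ^ 2 := by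
  set c : ℝ := (1 + q) / 2 with hc
  have hc1 : 1 < c := by rw [hc]; linarith
  have hc2 : c < q := by rw [hc]; linarith
  have hc0 : 0 < c := by linarith
  have hpi : 0 < Real.pi ^ 2 := by positivity
  have h1 : ∀ᶠ p : ℝ × ℝ in 𝓝 (0, 0),
      (1 + p.1) ^ 2 * (2 * R₀ * c + c ^ 2 * p.2) < 2 * R₀ * q * (1 - 3 * p.1) := by
    refine ContinuousAt.eventually_lt (by fun_prop) (by fun_prop) ?_
    simp only [add_zero, one_pow, mul_zero, one_mul, sub_zero, mul_one]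
    nlinarith
  have h2 : ∀ᶠ p : ℝ × ℝ in 𝓝 (0, 0),
      Real.pi ^ 2 / (4 * c ^ 2) * (1 + c * p.2 / R₀) < Real.pi ^ 2 / 4 - 72 * p.1 := by
    refine ContinuousAt.eventually_lt (by fun_prop) (by fun_prop) ?_
    simp only [mul_zero, zero_div, add_zero, mul_one, sub_zero]
    apply div_lt_div_of_pos_left hpi (by norm_num)
    nlinarith
  obtain ⟨δ, hδ, h⟩ := Metric.eventually_nhds_iff.1 (h1.and h2)
  refine ⟨min (δ / 2) (1 / 100), lt_min (by linarith) (by norm_num), min_le_right _ _, δ, hδ,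
    fun ε hε hεδ => ⟨c * ε, mul_pos hc0 hε, ?_⟩⟩
  set η : ℝ := min (δ / 2) (1 / 100) with hη
  have hη0 : 0 < η := lt_min (by linarith) (by norm_num)
  have hηδ : η < δ := (min_le_left _ _).trans_lt (by linarith)
  have hd : dist ((η, ε) : ℝ × ℝ) (0, 0) < δ := by
    rw [Prod.dist_eq, Real.dist_eq, Real.dist_eq, sub_zero, sub_zero, abs_of_pos hη0,
      abs_of_pos hε]
    exact max_lt hηδ hεδ
  obtain ⟨h3, h4⟩ := h hd
  simp only at h3 h4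
  constructor
  · have h5 := mul_le_mul_of_nonneg_right h3.le hε.le
    calc (1 + η) ^ 2 * (2 * R₀ * (c * ε) + (c * ε) ^ 2)
        = (1 + η) ^ 2 * (2 * R₀ * c + c ^ 2 * ε) * ε := by ring
      _ ≤ 2 * R₀ * q * (1 - 3 * η) * ε := h5
      _ = 2 * R₀ * q * ((1 - 3 * η) * ε) := by ring
  · have h5 : (Real.pi / (2 * (c * ε))) ^ 2 * (1 + c * ε / R₀) =
        Real.pi ^ 2 / (4 * c ^ 2) * (1 + c * ε / R₀) / ε ^ 2 := by
      field_simp
      ring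
    rw [h5]
    exact div_lt_div_of_pos_right h4 (by positivity)

end Pool.Agent.Lib.MP_d36e13_an.ND
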