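import Pool.Agent.Lib.MP_d36e13_an.ND.Defs

/-!
A global defining function for a domain with a boundary of class C1.
-/

open MeasureTheory Set Filter Topology Metric
open scoped ENNReal ContDiff Manifold

namespace Pool.Agent.Lib.MP_d36e13_an.ND

/-- local defining functions near every point of the plane -/
theorem defF_local {D : Set (ℝ × ℝ)} (hD : IsC1Domain D) (p : ℝ × ℝ) :
    ∃ (U : Set (ℝ × ℝ)) (f : ℝ × ℝ → ℝ), IsOpen U ∧ p ∈ U ∧ ContDiffOn ℝ 1 f U ∧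
      (∀ q ∈ U, q ∈ D → f q < 0) ∧ (∀ q ∈ U, q ∉ D → 0 ≤ f q) ∧
      (∀ q ∈ U, f q = 0 → fderiv ℝ f q ≠ 0) ∧
      (∀ q ∈ U, q ∉ cthickening 1 D → f q = 1) := by
  by_cases h1 : p ∈ D
  · refine ⟨D, fun _ => -1, hD.isOpen, h1, contDiffOn_const, fun _ _ _ => by norm_num,
      fun q hq hq' => (hq' hq).elim, fun q _ h => by norm_num at h, fun q hq hq' => ?_⟩
    exact (hq' (self_subset_cthickening D hq)).elim
  by_cases h2 : p ∈ closure D
  · have hp : p ∈ frontier D := by rw [hD.isOpen.frontier_eq]; exact ⟨h2, h1⟩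
    obtain ⟨U, f, hU, hpU, hf, -, hdf, hE⟩ := hD.boundary p hp
    have hc : ContinuousOn (fderiv ℝ f) U := hf.continuousOn_fderiv_of_isOpen hU le_rfl
    have ho : IsOpen (U ∩ fderiv ℝ f ⁻¹' {0}ᶜ) :=
      hc.isOpen_inter_preimage hU isOpen_compl_singleton
    refine ⟨(U ∩ fderiv ℝ f ⁻¹' {0}ᶜ) ∩ ball p 1, f, ho.inter isOpen_ball,
      ⟨⟨hpU, hdf⟩, mem_ball_self one_pos⟩, hf.mono fun q hq => hq.1.1, fun q hq hqD => ?_,
      fun q hq hqD => ?_, fun q hq _ => hq.1.2, fun q hq hq' => ?_⟩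
    · have : q ∈ D ∩ U := ⟨hqD, hq.1.1⟩
      rw [hE] at this
      exact this.2
    · refine not_lt.1 fun h => hqD ?_
      have : q ∈ D ∩ U := by rw [hE]; exact ⟨hq.1.1, h⟩
      exact this.1
    · refine (hq' ?_).elim
      rw [← cthickening_closure]
      exact mem_cthickening_of_dist_le q p 1 _ h2 (mem_ball.1 hq.2).le
  · refine ⟨(closure D)ᶜ, fun _ => 1, isClosed_closure.isOpen_compl, h2, contDiffOn_const,
      fun q hq hqD => (hq (subset_closure hqD)).elim, fun _ _ _ => zero_le_one,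
      fun q _ h => by norm_num at h, fun _ _ _ => rfl⟩

theorem defF_single_le {ι : Type} (ρ : SmoothPartitionOfUnity ι 𝓘(ℝ, ℝ × ℝ) (ℝ × ℝ) univ)
    (f : ι → ℝ × ℝ → ℝ) (x : ℝ × ℝ) (h : ∀ j, ρ j x ≠ 0 → 0 ≤ f j x) (i : ι) :
    ρ i x • f i x ≤ ∑ᶠ j, ρ j x • f j x := by
  refine single_le_finsum i (f := fun j => ρ j x • f j x) ?_ fun j => ?_
  · refine (ρ.locallyFinite.point_finite x).subset fun j hj => ?_
    exact fun h0 => hj (by simp [h0])
  · by_cases hj : ρ j x = 0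
    · simp [hj]
    · exact smul_nonneg (ρ.nonneg j x) (h j hj)

theorem defF_le_single {ι : Type} (ρ : SmoothPartitionOfUnity ι 𝓘(ℝ, ℝ × ℝ) (ℝ × ℝ) univ)
    (f : ι → ℝ × ℝ → ℝ) (x : ℝ × ℝ) (h : ∀ j, ρ j x ≠ 0 → f j x ≤ 0) (i : ι) :
    ∑ᶠ j, ρ j x • f j x ≤ ρ i x • f i x := by
  have := defF_single_le ρ (fun j y => -f j y) x (fun j hj => neg_nonneg.2 (h j hj)) i
  simp only [smul_neg, finsum_neg_distrib] at this
  exact neg_le_neg_iff.1 this

theorem defF_deriv_nonpos {G : ℝ × ℝ → ℝ} {L : ℝ × ℝ →L[ℝ] ℝ} {x v : ℝ × ℝ}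
    (hG : HasFDerivAt G L x) (h0 : G x = 0) (h : ∀ᶠ t in 𝓝[>] (0 : ℝ), G (x + t • v) ≤ 0) :
    L v ≤ 0 := by
  refine le_of_tendsto (hG.hasLineDerivAt v).tendsto_slope_zero_right ?_
  filter_upwards [h, self_mem_nhdsWithin] with t ht ht0
  rw [h0, sub_zero, smul_eq_mul]
  exact mul_nonpos_of_nonneg_of_nonpos (inv_nonneg.2 (le_of_lt ht0)) ht

theorem defF_eventually_neg {G : ℝ × ℝ → ℝ} {L : ℝ × ℝ →L[ℝ] ℝ} {x v : ℝ × ℝ}
    (hG : HasFDerivAt G L x) (h0 : G x = 0) (h : L v < 0) :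
    ∀ᶠ t in 𝓝[>] (0 : ℝ), G (x + t • v) < 0 := by
  have := (hG.hasLineDerivAt v).tendsto_slope_zero_right.eventually (gt_mem_nhds h)
  filter_upwards [this, self_mem_nhdsWithin] with t ht ht0
  rw [h0, sub_zero, smul_eq_mul] at ht
  exact neg_of_mul_neg_right ht (inv_nonneg.2 (le_of_lt ht0))

theorem defF_exists_neg {L : ℝ × ℝ →L[ℝ] ℝ} (hL : L ≠ 0) : ∃ v, L v < 0 := by
  obtain ⟨v, hv⟩ : ∃ v, L v ≠ 0 := by
    by_contra! h
    exact hL (ContinuousLinearMap.ext h)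
  rcases lt_or_gt_of_ne hv with h | h
  · exact ⟨v, h⟩
  · exact ⟨-v, by rw [map_neg]; linarith⟩

theorem exists_defF {D : Set (ℝ × ℝ)} (hD : IsC1Domain D) : ∃ F, DefF D F := by
  choose U f hU hpU hf hneg hpos hdf hfar using defF_local hD
  obtain ⟨ρ, hρ⟩ := SmoothPartitionOfUnity.exists_isSubordinate 𝓘(ℝ, ℝ × ℝ) isClosed_univ U hU
    fun x _ => mem_iUnion.2 ⟨x, hpU x⟩
  have hmem : ∀ i x, ρ i x ≠ 0 → x ∈ U i := fun i x h => hρ i (subset_tsupport _ h)
  have hcd : ContDiff ℝ 1 fun x => ∑ᶠ i, ρ i x • f i x := by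
    rw [contDiff_iff_contDiffAt]
    intro x
    exact ρ.contDiffAt_finsum (n := 1) fun i hi => (hf i).contDiffAt ((hU i).mem_nhds (hρ i hi))
  have hFneg : ∀ x ∈ D, ∑ᶠ i, ρ i x • f i x < 0 := fun x hx =>
    ρ.finsum_smul_mem_convex (g := f) (t := Iio (0 : ℝ)) (mem_univ x)
      (fun i hi => hneg i x (hmem i x hi) hx) (convex_Iio 0)
  have hFpos : ∀ x ∉ D, 0 ≤ ∑ᶠ i, ρ i x • f i x := fun x hx =>
    ρ.finsum_smul_mem_convex (g := f) (t := Ici (0 : ℝ)) (mem_univ x)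
      (fun i hi => hpos i x (hmem i x hi) hx) (convex_Ici 0)
  refine ⟨fun x => ∑ᶠ i, ρ i x • f i x, hcd, ?_, ?_, fun x hx => ?_⟩
  · ext x
    exact ⟨fun hx => hFneg x hx, fun hx => by_contra fun hx' => (hFpos x hx').not_gt hx⟩
  · refine HasCompactSupport.intro (K := cthickening 1 D)
      (isCompact_of_isClosed_isBounded isClosed_cthickening hD.bounded.cthickening) fun x hx => ?_
    have : ∑ᶠ i, ρ i x • f i x ∈ ({1} : Set ℝ) :=
      ρ.finsum_smul_mem_convex (mem_univ x) (fun i hi => hfar i x (hmem i x hi) hx)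
        (convex_singleton 1)
    exact sub_eq_zero.2 this
  · have hxD : x ∉ D := fun h => (hFneg x h).ne hx
    obtain ⟨i, hi⟩ := ρ.exists_pos_of_mem (mem_univ x)
    have hxU : x ∈ U i := hmem i x hi.ne'
    have hfi : f i x = 0 := by
      have h1 := defF_single_le ρ f x (fun j hj => hpos j x (hmem j x hj) hxD) i
      rw [show ∑ᶠ j, ρ j x • f j x = 0 from hx, smul_eq_mul] at h1
      exact le_antisymm (nonpos_of_mul_nonpos_right h1 hi) (hpos i x hxU hxD)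
    obtain ⟨v, hv⟩ := defF_exists_neg (hdf i x hxU hfi)
    have hd1 : HasFDerivAt (f i) (fderiv ℝ (f i) x) x :=
      (((hf i).contDiffAt ((hU i).mem_nhds hxU)).differentiableAt one_ne_zero).hasFDerivAt
    have hd2 : HasFDerivAt (ρ i) (fderiv ℝ (ρ i) x) x :=
      (((ρ i).contMDiff.contDiff.differentiable (by simp)) x).hasFDerivAt
    have hd3 := ((hcd.differentiable one_ne_zero) x).hasFDerivAt
    have hray : ∀ᶠ t in 𝓝[>] (0 : ℝ), x + t • v ∈ U i := by
      have hc : Continuous fun t : ℝ => x + t • v := by fun_prop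
      refine nhdsWithin_le_nhds (hc.continuousAt.eventually ((hU i).mem_nhds ?_))
      simpa using hxU
    have hle := defF_deriv_nonpos (v := v) (hd3.sub (hd2.mul hd1)) (by simpa [hfi] using hx) (by
      filter_upwards [hray, defF_eventually_neg hd1 hfi hv] with t ht ht'
      have hin : x + t • v ∈ D := by_contra fun h => (hpos i _ ht h).not_gt ht'
      exact sub_nonpos.2 (defF_le_single ρ f _ (fun j hj => (hneg j _ (hmem j _ hj) hin).le) i))
    have hlt : fderiv ℝ (fun x => ∑ᶠ i, ρ i x • f i x) x v < 0 := by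
      rw [sub_apply, add_apply, smul_apply, smul_apply, hfi, zero_smul, add_zero] at hle
      have : ρ i x • fderiv ℝ (f i) x v < 0 := mul_neg_of_pos_of_neg hi hv
      linarith
    refine lt_of_le_of_ne (g2_nonneg _ _) fun h0 => hlt.ne ?_
    unfold g2 dd at h0
    rw [clm_apply_eq]
    have ha : fderiv ℝ (fun x => ∑ᶠ i, ρ i x • f i x) x (1, 0) = 0 := by nlinarith
    have hb : fderiv ℝ (fun x => ∑ᶠ i, ρ i x • f i x) x (0, 1) = 0 := by nlinarith
    rw [ha, hb]; ring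

end Pool.Agent.Lib.MP_d36e13_an.ND
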