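import Pool.Agent.Lib.MP_d36e13_an.DC.Main

/-!
Thin collars around a domain that is not a disc: basic objects.
-/

open MeasureTheory Set Filter Topology Metric
open scoped ENNReal ContDiff

namespace Pool.Agent.Lib.MP_d36e13_an.ND

/-- squared Euclidean length of the gradient -/
noncomputable def g2 (f : ℝ × ℝ → ℝ) (p : ℝ × ℝ) : ℝ := dd (1, 0) f p ^ 2 + dd (0, 1) f p ^ 2

/-- a point of the plane as a complex number -/
noncomputable def cz (p : ℝ × ℝ) : ℂ := (p.1 : ℂ) + (p.2 : ℂ) * Complex.I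

/-- the gradient as a complex number -/
noncomputable def cg (u : ℝ × ℝ → ℝ) (p : ℝ × ℝ) : ℂ :=
  (dd (1, 0) u p : ℂ) + (dd (0, 1) u p : ℂ) * Complex.I

/-- the unimodular kernel of the isoperimetric identity -/
noncomputable def ker (z ζ : ℝ × ℝ) : ℂ := (starRingEnd ℂ) (cz z - cz ζ) / (cz z - cz ζ)

/-- polar coordinates with centre `z` -/
noncomputable def pt (z : ℝ × ℝ) (r θ : ℝ) : ℝ × ℝ := (z.1 + r * Real.cos θ, z.2 + r * Real.sin θ)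

/-- `F` is a global `C^1` defining function of `D`, equal to one far away -/
structure DefF (D : Set (ℝ × ℝ)) (F : ℝ × ℝ → ℝ) : Prop where
  cd : ContDiff ℝ 1 F
  eq : D = {p | F p < 0}
  cs : HasCompactSupport fun p => F p - 1
  nz : ∀ p, F p = 0 → 0 < g2 F p

/-- at the zeros of `G` the function `F` vanishes and the gradients point the same way -/
def SameDir (F G : ℝ × ℝ → ℝ) : Prop :=
  ∀ p, G p = 0 → F p = 0 ∧ ∃ t : ℝ, 0 < t ∧ dd (1, 0) G p = t * dd (1, 0) F p ∧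
    dd (0, 1) G p = t * dd (0, 1) F p

/-- a `C^1` function with compact support inside `Ω` -/
def Fld (Ω : Set (ℝ × ℝ)) (W : ℝ × ℝ → ℝ) : Prop :=
  ContDiff ℝ 1 W ∧ HasCompactSupport W ∧ tsupport W ⊆ Ω

/-- divergence minus squared length of a vector field -/
noncomputable def cal (W₁ W₂ : ℝ × ℝ → ℝ) (p : ℝ × ℝ) : ℝ :=
  dd (1, 0) W₁ p + dd (0, 1) W₂ p - W₁ p ^ 2 - W₂ p ^ 2

/-- the Laplacian -/
noncomputable def lap (H : ℝ × ℝ → ℝ) (p : ℝ × ℝ) : ℝ :=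
  dd (1, 0) (dd (1, 0) H) p + dd (0, 1) (dd (0, 1) H) p

/-- the magnetic energy as a real number -/
noncomputable def En (Ω : Set (ℝ × ℝ)) (A₁ A₂ : ℝ × ℝ → ℝ) (u g₁ g₂ : ℝ × ℝ → ℂ) : ℝ :=
  ∫ p in Ω, (‖-Complex.I * g₁ p - (A₁ p : ℂ) * u p‖ ^ 2 +
    ‖-Complex.I * g₂ p - (A₂ p : ℂ) * u p‖ ^ 2)

/-- the curl of `(A₁, A₂)` on `Ω` is `b` times the indicator of `D` -/
def Curl (Ω D : Set (ℝ × ℝ)) (b : ℝ) (A₁ A₂ : ℝ × ℝ → ℝ) : Prop :=
  ∀ φ, IsTest Ω φ →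
    ∫ p in Ω, (A₁ p * dd (0, 1) φ p - A₂ p * dd (1, 0) φ p) = b * ∫ p in D, φ p

/-- calibration data giving a lower bound for the eigenvalue at large field -/
def Cal (Ω D : Set (ℝ × ℝ)) (κ c : ℝ) : Prop :=
  ∃ (D' : Set (ℝ × ℝ)) (χ : ℝ × ℝ → ℝ) (M : ℝ), MeasurableSet D' ∧ IsTest D χ ∧
    (∀ p, |χ p| ≤ 1) ∧ (∀ p ∈ D', χ p = 1) ∧ (∀ p, g2 χ p ≤ c) ∧ 0 ≤ M ∧
    ∀ K' : Set (ℝ × ℝ), IsCompact K' → K' ⊆ Ω → ∃ W₁ W₂ : ℝ × ℝ → ℝ, Fld Ω W₁ ∧ Fld Ω W₂ ∧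
      (∀ p ∈ K', p ∉ D' → κ ≤ cal W₁ W₂ p) ∧ (∀ p ∈ Ω, p ∉ D' → 0 ≤ cal W₁ W₂ p) ∧
      (∀ p ∈ Ω, -M ≤ cal W₁ W₂ p)

/-- `Ω` is a collar of width about `ε` around `D` -/
structure Col (D Ω : Set (ℝ × ℝ)) (G K H : ℝ × ℝ → ℝ) (η ε t : ℝ) : Prop where
  eta_pos : 0 < η
  eta_le : η ≤ 1 / 100
  eps_pos : 0 < ε
  defG : DefF D G
  cK : ContDiff ℝ 1 K
  om : Ω = {p | K p < 0}
  bdd : Bornology.IsBounded Ω
  cH : ContDiff ℝ ∞ H
  inn : ∀ p, G p ≤ (1 - 3 * η) * ε → p ∈ Ω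
  out : ∀ p ∈ Ω, G p < (1 + 3 * η) * ε
  unit : ∀ p, |G p| ≤ 2 * ε → |g2 G p - 1| ≤ η
  dK₁ : ∀ p, |dd (1, 0) K p - dd (1, 0) G p| ≤ η
  dK₂ : ∀ p, |dd (0, 1) K p - dd (0, 1) G p| ≤ η
  val : ∀ p, |H p - G p| ≤ η * ε
  dH₁ : ∀ p, |dd (1, 0) H p - dd (1, 0) G p| ≤ η
  dH₂ : ∀ p, |dd (0, 1) H p - dd (0, 1) G p| ≤ η
  lapH : ∀ p, |lap H p| ≤ t / ε

theorem g2_nonneg (f : ℝ × ℝ → ℝ) (p : ℝ × ℝ) : 0 ≤ g2 f p := by unfold g2; positivity

theorem norm_cg_sq (u : ℝ × ℝ → ℝ) (p : ℝ × ℝ) : ‖cg u p‖ ^ 2 = g2 u p := by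
  unfold cg g2
  rw [Complex.sq_norm, Complex.normSq_add_mul_I]

theorem continuous_cz : Continuous cz := by unfold cz; fun_prop

theorem continuous_cg {u : ℝ × ℝ → ℝ} (hu : ContDiff ℝ 1 u) : Continuous (cg u) := by
  have h1 := continuous_dd (v := (1, 0)) hu
  have h2 := continuous_dd (v := (0, 1)) hu
  unfold cg
  fun_prop

theorem continuous_g2 {u : ℝ × ℝ → ℝ} (hu : ContDiff ℝ 1 u) : Continuous (g2 u) := by
  have h1 := continuous_dd (v := (1, 0)) hu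
  have h2 := continuous_dd (v := (0, 1)) hu
  unfold g2
  fun_prop

theorem hasCompactSupport_cg {u : ℝ × ℝ → ℝ} (hu : HasCompactSupport u) :
    HasCompactSupport (cg u) := by
  refine HasCompactSupport.intro hu fun p hp => ?_
  simp [cg, dd_eq_zero_of_notMem hp]

theorem cz_re (p : ℝ × ℝ) : (cz p).re = p.1 := by simp [cz]

theorem cz_im (p : ℝ × ℝ) : (cz p).im = p.2 := by simp [cz]

theorem cz_injective : Function.Injective cz := fun p q h =>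
  Prod.ext (by rw [← cz_re p, h, cz_re]) (by rw [← cz_im p, h, cz_im])

theorem cz_sub (p q : ℝ × ℝ) : cz (p - q) = cz p - cz q := by
  simp only [cz, Prod.fst_sub, Prod.snd_sub]; push_cast; ring

theorem norm_ker_le (z ζ : ℝ × ℝ) : ‖ker z ζ‖ ≤ 1 := by
  unfold ker
  rw [norm_div, Complex.norm_conj]
  exact div_self_le_one _

theorem measurable_ker : Measurable fun q : (ℝ × ℝ) × (ℝ × ℝ) => ker q.1 q.2 := by
  have h : Continuous fun q : (ℝ × ℝ) × (ℝ × ℝ) => cz q.1 - cz q.2 :=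
    (continuous_cz.comp continuous_fst).sub (continuous_cz.comp continuous_snd)
  exact (Complex.continuous_conj.comp h).measurable.div h.measurable

theorem cz_pt (z : ℝ × ℝ) (r θ : ℝ) :
    cz (pt z r θ) - cz z = (r : ℂ) * Complex.exp ((θ : ℂ) * Complex.I) := by
  rw [Complex.exp_mul_I]
  simp only [cz, pt]
  push_cast
  ring

theorem DefF.isOpen {D : Set (ℝ × ℝ)} {F : ℝ × ℝ → ℝ} (h : DefF D F) : IsOpen D := by
  rw [h.eq]; exact isOpen_lt h.cd.continuous continuous_const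

theorem DefF.isBounded_ne {D : Set (ℝ × ℝ)} {F : ℝ × ℝ → ℝ} (h : DefF D F) :
    Bornology.IsBounded {p | F p ≠ 1} :=
  h.cs.isCompact.isBounded.subset fun _ hp => subset_tsupport _ (sub_ne_zero.2 hp)

theorem DefF.isBounded {D : Set (ℝ × ℝ)} {F : ℝ × ℝ → ℝ} (h : DefF D F) :
    Bornology.IsBounded D := by
  refine h.isBounded_ne.subset fun p hp => ?_
  rw [h.eq] at hp
  exact (lt_trans hp one_pos).ne

theorem DefF.isCompact_le {D : Set (ℝ × ℝ)} {F : ℝ × ℝ → ℝ} (h : DefF D F) {s : ℝ} (hs : s < 1) :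
    IsCompact {p | F p ≤ s} :=
  isCompact_of_isClosed_isBounded (isClosed_le h.cd.continuous continuous_const)
    (h.isBounded_ne.subset fun _ hp => (lt_of_le_of_lt hp hs).ne)

theorem DefF.closure_subset {D : Set (ℝ × ℝ)} {F : ℝ × ℝ → ℝ} (h : DefF D F) :
    closure D ⊆ {p | F p ≤ 0} := by
  refine closure_minimal (fun p hp => ?_) (isClosed_le h.cd.continuous continuous_const)
  rw [h.eq] at hp
  exact le_of_lt (show F p < 0 from hp)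

theorem DefF.zero_of_frontier {D : Set (ℝ × ℝ)} {F : ℝ × ℝ → ℝ} (h : DefF D F) {p : ℝ × ℝ}
    (hp : p ∈ frontier D) : F p = 0 := by
  rw [h.isOpen.frontier_eq] at hp
  refine le_antisymm (h.closure_subset hp.1) (not_lt.1 fun hh => hp.2 ?_)
  rw [h.eq]; exact hh

end Pool.Agent.Lib.MP_d36e13_an.ND
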