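import Pool.Agent.Lib.MP_d36e13_an.ND.CalC

/-!
The calibration of a collar.
-/

open MeasureTheory Set Filter Topology Metric
open scoped ENNReal ContDiff

namespace Pool.Agent.Lib.MP_d36e13_an.ND

/-- the cutoff near the outer boundary -/
theorem exists_zeta {Ω K' : Set (ℝ × ℝ)} {K : ℝ × ℝ → ℝ} (hK : ContDiff ℝ 1 K)
    (hΩ : Ω = {p | K p < 0}) (hb : Bornology.IsBounded Ω) (hK' : IsCompact K') (hs : K' ⊆ Ω) :
    ∃ ζ : ℝ × ℝ → ℝ, Fld Ω ζ ∧ (∀ p, 0 ≤ ζ p ∧ ζ p ≤ 1) ∧ (∀ p ∈ K', ζ p = 1) ∧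
      ∀ p, ∃ a : ℝ, 0 ≤ a ∧ dd (1, 0) ζ p = -(a * dd (1, 0) K p) ∧
        dd (0, 1) ζ p = -(a * dd (0, 1) K p) := by
  obtain ⟨σ, hσ, hσK⟩ : ∃ σ : ℝ, 0 < σ ∧ ∀ p ∈ K', 2 * σ ≤ -K p := by
    rcases K'.eq_empty_or_nonempty with h | h
    · exact ⟨1, one_pos, by simp [h]⟩
    · obtain ⟨p₀, hp₀, hmax⟩ := hK'.exists_isMaxOn h hK.continuous.continuousOn
      have h0 : K p₀ < 0 := by
        have := hs hp₀
        rw [hΩ] at this
        exact this
      refine ⟨-K p₀ / 2, by linarith, fun p hp => ?_⟩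
      have : K p ≤ K p₀ := hmax hp
      linarith
  have hS : ContDiff ℝ 1 Real.smoothTransition := Real.smoothTransition.contDiff (n := 1)
  have hlin : ContDiff ℝ 1 fun s : ℝ => -s / σ - 1 := by fun_prop
  have hts : tsupport (fun p => Real.smoothTransition (-K p / σ - 1)) ⊆ {p | K p ≤ -σ} := by
    refine closure_minimal (fun p hp => ?_) (isClosed_le hK.continuous continuous_const)
    have h1 : ¬ (-K p / σ - 1 ≤ 0) := fun h => hp (Real.smoothTransition.zero_of_nonpos h)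
    have h2 : 1 < -K p / σ := by linarith [not_le.1 h1]
    rw [lt_div_iff₀ hσ] at h2
    show K p ≤ -σ
    linarith
  have hsub : tsupport (fun p => Real.smoothTransition (-K p / σ - 1)) ⊆ Ω := by
    intro p hp
    have h1 : K p ≤ -σ := hts hp
    rw [hΩ]
    show K p < 0
    linarith
  refine ⟨fun p => Real.smoothTransition (-K p / σ - 1), ⟨hS.comp (hlin.comp hK), ?_, hsub⟩,
    fun p => ⟨Real.smoothTransition.nonneg _, Real.smoothTransition.le_one _⟩, fun p hp => ?_,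
    fun p => ?_⟩
  · exact isCompact_of_isClosed_isBounded (isClosed_tsupport _) (hb.subset hsub)
  · refine Real.smoothTransition.one_of_one_le ?_
    have h1 : 2 ≤ -K p / σ := by rw [le_div_iff₀ hσ]; exact hσK p hp
    linarith
  · have hd : HasDerivAt (fun s : ℝ => -s / σ - 1) (-1 / σ) (K p) :=
      (((hasDerivAt_id (K p)).neg).div_const σ).sub_const 1
    have hSd : HasDerivAt Real.smoothTransition
        (deriv Real.smoothTransition (-K p / σ - 1)) (-K p / σ - 1) :=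
      (hS.differentiable one_ne_zero _).hasDerivAt
    have hc : HasDerivAt (fun s : ℝ => Real.smoothTransition (-s / σ - 1))
        (deriv Real.smoothTransition (-K p / σ - 1) * (-1 / σ)) (K p) :=
      HasDerivAt.comp (h₂ := Real.smoothTransition) (K p) hSd hd
    have hKd : DifferentiableAt ℝ K p := hK.differentiable one_ne_zero p
    have hnn : 0 ≤ deriv Real.smoothTransition (-K p / σ - 1) :=
      Real.smoothTransition.monotone.deriv_nonneg
    refine ⟨deriv Real.smoothTransition (-K p / σ - 1) / σ, div_nonneg hnn hσ.le, ?_, ?_⟩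
    · rw [dd_comp (h := fun s : ℝ => Real.smoothTransition (-s / σ - 1)) hc hKd]
      ring
    · rw [dd_comp (h := fun s : ℝ => Real.smoothTransition (-s / σ - 1)) hc hKd]
      ring

lemma fld_mul {Ω : Set (ℝ × ℝ)} {ζ W : ℝ × ℝ → ℝ} (hζ : Fld Ω ζ) (hW : ContDiff ℝ 1 W) :
    Fld Ω fun q => ζ q * W q :=
  ⟨hζ.1.mul hW, hζ.2.1.mul_right, (tsupport_mul_subset_left (f := ζ) (g := W)).trans hζ.2.2⟩

lemma fld_const {η : ℝ} (hη : 0 < η) (hη1 : η ≤ 1 / 100) :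
    Real.pi ^ 2 / 4 - 70 * η ≤ (Real.pi / (2 * (1 + 10 * η))) ^ 2 * (1 - 4 * η) - η ∧
      0 ≤ Real.pi ^ 2 / 4 - 70 * η := by
  have h3 := Real.pi_gt_three
  have h4 := Real.pi_lt_d2
  have p9 : 9 ≤ Real.pi ^ 2 := by nlinarith
  have p10 : Real.pi ^ 2 ≤ 10 := by nlinarith
  refine ⟨?_, by linarith⟩
  have hk : Real.pi ^ 2 / 4 * (1 - 20 * η) ≤ (Real.pi / (2 * (1 + 10 * η))) ^ 2 := by
    rw [div_pow, le_div_iff₀ (by positivity)]
    have e : (1 - 20 * η) * (1 + 10 * η) ^ 2 ≤ 1 := by nlinarith [mul_pos hη hη, mul_pos (mul_pos hη hη) hη]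
    calc Real.pi ^ 2 / 4 * (1 - 20 * η) * (2 * (1 + 10 * η)) ^ 2
        = Real.pi ^ 2 * ((1 - 20 * η) * (1 + 10 * η) ^ 2) := by ring
      _ ≤ Real.pi ^ 2 * 1 := mul_le_mul_of_nonneg_left e (by positivity)
      _ = Real.pi ^ 2 := mul_one _
  have h5 := mul_le_mul_of_nonneg_right hk (by linarith : (0 : ℝ) ≤ 1 - 4 * η)
  have h6 : Real.pi ^ 2 * η ≤ 10 * η := mul_le_mul_of_nonneg_right p10 hη.le
  have h7 : 0 ≤ Real.pi ^ 2 * (η * η) := by positivity
  nlinarith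

lemma fld_contDiff {w : ℝ → ℝ} (hw : ContDiff ℝ 1 w) {H : ℝ × ℝ → ℝ} (hH : ContDiff ℝ ∞ H)
    (a ε : ℝ) (v : ℝ × ℝ) : ContDiff ℝ 1 fun q => -(w ((a - H q) / ε) / ε) * dd v H q := by
  have h1 : ContDiff ℝ 1 H := hH.of_le (by simp)
  have h2 : ContDiff ℝ 1 (dd v H) := (contDiff_dd_top hH).of_le (by simp)
  have h3 : ContDiff ℝ 1 fun q => w ((a - H q) / ε) :=
    hw.comp ((contDiff_const.sub h1).div_const ε)
  exact (h3.div_const ε).neg.mul h2

lemma fld_cont {W₁ W₂ : ℝ × ℝ → ℝ} (h₁ : ContDiff ℝ 1 W₁) (h₂ : ContDiff ℝ 1 W₂) :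
    Continuous (cal W₁ W₂) := by
  have a1 := continuous_dd (v := (1, 0)) h₁
  have a2 := continuous_dd (v := (0, 1)) h₂
  have a3 := h₁.continuous
  have a4 := h₂.continuous
  unfold cal
  fun_prop

theorem cal_of_col {η : ℝ} (hη : 0 < η) (hη1 : η ≤ 1 / 100) :
    ∃ t : ℝ, 0 < t ∧ ∃ C : ℝ, 0 < C ∧
      ∀ (D Ω : Set (ℝ × ℝ)) (G K H : ℝ × ℝ → ℝ) (ε : ℝ), Col D Ω G K H η ε t → ε < 1 →
        Cal Ω D ((Real.pi ^ 2 / 4 - 70 * η) / ε ^ 2) (C / ε ^ 2) := by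
  obtain ⟨w, T, hw, hT, hw0, hwT, hwz, hwk⟩ := exists_prof hη hη1
  obtain ⟨C, hC, hχ⟩ := exists_chi_col hη
  refine ⟨η / T, div_pos hη hT, C, hC, fun D Ω G K H ε c hε1 => ?_⟩
  obtain ⟨χ, χ1, χ2, χ3, χ4⟩ := hχ D Ω G K H ε _ c hε1
  have hε := c.eps_pos
  have hηε : 0 < η * ε := mul_pos hη hε
  have hηε1 : η * ε ≤ 1 / 100 * ε := mul_le_mul_of_nonneg_right hη1 hε.le
  obtain ⟨κ1, κ0⟩ := fld_const hη hη1
  have c1 := fld_contDiff hw c.cH ((1 + 5 * η) * ε) ε (1, 0)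
  have c2 := fld_contDiff hw c.cH ((1 + 5 * η) * ε) ε (0, 1)
  obtain ⟨M, hM⟩ := c.bdd.isCompact_closure.exists_bound_of_continuousOn
    (fld_cont c1 c2).continuousOn
  have hσ0 : ∀ p ∈ Ω, 0 ≤ ((1 + 5 * η) * ε - H p) / ε := by
    intro p hp
    have a1 := c.out p hp
    have a2 := (abs_le.1 (c.val p)).2
    exact div_nonneg (by nlinarith) hε.le
  have hG : ∀ p ∈ Ω, ((1 + 5 * η) * ε - H p) / ε < 1 + 9 * η → |G p| ≤ 2 * ε := by
    intro p hp h
    have a1 := c.out p hp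
    have a2 := (abs_le.1 (c.val p)).2
    rw [div_lt_iff₀ hε] at h
    exact abs_le.2 ⟨by nlinarith, by nlinarith⟩
  have hlow : ∀ p ∈ Ω, ¬ H p ≤ -(2 * η * ε) → (Real.pi ^ 2 / 4 - 70 * η) / ε ^ 2 ≤
      cal (fun q => -(w (((1 + 5 * η) * ε - H q) / ε) / ε) * dd (1, 0) H q)
        (fun q => -(w (((1 + 5 * η) * ε - H q) / ε) / ε) * dd (0, 1) H q) p := by
    intro p hp h
    have s7 : ((1 + 5 * η) * ε - H p) / ε ≤ 1 + 7 * η := by
      rw [div_le_iff₀ hε]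
      have := not_le.1 h
      nlinarith
    have g1 := (c.g2H (hG p hp (by linarith))).1
    rw [cal_comp hw c.cH _ hε, hwk _ (hσ0 p hp) s7]
    have b1 : w (((1 + 5 * η) * ε - H p) / ε) / ε * lap H p ≤ η / ε ^ 2 := by
      refine (le_abs_self _).trans ?_
      rw [abs_mul, abs_div, abs_of_pos hε]
      calc |w (((1 + 5 * η) * ε - H p) / ε)| / ε * |lap H p| ≤ T / ε * (η / T / ε) :=
            mul_le_mul (div_le_div_of_nonneg_right (hwT _) hε.le) (c.lapH p) (abs_nonneg _)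
              (by positivity)
        _ = η / ε ^ 2 := by field_simp
    have b2 := mul_le_mul_of_nonneg_left g1 (sq_nonneg (Real.pi / (2 * (1 + 10 * η))))
    have b3 : (Real.pi ^ 2 / 4 - 70 * η + η) / ε ^ 2 ≤
        (Real.pi / (2 * (1 + 10 * η))) ^ 2 * g2 H p / ε ^ 2 :=
      div_le_div_of_nonneg_right (by linarith) (by positivity)
    rw [add_div] at b3
    linarith
  refine ⟨{p | H p ≤ -(2 * η * ε)}, χ, max M 0,
    (isClosed_le c.cH.continuous continuous_const).measurableSet, χ1, χ2, χ3, χ4,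
    le_max_right _ _, fun K' hK' hs => ?_⟩
  obtain ⟨ζ, ζ1, ζ2, ζ3, ζ4⟩ := exists_zeta c.cK c.om c.bdd hK' hs
  have cut : ∀ p ∈ Ω, ζ p * cal
      (fun q => -(w (((1 + 5 * η) * ε - H q) / ε) / ε) * dd (1, 0) H q)
      (fun q => -(w (((1 + 5 * η) * ε - H q) / ε) / ε) * dd (0, 1) H q) p ≤
      cal (fun q => ζ q * (-(w (((1 + 5 * η) * ε - H q) / ε) / ε) * dd (1, 0) H q))
        (fun q => ζ q * (-(w (((1 + 5 * η) * ε - H q) / ε) / ε) * dd (0, 1) H q)) p := by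
    intro p hp
    refine le_trans ?_ (cal_cut ζ1.1 c1 c2 (ζ2 p).1 (ζ2 p).2)
    refine le_add_of_nonneg_right ?_
    obtain ⟨α, α0, e1, e2⟩ := ζ4 p
    rw [e1, e2]
    by_cases h9 : 1 + 9 * η ≤ ((1 + 5 * η) * ε - H p) / ε
    · rw [hwz _ h9]; simp
    · have g3 := (c.g2H (hG p hp (not_le.1 h9))).2.2
      have := mul_nonneg (mul_nonneg α0 (div_nonneg (hw0 _ (hσ0 p hp)) hε.le)) g3
      refine this.trans (le_of_eq ?_)
      ring
  refine ⟨_, _, fld_mul ζ1 c1, fld_mul ζ1 c2, fun p hp h => ?_, fun p hp h => ?_, fun p hp => ?_⟩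
  · have := cut p (hs hp)
    rw [ζ3 p hp, one_mul] at this
    exact (hlow p (hs hp) h).trans this
  · exact (mul_nonneg (ζ2 p).1
      ((div_nonneg κ0 (sq_nonneg ε)).trans (hlow p hp h))).trans (cut p hp)
  · refine le_trans ?_ (cut p hp)
    have b := (abs_le.1 ((Real.norm_eq_abs _ ▸ hM p (subset_closure hp)).trans
      (le_max_left M 0))).1
    have b0 : 0 ≤ max M 0 := le_max_right _ _
    have b1 := mul_le_mul_of_nonneg_left b (ζ2 p).1
    have b2 := mul_le_mul_of_nonneg_right (ζ2 p).2 b0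
    linarith

end Pool.Agent.Lib.MP_d36e13_an.ND
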