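import Pool.Agent.Lib.MP_d36e13_an.ND.Basic

/-!
The strict inequality persists near the two boundary points.
-/

open MeasureTheory Set Filter Topology Metric
open scoped ENNReal ContDiff

namespace Pool.Agent.Lib.MP_d36e13_an.ND

theorem loc_unit {a f : ℂ} {γ : ℝ}
    (h : ‖(‖f‖ : ℂ) * a - (‖a‖ : ℂ) * f‖ < γ * ‖f‖ * ‖a‖) :
    a ≠ 0 ∧ ‖a / (‖a‖ : ℂ) - f / (‖f‖ : ℂ)‖ ≤ γ := by
  have ha : a ≠ 0 := by
    rintro rfl
    simp at h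
  have hf : f ≠ 0 := by
    rintro rfl
    simp at h
  have ha' : 0 < ‖a‖ := norm_pos_iff.2 ha
  have hf' : 0 < ‖f‖ := norm_pos_iff.2 hf
  have ha2 : (‖a‖ : ℂ) ≠ 0 := by exact_mod_cast ha'.ne'
  have hf2 : (‖f‖ : ℂ) ≠ 0 := by exact_mod_cast hf'.ne'
  refine ⟨ha, ?_⟩
  have e : a / (‖a‖ : ℂ) - f / (‖f‖ : ℂ) =
      ((‖f‖ : ℂ) * a - (‖a‖ : ℂ) * f) / ((‖f‖ : ℂ) * (‖a‖ : ℂ)) := by
    field_simp
  rw [e, norm_div, norm_mul, Complex.norm_real, Complex.norm_real, norm_norm, norm_norm,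
    div_le_iff₀ (mul_pos hf' ha')]
  linarith

theorem loc_norm_le (a : ℂ) : ‖a / (‖a‖ : ℂ)‖ ≤ 1 := by
  rw [norm_div, Complex.norm_real, norm_norm]
  exact div_self_le_one _

theorem loc_alg {a b f g k : ℂ} {γ : ℝ} (ha : ‖a‖ ≤ 1) (hg : ‖g‖ ≤ 1) (hk : ‖k‖ ≤ 1)
    (h1 : ‖a - f‖ ≤ γ) (h2 : ‖b - g‖ ≤ γ) :
    (-(a * b * k)).re ≤ (-(f * g * k)).re + 2 * γ := by
  have hγ : 0 ≤ γ := (norm_nonneg _).trans h1
  have e : -(a * b * k) = -(f * g * k) + -((a * (b - g) + (a - f) * g) * k) := by ring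
  have h3 : ‖a * (b - g)‖ ≤ γ := by
    rw [norm_mul]
    calc ‖a‖ * ‖b - g‖ ≤ 1 * γ := mul_le_mul ha h2 (norm_nonneg _) zero_le_one
      _ = γ := one_mul _
  have h4 : ‖(a - f) * g‖ ≤ γ := by
    rw [norm_mul]
    calc ‖a - f‖ * ‖g‖ ≤ γ * 1 := mul_le_mul h1 hg (norm_nonneg _) hγ
      _ = γ := mul_one _
  have h5 : ‖-((a * (b - g) + (a - f) * g) * k)‖ ≤ 2 * γ := by
    rw [norm_neg, norm_mul]
    calc ‖a * (b - g) + (a - f) * g‖ * ‖k‖ ≤ (2 * γ) * 1 :=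
          mul_le_mul ((norm_add_le _ _).trans (by linarith)) hk (norm_nonneg _) (by linarith)
      _ = 2 * γ := mul_one _
  rw [e, Complex.add_re]
  have := Complex.re_le_norm (-((a * (b - g) + (a - f) * g) * k))
  linarith

theorem loc_scale {a b k : ℂ} (ha : a ≠ 0) (hb : b ≠ 0) :
    (-(a * b * k)).re = (-(a / (‖a‖ : ℂ) * (b / (‖b‖ : ℂ)) * k)).re * (‖a‖ * ‖b‖) := by
  have ha2 : (‖a‖ : ℂ) ≠ 0 := by exact_mod_cast (norm_pos_iff.2 ha).ne'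
  have hb2 : (‖b‖ : ℂ) ≠ 0 := by exact_mod_cast (norm_pos_iff.2 hb).ne'
  have e : -(a * b * k) =
      -(a / (‖a‖ : ℂ) * (b / (‖b‖ : ℂ)) * k) * ((‖a‖ * ‖b‖ : ℝ) : ℂ) := by
    push_cast
    field_simp
  rw [e, Complex.re_mul_ofReal]

theorem loc_ne {D : Set (ℝ × ℝ)} {F : ℝ × ℝ → ℝ} (h : DefF D F) {z : ℝ × ℝ} (hz : F z = 0) :
    cg F z ≠ 0 := by
  intro e
  have := h.nz z hz
  rw [← norm_cg_sq, e] at this
  simp at this

theorem loc_cont {D : Set (ℝ × ℝ)} {F : ℝ × ℝ → ℝ} (h : DefF D F) {z : ℝ × ℝ} (hz : F z = 0) :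
    ContinuousAt (fun p => cg F p / (‖cg F p‖ : ℂ)) z := by
  have hc := continuous_cg h.cd
  refine hc.continuousAt.div (Complex.continuous_ofReal.comp hc.norm).continuousAt ?_
  exact_mod_cast (norm_pos_iff.2 (loc_ne h hz)).ne'

theorem gap_local {D : Set (ℝ × ℝ)} {F : ℝ × ℝ → ℝ} (h : DefF D F) {z₁ z₂ : ℝ × ℝ}
    (h₁ : F z₁ = 0) (h₂ : F z₂ = 0) (hne : z₁ ≠ z₂)
    (hlt : (-(cg F z₁ * cg F z₂ * ker z₁ z₂)).re < ‖cg F z₁‖ * ‖cg F z₂‖) :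
    ∃ r γ : ℝ, 0 < r ∧ 0 < γ ∧ ∀ G, DefF D G → SameDir F G → ∃ s : ℝ, 0 < s ∧
      ∀ z ∈ closedBall z₁ r, ∀ ζ ∈ closedBall z₂ r, |G z| ≤ s → |G ζ| ≤ s →
        (-(cg G z * cg G ζ * ker z ζ)).re ≤ (1 - γ) * (‖cg G z‖ * ‖cg G ζ‖) := by
  have n₁ := loc_ne h h₁
  have n₂ := loc_ne h h₂
  have hp : 0 < ‖cg F z₁‖ * ‖cg F z₂‖ := mul_pos (norm_pos_iff.2 n₁) (norm_pos_iff.2 n₂)
  set Φ : (ℝ × ℝ) × (ℝ × ℝ) → ℝ := fun q =>
    (-(cg F q.1 / (‖cg F q.1‖ : ℂ) * (cg F q.2 / (‖cg F q.2‖ : ℂ)) * ker q.1 q.2)).re with hΦ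
  have h0 : Φ (z₁, z₂) < 1 := by
    rw [loc_scale n₁ n₂] at hlt
    by_contra hc
    have := mul_le_mul_of_nonneg_right (not_lt.1 hc) hp.le
    simp only [hΦ] at this
    linarith
  have hk : ContinuousAt (fun q : (ℝ × ℝ) × (ℝ × ℝ) => ker q.1 q.2) (z₁, z₂) := by
    have hd : Continuous fun q : (ℝ × ℝ) × (ℝ × ℝ) => cz q.1 - cz q.2 :=
      (continuous_cz.comp continuous_fst).sub (continuous_cz.comp continuous_snd)
    exact (Complex.continuous_conj.comp hd).continuousAt.div hd.continuousAt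
      (sub_ne_zero.2 fun e => hne (cz_injective e))
  have hc : ContinuousAt Φ (z₁, z₂) := by
    have a1 : ContinuousAt (fun q : (ℝ × ℝ) × (ℝ × ℝ) => cg F q.1 / (‖cg F q.1‖ : ℂ)) (z₁, z₂) :=
      ContinuousAt.comp (f := Prod.fst) (loc_cont h h₁) continuousAt_fst
    have a2 : ContinuousAt (fun q : (ℝ × ℝ) × (ℝ × ℝ) => cg F q.2 / (‖cg F q.2‖ : ℂ)) (z₁, z₂) :=
      ContinuousAt.comp (f := Prod.snd) (loc_cont h h₂) continuousAt_snd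
    exact Complex.continuous_re.continuousAt.comp ((a1.mul a2).mul hk).neg
  set γ : ℝ := (1 - Φ (z₁, z₂)) / 4 with hγ
  have hγ0 : 0 < γ := by rw [hγ]; linarith
  have hev : ∀ᶠ q in 𝓝 (z₁, z₂), Φ q < 1 - 3 * γ :=
    hc.eventually (gt_mem_nhds (by rw [hγ]; linarith))
  obtain ⟨r, hr, hball⟩ := Metric.nhds_basis_closedBall.eventually_iff.1 hev
  refine ⟨r, γ, hr, hγ0, fun G hG hS => ?_⟩
  have cF := continuous_cg h.cd
  have cG := continuous_cg hG.cd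
  have hU : IsOpen {p | ‖(‖cg F p‖ : ℂ) * cg G p - (‖cg G p‖ : ℂ) * cg F p‖ <
      γ * ‖cg F p‖ * ‖cg G p‖} := isOpen_lt (by fun_prop) (by fun_prop)
  obtain ⟨s, hs, hsU⟩ := shrink hG hU (fun p hp => by
    obtain ⟨hF, t, ht, e1, e2⟩ := hS p hp
    have e : cg G p = (t : ℂ) * cg F p := by
      simp only [cg, e1, e2]
      push_cast
      ring
    have hn : ‖cg G p‖ = t * ‖cg F p‖ := by
      rw [e, norm_mul, Complex.norm_real, Real.norm_eq_abs, abs_of_pos ht]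
    have hf : 0 < ‖cg F p‖ := norm_pos_iff.2 (loc_ne h hF)
    have e3 : (‖cg F p‖ : ℂ) * cg G p - (‖cg G p‖ : ℂ) * cg F p = 0 := by
      rw [hn, e]
      push_cast
      ring
    change ‖(‖cg F p‖ : ℂ) * cg G p - (‖cg G p‖ : ℂ) * cg F p‖ < γ * ‖cg F p‖ * ‖cg G p‖
    rw [e3, norm_zero, hn]
    positivity)
  refine ⟨s, hs, fun z hz ζ hζ h3 h4 => ?_⟩
  obtain ⟨a1, a2⟩ := loc_unit (hsU z h3)
  obtain ⟨b1, b2⟩ := loc_unit (hsU ζ h4)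
  have h5 : Φ (z, ζ) < 1 - 3 * γ := hball (by
    rw [← closedBall_prod_same]
    exact ⟨hz, hζ⟩)
  have h6 := loc_alg (loc_norm_le (cg G z)) (loc_norm_le (cg F ζ)) (norm_ker_le z ζ) a2 b2
  rw [loc_scale a1 b1]
  refine mul_le_mul_of_nonneg_right ?_ (by positivity)
  simp only [hΦ] at h5
  linarith

end Pool.Agent.Lib.MP_d36e13_an.ND
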