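import Pool.Agent.Lib.MP_d36e13_an.ND.Defs

/-!
The gradient of a step function has mass near every boundary point.
-/

open MeasureTheory Set Filter Topology Metric
open scoped ENNReal ContDiff

namespace Pool.Agent.Lib.MP_d36e13_an.ND

theorem exists_seg {F : ℝ × ℝ → ℝ} (hF : ContDiff ℝ 1 F) {z : ℝ × ℝ} (hz : F z = 0)
    (hg : 0 < g2 F z) {r : ℝ} (hr : 0 < r) :
    ∃ (v : ℝ × ℝ) (ρ t : ℝ), ‖v‖ ≤ 1 ∧ 0 < ρ ∧ 0 < t ∧ ρ + t ≤ r ∧
      ∀ x ∈ closedBall z ρ, F (x - t • v) < 0 ∧ 0 < F (x + t • v) := by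
  obtain ⟨v, hv, hd⟩ : ∃ v : ℝ × ℝ, ‖v‖ ≤ 1 ∧ 0 < fderiv ℝ F z v := by
    have key : ∀ v : ℝ × ℝ, ‖v‖ ≤ 1 → fderiv ℝ F z v ≠ 0 →
        ∃ v : ℝ × ℝ, ‖v‖ ≤ 1 ∧ 0 < fderiv ℝ F z v := fun v h1 h2 => by
      rcases lt_or_gt_of_ne h2 with h | h
      · exact ⟨-v, by rwa [norm_neg], by rw [map_neg]; linarith⟩
      · exact ⟨v, h1, h⟩
    by_cases h1 : fderiv ℝ F z (1, 0) = 0
    · refine key (0, 1) (by simp [Prod.norm_def]) fun h2 => ?_
      simp [g2, dd, h1, h2] at hg
    · exact key (1, 0) (by simp [Prod.norm_def]) h1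
  have hφ : HasDerivAt (fun s : ℝ => F (z + s • v)) (fderiv ℝ F z v) 0 := by
    have h1 : HasDerivAt (fun s : ℝ => z + s • v) v 0 := by
      simpa using ((hasDerivAt_id (0 : ℝ)).smul_const v).const_add z
    have h2 : HasFDerivAt F (fderiv ℝ F z) (z + (0 : ℝ) • v) := by
      simpa using (hF.differentiable one_ne_zero z).hasFDerivAt
    exact h2.comp_hasDerivAt (0 : ℝ) h1
  have h1 := (hasDerivAt_iff_tendsto_slope_zero.1 hφ).eventually (lt_mem_nhds hd)
  rw [eventually_nhdsWithin_iff, Metric.eventually_nhds_iff] at h1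
  obtain ⟨δ, hδ, h1⟩ := h1
  obtain ⟨t, t0, tδ, tr⟩ : ∃ t : ℝ, 0 < t ∧ t < δ ∧ t ≤ r / 2 :=
    ⟨min (δ / 2) (r / 2), by positivity, (min_le_left _ _).trans_lt (by linarith), min_le_right _ _⟩
  have h2 := h1 (y := t) (by rwa [Real.dist_eq, sub_zero, abs_of_pos t0]) t0.ne'
  have h3 := h1 (y := -t) (by rwa [Real.dist_eq, sub_zero, abs_neg, abs_of_pos t0])
    (neg_ne_zero.2 t0.ne')
  simp only [zero_add, zero_smul, add_zero, hz, sub_zero, smul_eq_mul] at h2 h3
  have h4 : 0 < F (z + t • v) := (mul_pos_iff_of_pos_left (inv_pos.2 t0)).1 h2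
  have h5 : F (z - t • v) < 0 := by
    rw [neg_smul, ← sub_eq_add_neg, inv_neg, neg_mul, neg_pos] at h3
    exact neg_of_mul_neg_right h3 (inv_pos.2 t0).le
  have hc := hF.continuous
  have ho : IsOpen {x : ℝ × ℝ | F (x - t • v) < 0 ∧ 0 < F (x + t • v)} :=
    IsOpen.and (isOpen_lt (by fun_prop) continuous_const) (isOpen_lt continuous_const (by fun_prop))
  obtain ⟨ε, hε, hb⟩ := Metric.isOpen_iff.1 ho z ⟨h5, h4⟩
  refine ⟨v, min (ε / 2) (r / 2), t, hv, by positivity, t0, by linarith [min_le_right (ε / 2) (r / 2)],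
    fun x hx => hb (closedBall_subset_ball ((min_le_left _ _).trans_lt (by linarith)) hx)⟩

theorem local_mass {u : ℝ × ℝ → ℝ} (hu : ContDiff ℝ 1 u) {z v : ℝ × ℝ} {ρ t r : ℝ}
    (hv : ‖v‖ ≤ 1) (hρ : 0 < ρ) (ht : 0 < t) (hr : ρ + t ≤ r)
    (h : ∀ x ∈ closedBall z ρ, u (x - t • v) = 1 ∧ u (x + t • v) = 0) :
    ρ ^ 2 / t ≤ ∫ p in closedBall z r, ‖cg u p‖ := by
  have hcg := continuous_cg hu
  have hc : Continuous fun p => ‖cg u p‖ := hcg.norm
  have hdv : ∀ p, |fderiv ℝ u p v| ≤ 2 * ‖cg u p‖ := fun p => by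
    have h1 : |v.1| ≤ 1 := (norm_fst_le v).trans hv
    have h2 : |v.2| ≤ 1 := (norm_snd_le v).trans hv
    have h3 : |fderiv ℝ u p (1, 0)| ≤ ‖cg u p‖ := by
      simpa [cg, dd] using Complex.abs_re_le_norm (cg u p)
    have h4 : |fderiv ℝ u p (0, 1)| ≤ ‖cg u p‖ := by
      simpa [cg, dd] using Complex.abs_im_le_norm (cg u p)
    rw [clm_apply_eq]
    refine (abs_add_le _ _).trans ?_
    rw [abs_mul, abs_mul]
    nlinarith [abs_nonneg (fderiv ℝ u p (1, 0)), abs_nonneg (fderiv ℝ u p (0, 1)), abs_nonneg v.1,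
      abs_nonneg v.2]
  have hcd : Continuous fun p => fderiv ℝ u p v := continuous_dd (v := v) hu
  have h1 : ∀ x ∈ closedBall z ρ, (1 : ℝ) ≤ ∫ s in Icc (-t) t, 2 * ‖cg u (x + s • v)‖ := fun x hx => by
    have e := intervalIntegral.integral_eq_sub_of_hasDerivAt (a := -t) (b := t)
      (f := fun s : ℝ => -u (x + s • v)) (f' := fun s : ℝ => -fderiv ℝ u (x + s • v) v)
      (fun s _ => by
        have k1 : HasDerivAt (fun s : ℝ => x + s • v) v s := by
          simpa using ((hasDerivAt_id s).smul_const v).const_add x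
        exact ((hu.differentiable one_ne_zero _).hasFDerivAt.comp_hasDerivAt s k1).neg)
      (Continuous.intervalIntegrable (by fun_prop) _ _)
    rw [neg_smul, ← sub_eq_add_neg, (h x hx).1, (h x hx).2] at e
    rw [integral_Icc_eq_integral_Ioc, ← intervalIntegral.integral_of_le (by linarith)]
    refine le_trans (le_of_eq (by rw [e]; ring)) (intervalIntegral.integral_mono_on (by linarith)
      (Continuous.intervalIntegrable (by fun_prop) _ _)
      (Continuous.intervalIntegrable (by fun_prop) _ _) fun s _ => ?_)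
    exact (neg_le_abs _).trans (hdv _)
  have hI : Integrable (Function.uncurry fun (x : ℝ × ℝ) (s : ℝ) => 2 * ‖cg u (x + s • v)‖)
      ((volume.restrict (closedBall z ρ)).prod (volume.restrict (Icc (-t) t))) := by
    rw [Measure.prod_restrict]
    refine ContinuousOn.integrableOn_compact ((isCompact_closedBall _ _).prod isCompact_Icc)
      (Continuous.continuousOn ?_)
    exact continuous_const.mul (hc.comp (by fun_prop))
  have h2 : ∀ s ∈ Icc (-t) t, ∫ x in closedBall z ρ, 2 * ‖cg u (x + s • v)‖ ≤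
      2 * ∫ p in closedBall z r, ‖cg u p‖ := fun s hs => by
    rw [integral_const_mul]
    refine mul_le_mul_of_nonneg_left ?_ zero_le_two
    have k1 : Integrable ((closedBall z r).indicator fun p => ‖cg u p‖) :=
      (integrable_indicator_iff measurableSet_closedBall).2
        (hc.continuousOn.integrableOn_compact (isCompact_closedBall _ _))
    rw [← integral_indicator measurableSet_closedBall, ← integral_indicator measurableSet_closedBall,
      ← integral_add_right_eq_self ((closedBall z r).indicator fun p => ‖cg u p‖) (s • v)]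
    refine integral_mono ((integrable_indicator_iff measurableSet_closedBall).2
      ((hc.comp (by fun_prop)).continuousOn.integrableOn_compact (isCompact_closedBall _ _)))
      (k1.comp_add_right _) fun x => ?_
    by_cases hx : x ∈ closedBall z ρ
    · have k2 : x + s • v ∈ closedBall z r := by
        rw [mem_closedBall, dist_eq_norm] at hx ⊢
        have k3 : ‖s • v‖ ≤ t := by
          rw [norm_smul, Real.norm_eq_abs]
          exact (mul_le_of_le_one_right (abs_nonneg _) hv).trans (abs_le.2 hs)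
        rw [add_sub_right_comm]
        exact (norm_add_le _ _).trans (by linarith)
      simp only [indicator_of_mem hx, indicator_of_mem k2, le_refl]
    · simp only [indicator_of_notMem hx]
      exact indicator_nonneg (fun _ _ => norm_nonneg _) _
  have h3 : (2 * ρ) ^ 2 ≤ ∫ x in closedBall z ρ, ∫ s in Icc (-t) t, 2 * ‖cg u (x + s • v)‖ := by
    rw [← vol_closedBall z hρ.le, ← mul_one (volume.real _), ← smul_eq_mul, ← setIntegral_const]
    exact setIntegral_mono_on (continuous_const.continuousOn.integrableOn_compact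
      (isCompact_closedBall _ _)) hI.integral_prod_left measurableSet_closedBall h1
  rw [integral_integral_swap hI] at h3
  have h4 := setIntegral_mono_on hI.integral_prod_right
    (continuous_const.continuousOn.integrableOn_compact isCompact_Icc) measurableSet_Icc h2
  rw [setIntegral_const, Real.volume_real_Icc_of_le (by linarith), smul_eq_mul] at h4
  rw [div_le_iff₀ ht]
  nlinarith [h3.trans h4]

end Pool.Agent.Lib.MP_d36e13_an.ND
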