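import Pool.Agent.Lib.MP_d36e13_an.ND.Defs

/-!
One dimensional profiles.
-/

open MeasureTheory Set Filter Topology Metric
open scoped ENNReal ContDiff

namespace Pool.Agent.Lib.MP_d36e13_an.ND

theorem exists_prof {η : ℝ} (hη : 0 < η) (hη1 : η ≤ 1 / 100) :
    ∃ (w : ℝ → ℝ) (T : ℝ), ContDiff ℝ 1 w ∧ 0 < T ∧ (∀ s, 0 ≤ s → 0 ≤ w s) ∧ (∀ s, |w s| ≤ T) ∧
      (∀ s, 1 + 9 * η ≤ s → w s = 0) ∧
      ∀ s, 0 ≤ s → s ≤ 1 + 7 * η →
        deriv w s - w s ^ 2 = (Real.pi / (2 * (1 + 10 * η))) ^ 2 := by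
  set k := Real.pi / (2 * (1 + 10 * η)) with hk
  have hp := Real.pi_pos
  have k0 : 0 < k := by positivity
  have k1 : k * (1 + 10 * η) = Real.pi / 2 := by rw [hk]; field_simp
  set β : ℝ → ℝ := fun s => Real.smoothTransition ((s + 1 / 2) * 4) *
    Real.smoothTransition ((1 + 9 * η - s) / η) with hβ
  have βc : ContDiff ℝ 1 β :=
    (Real.smoothTransition.contDiff.comp (by fun_prop)).mul
      (Real.smoothTransition.contDiff.comp (by fun_prop))
  have b0 : ∀ s, s ≤ -(1 / 2) → β s = 0 := fun s hs => by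
    simp only [hβ]
    rw [Real.smoothTransition.zero_of_nonpos (x := (s + 1 / 2) * 4) (by linarith), zero_mul]
  have b1 : ∀ s, 1 + 9 * η ≤ s → β s = 0 := fun s hs => by
    simp only [hβ]
    rw [Real.smoothTransition.zero_of_nonpos (x := (1 + 9 * η - s) / η)
      (div_nonpos_of_nonpos_of_nonneg (by linarith) hη.le), mul_zero]
  have b2 : ∀ s, -(1 / 4) ≤ s → s ≤ 1 + 8 * η → β s = 1 := fun s h1 h2 => by
    simp only [hβ]
    rw [Real.smoothTransition.one_of_one_le (x := (s + 1 / 2) * 4) (by linarith),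
      Real.smoothTransition.one_of_one_le (x := (1 + 9 * η - s) / η)
        ((one_le_div hη).2 (by linarith)), mul_one]
  have hcos : ∀ s, -(1 / 2) ≤ s → s ≤ 1 + 9 * η → 0 < Real.cos (k * s) := fun s h1 h2 =>
    Real.cos_pos_of_mem_Ioo ⟨by nlinarith, by nlinarith⟩
  have wc : ContDiff ℝ 1 fun s => β s * (k * Real.tan (k * s)) := by
    refine contDiff_iff_contDiffAt.2 fun s => ?_
    by_cases h1 : s < -(1 / 2)
    · refine (contDiffAt_const (c := (0 : ℝ))).congr_of_eventuallyEq ?_
      filter_upwards [gt_mem_nhds h1] with x hx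
      rw [b0 x hx.le, zero_mul]
    by_cases h2 : 1 + 9 * η < s
    · refine (contDiffAt_const (c := (0 : ℝ))).congr_of_eventuallyEq ?_
      filter_upwards [lt_mem_nhds h2] with x hx
      rw [b1 x hx.le, zero_mul]
    exact βc.contDiffAt.mul (contDiffAt_const.mul
      ((Real.contDiffAt_tan.2 (hcos s (not_lt.1 h1) (not_lt.1 h2)).ne').comp s
        (f := fun s => k * s) (by fun_prop)))
  have ws : HasCompactSupport fun s => β s * (k * Real.tan (k * s)) := by
    refine HasCompactSupport.intro (isCompact_Icc (a := -(1 / 2)) (b := 1 + 9 * η)) fun s hs => ?_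
    rcases le_total s 0 with h | h
    · rw [b0 s (by by_contra h'; exact hs ⟨by linarith, by linarith⟩), zero_mul]
    · rw [b1 s (by by_contra h'; exact hs ⟨by linarith, by linarith⟩), zero_mul]
  obtain ⟨C, hC⟩ := wc.continuous.bounded_above_of_compact_support ws
  refine ⟨fun s => β s * (k * Real.tan (k * s)), |C| + 1, wc, by positivity, fun s hs => ?_,
    fun s => (hC s).trans (by linarith [le_abs_self C]), fun s hs => by simp only [b1 s hs, zero_mul],
    fun s h1 h2 => ?_⟩
  · rcases le_total s (1 + 9 * η) with h | h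
    · exact mul_nonneg (mul_nonneg (Real.smoothTransition.nonneg _)
        (Real.smoothTransition.nonneg _)) (mul_nonneg k0.le
          (Real.tan_nonneg_of_nonneg_of_le_pi_div_two (by positivity) (by nlinarith)))
    · simp only [b1 s h, zero_mul, le_refl]
  · have hc := (hcos s (by linarith) (by linarith)).ne'
    have e : (fun s => β s * (k * Real.tan (k * s))) =ᶠ[𝓝 s] fun s => k * Real.tan (k * s) := by
      filter_upwards [lt_mem_nhds (show -(1 / 4) < s by linarith),
        gt_mem_nhds (show s < 1 + 8 * η by linarith)] with x hx1 hx2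
      rw [b2 x hx1.le hx2.le, one_mul]
    have d : HasDerivAt (fun s => k * Real.tan (k * s)) (k * (1 / Real.cos (k * s) ^ 2 * k)) s :=
      ((Real.hasDerivAt_tan hc).comp s (((hasDerivAt_id s).const_mul k).congr_deriv
        (mul_one k))).const_mul k
    rw [e.deriv_eq, d.deriv]
    simp only [b2 s (by linarith) (by linarith), one_mul, Real.tan_eq_sin_div_cos]
    field_simp
    nlinarith [Real.sin_sq_add_cos_sq (k * s)]

theorem exists_step {η : ℝ} (hη : 0 < η) :
    ∃ h : ℝ → ℝ, ContDiff ℝ 1 h ∧ (∀ x, x ≤ 0 → h x = 1) ∧ (∀ x, 1 ≤ x → h x = 0) ∧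
      (∀ x, -(1 + η) ≤ deriv h x ∧ deriv h x ≤ 0) ∧
      ∀ x, (x < 0 ∨ 1 < x) → deriv h x = 0 := by
  obtain ⟨δ, d0, d1, d2⟩ : ∃ δ : ℝ, 0 < δ ∧ δ ≤ 1 / 2 ∧ 1 ≤ (1 + η) * (1 - δ) := by
    refine ⟨min (1 / 2) (η / (1 + η)), by positivity, min_le_left _ _, ?_⟩
    have h1 : min (1 / 2) (η / (1 + η)) * (1 + η) ≤ η :=
      (le_div_iff₀ (by linarith)).1 (min_le_right _ _)
    nlinarith
  set a := 1 / (2 * δ * (1 - δ)) with ha
  have d3 : 0 < 1 - δ := by linarith
  have a0 : 0 < a := by positivity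
  have a1 : a * (2 * δ * (1 - δ)) = 1 := by rw [ha]; field_simp
  have hd : ∀ x, deriv (fun x => 1 - a * (P x - P (x - δ) - P (x - (1 - δ)) + P (x - 1))) x =
      -(a * (2 * max x 0 - 2 * max (x - δ) 0 - 2 * max (x - (1 - δ)) 0 + 2 * max (x - 1) 0)) :=
    fun x => ((((((hasDerivAt_P x).sub ((hasDerivAt_P (x - δ)).comp_sub_const x δ)).sub
      ((hasDerivAt_P (x - (1 - δ))).comp_sub_const x (1 - δ))).add
        ((hasDerivAt_P (x - 1)).comp_sub_const x 1)).const_mul a).const_sub 1).deriv
  refine ⟨fun x => 1 - a * (P x - P (x - δ) - P (x - (1 - δ)) + P (x - 1)), ?_, fun x hx => ?_,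
    fun x hx => ?_, fun x => ?_, fun x hx => ?_⟩
  · exact contDiff_const.sub (contDiff_const.mul (((contDiff_P.sub
      (contDiff_P.comp (contDiff_id.sub contDiff_const))).sub
        (contDiff_P.comp (contDiff_id.sub contDiff_const))).add
          (contDiff_P.comp (contDiff_id.sub contDiff_const))))
  · simp only [P, max_eq_right hx, max_eq_right (show x - δ ≤ 0 by linarith),
      max_eq_right (show x - (1 - δ) ≤ 0 by linarith), max_eq_right (show x - 1 ≤ 0 by linarith)]
    ring
  · simp only [P, max_eq_left (show 0 ≤ x by linarith), max_eq_left (show 0 ≤ x - δ by linarith),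
      max_eq_left (show 0 ≤ x - (1 - δ) by linarith), max_eq_left (show 0 ≤ x - 1 by linarith)]
    linear_combination (-1) * a1
  · have h1 : 0 ≤ 2 * max x 0 - 2 * max (x - δ) 0 - 2 * max (x - (1 - δ)) 0 + 2 * max (x - 1) 0 ∧
        2 * max x 0 - 2 * max (x - δ) 0 - 2 * max (x - (1 - δ)) 0 + 2 * max (x - 1) 0 ≤ 2 * δ := by
      simp only [max_def]
      split_ifs <;> constructor <;> linarith
    have h2 : a * (2 * δ) ≤ 1 + η := by
      refine le_of_mul_le_mul_right ?_ d3
      rw [mul_assoc, a1]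
      exact d2
    rw [hd]
    exact ⟨neg_le_neg ((mul_le_mul_of_nonneg_left h1.2 a0.le).trans h2),
      neg_nonpos.2 (mul_nonneg a0.le h1.1)⟩
  · have h1 : 2 * max x 0 - 2 * max (x - δ) 0 - 2 * max (x - (1 - δ)) 0 + 2 * max (x - 1) 0 = 0 := by
      simp only [max_def]
      rcases hx with hx | hx <;> split_ifs <;> linarith
    rw [hd, h1, mul_zero, neg_zero]

theorem exists_trans_bound : ∃ B : ℝ, 0 < B ∧ ∀ x,
    0 ≤ deriv Real.smoothTransition x ∧ deriv Real.smoothTransition x ≤ B := by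
  have hc : Continuous (deriv Real.smoothTransition) :=
    (Real.smoothTransition.contDiff (n := 1)).continuous_deriv le_rfl
  have hs : HasCompactSupport (deriv Real.smoothTransition) := by
    refine HasCompactSupport.intro (isCompact_Icc (a := 0) (b := 1)) fun s hs => ?_
    by_cases h : s < 0
    · have e : Real.smoothTransition =ᶠ[𝓝 s] fun _ => 0 := by
        filter_upwards [gt_mem_nhds h] with x hx
        exact Real.smoothTransition.zero_of_nonpos hx.le
      rw [e.deriv_eq, deriv_const]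
    · have h' : 1 < s := not_le.1 fun h' => hs ⟨not_lt.1 h, h'⟩
      have e : Real.smoothTransition =ᶠ[𝓝 s] fun _ => 1 := by
        filter_upwards [lt_mem_nhds h'] with x hx
        exact Real.smoothTransition.one_of_one_le hx.le
      rw [e.deriv_eq, deriv_const]
  obtain ⟨C, hC⟩ := hc.bounded_above_of_compact_support hs
  exact ⟨|C| + 1, by positivity, fun x => ⟨Real.smoothTransition.monotone.deriv_nonneg,
    (le_abs_self _).trans ((hC x).trans (by linarith [le_abs_self C]))⟩⟩

end Pool.Agent.Lib.MP_d36e13_an.ND
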