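import Pool.Agent.Lib.MP_d36e13_an.ND.Defs

/-!
The equality case: only discs.
-/

open MeasureTheory Set Filter Topology Metric
open scoped ENNReal ContDiff

namespace Pool.Agent.Lib.MP_d36e13_an.ND

theorem three_pts {n₀ n₁ n₂ a b : ℂ} (h₀ : n₀ ≠ 0) (h₁ : n₁ ≠ 0) (h₂ : n₂ ≠ 0) (ha : a ≠ 0)
    (hb : b ≠ 0) (hab : a ≠ b)
    (e₁ : -(n₁ * n₀ * ((starRingEnd ℂ) a / a)) = ((‖n₁‖ * ‖n₀‖ : ℝ) : ℂ))
    (e₂ : -(n₂ * n₀ * ((starRingEnd ℂ) b / b)) = ((‖n₂‖ * ‖n₀‖ : ℝ) : ℂ))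
    (e₃ : -(n₁ * n₂ * ((starRingEnd ℂ) (a - b) / (a - b))) = ((‖n₁‖ * ‖n₂‖ : ℝ) : ℂ)) :
    (n₀ * (starRingEnd ℂ) a).re * ‖b‖ ^ 2 = (n₀ * (starRingEnd ℂ) b).re * ‖a‖ ^ 2 := by
  have hab' : a - b ≠ 0 := sub_ne_zero.2 hab
  have r₁ : ((‖n₁‖ : ℝ) : ℂ) ≠ 0 := by exact_mod_cast norm_ne_zero_iff.2 h₁
  have r₂ : ((‖n₂‖ : ℝ) : ℂ) ≠ 0 := by exact_mod_cast norm_ne_zero_iff.2 h₂
  have r₀ : ((‖n₀‖ : ℝ) : ℂ) ^ 2 = n₀ * (starRingEnd ℂ) n₀ := by
    rw [Complex.mul_conj, Complex.normSq_eq_norm_sq]; push_cast; rfl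
  rw [map_sub] at e₃
  push_cast at e₁ e₂ e₃
  have f₁ : n₁ * n₀ * (starRingEnd ℂ) a = -(‖n₁‖ * ‖n₀‖ * a) := by
    rw [← e₁]; field_simp
  have f₂ : n₂ * n₀ * (starRingEnd ℂ) b = -(‖n₂‖ * ‖n₀‖ * b) := by
    rw [← e₂]; field_simp
  have f₃ : n₁ * n₂ * ((starRingEnd ℂ) a - (starRingEnd ℂ) b) = -(‖n₁‖ * ‖n₂‖ * (a - b)) := by
    rw [← e₃]; field_simp
  have key : n₀ * (starRingEnd ℂ) a * (starRingEnd ℂ) b * (a - b) +
      (starRingEnd ℂ) n₀ * a * b * ((starRingEnd ℂ) a - (starRingEnd ℂ) b) = 0 := by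
    refine mul_left_cancel₀ (mul_ne_zero (mul_ne_zero r₁ r₂) h₀) ?_
    linear_combination (n₀ ^ 2 * (starRingEnd ℂ) a * (starRingEnd ℂ) b) * f₃ -
      ((starRingEnd ℂ) a - (starRingEnd ℂ) b) * (n₂ * n₀ * (starRingEnd ℂ) b) * f₁ +
      ((starRingEnd ℂ) a - (starRingEnd ℂ) b) * (‖n₁‖ * ‖n₀‖ * a) * f₂ -
      (‖n₁‖ * ‖n₂‖ * a * b * ((starRingEnd ℂ) a - (starRingEnd ℂ) b)) * r₀
  have h := congrArg Complex.re key
  simp only [Complex.add_re, Complex.mul_re, Complex.mul_im, Complex.sub_re, Complex.sub_im,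
    Complex.conj_re, Complex.conj_im, Complex.zero_re] at h
  simp only [Complex.sq_norm, Complex.normSq_apply, Complex.mul_re, Complex.conj_re,
    Complex.conj_im]
  linarith

theorem rigid_conn {D S : Set (ℝ × ℝ)} (ho : IsOpen D) (hS : IsPreconnected S)
    (hne : (S ∩ D).Nonempty) (hf : ∀ p ∈ S, p ∉ frontier D) : S ⊆ D := by
  refine hS.subset_of_closure_inter_subset ho hne ?_
  rintro p ⟨hc, hp⟩
  by_contra hD
  exact hf p hp ⟨hc, fun hi => hD (interior_subset hi)⟩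

theorem rigid_ray {D : Set (ℝ × ℝ)} (ho : IsOpen D) (hb : Bornology.IsBounded D) {x v : ℝ × ℝ}
    (hx : x ∈ D) (hv : v ≠ 0) : ∃ t : ℝ, 0 < t ∧ x + t • v ∈ frontier D := by
  by_contra hcon
  have hS : IsPreconnected ((fun t : ℝ => x + t • v) '' Ici 0) :=
    isPreconnected_Ici.image _ (by fun_prop)
  have hsub : (fun t : ℝ => x + t • v) '' Ici 0 ⊆ D := by
    refine rigid_conn ho hS ⟨x, ⟨0, by simp, by simp⟩, hx⟩ ?_
    rintro p ⟨t, ht, rfl⟩ hp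
    rcases (mem_Ici.1 ht).eq_or_lt with h0 | h0
    · subst h0
      have : x ∈ D ∩ frontier D := ⟨hx, by simpa using hp⟩
      rw [ho.inter_frontier_eq] at this
      exact this
    · exact hcon ⟨t, h0, hp⟩
  obtain ⟨M, hM⟩ := hb.exists_norm_le
  have hvp : 0 < ‖v‖ := norm_pos_iff.2 hv
  have hM0 : 0 ≤ M := (norm_nonneg _).trans (hM x hx)
  set t : ℝ := (M + ‖x‖ + 1) / ‖v‖ with ht
  have ht0 : 0 ≤ t := by positivity
  have h1 := hM _ (hsub ⟨t, ht0, rfl⟩)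
  have h2 : ‖t • v‖ = M + ‖x‖ + 1 := by
    rw [norm_smul, Real.norm_of_nonneg ht0, ht]; field_simp
  have h3 : ‖t • v‖ ≤ ‖x + t • v‖ + ‖x‖ := by
    have := norm_sub_le (x + t • v) x
    simpa using this
  linarith

theorem rigid_convex (c : ℝ × ℝ) (R : ℝ) : Convex ℝ (DC.discAt c R) := by
  intro u hu v hv s t hs ht hst
  simp only [DC.discAt, mem_ofPred_eq, Prod.fst_add, Prod.snd_add, Prod.smul_fst, Prod.smul_snd,
    smul_eq_mul] at hu hv ⊢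
  have e : t = 1 - s := by linarith
  subst e
  have k : (s * u.1 + (1 - s) * v.1 - c.1) ^ 2 + (s * u.2 + (1 - s) * v.2 - c.2) ^ 2 =
      s * ((u.1 - c.1) ^ 2 + (u.2 - c.2) ^ 2) + (1 - s) * ((v.1 - c.1) ^ 2 + (v.2 - c.2) ^ 2) -
        s * (1 - s) * ((u.1 - v.1) ^ 2 + (u.2 - v.2) ^ 2) := by ring
  have k2 : 0 ≤ s * (1 - s) * ((u.1 - v.1) ^ 2 + (u.2 - v.2) ^ 2) := by positivity
  rw [k]
  rcases hs.eq_or_lt with h0 | h0
  · subst h0; simpa using hv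
  · nlinarith [mul_lt_mul_of_pos_left hu h0, mul_le_mul_of_nonneg_left hv.le ht]

theorem disc_of_frontier {D : Set (ℝ × ℝ)} (ho : IsOpen D) (hb : Bornology.IsBounded D)
    (hne : D.Nonempty) {z n : ℝ × ℝ} {a : ℝ} (hn : n ≠ 0)
    (h : ∀ p ∈ frontier D, n.1 * (p.1 - z.1) + n.2 * (p.2 - z.2) =
      a * ((p.1 - z.1) ^ 2 + (p.2 - z.2) ^ 2)) :
    ∃ (c : ℝ × ℝ) (R : ℝ), 0 < R ∧ D = DC.discAt c R := by
  have hN : 0 < n.1 ^ 2 + n.2 ^ 2 := by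
    by_contra hc
    apply hn
    have h1 : n.1 = 0 := by nlinarith [sq_nonneg n.1, sq_nonneg n.2]
    have h2 : n.2 = 0 := by nlinarith [sq_nonneg n.1, sq_nonneg n.2]
    exact Prod.ext h1 h2
  obtain ⟨x₀, hx₀⟩ := hne
  by_cases ha : a = 0
  · exfalso
    subst ha
    rcases le_total 0 (n.1 * (x₀.1 - z.1) + n.2 * (x₀.2 - z.2)) with h0 | h0
    · obtain ⟨t, ht, hf⟩ := rigid_ray ho hb hx₀ hn
      have := h _ hf
      simp only [Prod.fst_add, Prod.snd_add, Prod.smul_fst, Prod.smul_snd, smul_eq_mul] at this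
      nlinarith [mul_pos ht hN]
    · obtain ⟨t, ht, hf⟩ := rigid_ray ho hb hx₀ (neg_ne_zero.2 hn)
      have := h _ hf
      simp only [Prod.fst_add, Prod.snd_add, Prod.smul_fst, Prod.smul_snd, smul_eq_mul,
        Prod.fst_neg, Prod.snd_neg] at this
      nlinarith [mul_pos ht hN]
  · set c : ℝ × ℝ := (z.1 + n.1 / (2 * a), z.2 + n.2 / (2 * a)) with hc
    have hq : 0 < (n.1 ^ 2 + n.2 ^ 2) / (4 * a ^ 2) := by positivity
    set R : ℝ := Real.sqrt ((n.1 ^ 2 + n.2 ^ 2) / (4 * a ^ 2)) with hR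
    have hR0 : 0 < R := Real.sqrt_pos.2 hq
    have hR2 : R ^ 2 = (n.1 ^ 2 + n.2 ^ 2) / (4 * a ^ 2) := Real.sq_sqrt hq.le
    have hfr : ∀ p ∈ frontier D, (p.1 - c.1) ^ 2 + (p.2 - c.2) ^ 2 = R ^ 2 := by
      intro p hp
      have e := h p hp
      rw [hR2]
      simp only [hc]
      field_simp
      linear_combination (-16 * a) * e
    have hsub : D ⊆ DC.discAt c R := by
      intro x hx
      show (x.1 - c.1) ^ 2 + (x.2 - c.2) ^ 2 < R ^ 2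
      by_cases hxc : x - c = 0
      · have h1 : x.1 - c.1 = 0 := congrArg Prod.fst hxc
        have h2 : x.2 - c.2 = 0 := congrArg Prod.snd hxc
        rw [h1, h2]
        nlinarith
      · obtain ⟨t, ht, hf⟩ := rigid_ray ho hb hx hxc
        have e := hfr _ hf
        simp only [Prod.fst_add, Prod.snd_add, Prod.smul_fst, Prod.smul_snd, smul_eq_mul,
          Prod.fst_sub, Prod.snd_sub] at e
        have e2 : (1 + t) ^ 2 * ((x.1 - c.1) ^ 2 + (x.2 - c.2) ^ 2) = R ^ 2 := by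
          linear_combination e
        by_contra hge
        have hge' : R ^ 2 ≤ (x.1 - c.1) ^ 2 + (x.2 - c.2) ^ 2 := not_lt.1 hge
        have hp : 0 < R ^ 2 := by positivity
        have h1 : 0 < (2 * t + t ^ 2) * ((x.1 - c.1) ^ 2 + (x.2 - c.2) ^ 2) :=
          mul_pos (by positivity) (hp.trans_le hge')
        nlinarith
    refine ⟨c, R, hR0, hsub.antisymm ?_⟩
    refine rigid_conn ho (rigid_convex c R).isPreconnected ⟨x₀, hsub hx₀, hx₀⟩ ?_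
    intro p hp hf
    have e := hfr p hf
    have hp' : (p.1 - c.1) ^ 2 + (p.2 - c.2) ^ 2 < R ^ 2 := hp
    exact hp'.ne e

theorem gap_pts {D : Set (ℝ × ℝ)} {F : ℝ × ℝ → ℝ} (h : DefF D F) (hne : D.Nonempty)
    (hnd : ¬ ∃ (c : ℝ × ℝ) (R : ℝ), 0 < R ∧ D = DC.discAt c R) :
    ∃ z₁ z₂ : ℝ × ℝ, F z₁ = 0 ∧ F z₂ = 0 ∧ z₁ ≠ z₂ ∧
      (-(cg F z₁ * cg F z₂ * ker z₁ z₂)).re < ‖cg F z₁‖ * ‖cg F z₂‖ := by
  by_contra hn
  push Not at hn
  have hc : ∀ p, F p = 0 → cg F p ≠ 0 := fun p hp h0 => by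
    have h1 := h.nz p hp
    rw [← norm_cg_sq, h0, norm_zero] at h1
    norm_num at h1
  have heq : ∀ p q, F p = 0 → F q = 0 → p ≠ q →
      -(cg F p * cg F q * ker p q) = ((‖cg F p‖ * ‖cg F q‖ : ℝ) : ℂ) := by
    intro p q hp hq hpq
    have h1 := hn p q hp hq hpq
    have h2 : ‖-(cg F p * cg F q * ker p q)‖ ≤ ‖cg F p‖ * ‖cg F q‖ := by
      rw [norm_neg, norm_mul, norm_mul]
      exact mul_le_of_le_one_right (by positivity) (norm_ker_le p q)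
    have h3 := Complex.re_le_norm (-(cg F p * cg F q * ker p q))
    have h4 := Complex.re_eq_norm.1 (le_antisymm h3 (h2.trans h1))
    exact Complex.ext (by rw [Complex.ofReal_re]; linarith)
      (by rw [Complex.ofReal_im]; exact (Complex.nonneg_iff.1 h4).2.symm)
  obtain ⟨z, hz⟩ : (frontier D).Nonempty := nonempty_frontier_iff.2 ⟨hne, fun hu =>
    NormedSpace.unbounded_univ ℝ (ℝ × ℝ) (hu ▸ h.isBounded)⟩
  have hz0 := h.zero_of_frontier hz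
  have hn0 : ((dd (1, 0) F z, dd (0, 1) F z) : ℝ × ℝ) ≠ 0 := fun h0 => hc z hz0 (by
    rw [cg, (Prod.mk_eq_zero.1 h0).1, (Prod.mk_eq_zero.1 h0).2]; simp)
  have hre : ∀ p : ℝ × ℝ, (cg F z * (starRingEnd ℂ) (cz p - cz z)).re =
      dd (1, 0) F z * (p.1 - z.1) + dd (0, 1) F z * (p.2 - z.2) := fun p => by
    simp [cg, cz]
    ring
  have hnorm : ∀ p : ℝ × ℝ, ‖cz p - cz z‖ ^ 2 = (p.1 - z.1) ^ 2 + (p.2 - z.2) ^ 2 := fun p => by
    rw [Complex.sq_norm, Complex.normSq_apply, Complex.sub_re, Complex.sub_im, cz_re, cz_re, cz_im,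
      cz_im]
    ring
  have hne' : ∀ p q : ℝ × ℝ, p ≠ q → cz p - cz q ≠ 0 := fun p q hpq =>
    sub_ne_zero.2 (cz_injective.ne hpq)
  by_cases hq : ∃ q ∈ frontier D, q ≠ z
  · obtain ⟨q, hq, hqz⟩ := hq
    have hq0 := h.zero_of_frontier hq
    have hpos : ‖cz q - cz z‖ ^ 2 ≠ 0 := pow_ne_zero 2 (norm_ne_zero_iff.2 (hne' q z hqz))
    refine hnd (disc_of_frontier h.isOpen h.isBounded hne (z := z) hn0
      (a := (cg F z * (starRingEnd ℂ) (cz q - cz z)).re / ‖cz q - cz z‖ ^ 2) fun p hp => ?_)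
    have hp0 := h.zero_of_frontier hp
    rw [← hre, ← hnorm, div_mul_eq_mul_div, eq_div_iff hpos]
    by_cases hpz : p = z
    · simp [hpz]
    by_cases hpq : p = q
    · rw [hpq]
    refine three_pts (hc z hz0) (hc p hp0) (hc q hq0) (hne' p z hpz) (hne' q z hqz)
      (fun e => hpq (cz_injective (sub_left_injective e))) (heq p z hp0 hz0 hpz)
      (heq q z hq0 hz0 hqz) ?_
    rw [sub_sub_sub_cancel_right]
    exact heq p q hp0 hq0 hpq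
  · push Not at hq
    refine hnd (disc_of_frontier h.isOpen h.isBounded hne (z := z) hn0 (a := 0) fun p hp => ?_)
    simp [hq p hp]

end Pool.Agent.Lib.MP_d36e13_an.ND
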