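import Pool.Agent.Lib.MP_d36e13_an.ND.Top
import Pool.Agent.Lib.MP_d36e13_an.ND.Mass
import Pool.Agent.Lib.MP_d36e13_an.ND.Rigid
import Pool.Agent.Lib.MP_d36e13_an.ND.Loc
import Pool.Agent.Lib.MP_d36e13_an.ND.Prof

/-!
The strict isoperimetric inequality for thin collars.
-/

open MeasureTheory Set Filter Topology Metric
open scoped ENNReal ContDiff

namespace Pool.Agent.Lib.MP_d36e13_an.ND

theorem gap_cg {G : ℝ × ℝ → ℝ} (hG : ContDiff ℝ 1 G) {k : ℝ → ℝ} (hk : ContDiff ℝ 1 k) (ε : ℝ)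
    (p : ℝ × ℝ) : cg (fun x => k (G x / ε)) p = ((deriv k (G p / ε) / ε : ℝ) : ℂ) * cg G p := by
  have h1 : HasDerivAt (fun y : ℝ => k (y / ε)) (deriv k (G p / ε) / ε) (G p) := by
    have h2 := ((hk.differentiable one_ne_zero) (G p / ε)).hasDerivAt.comp (G p)
      ((hasDerivAt_id (G p)).div_const ε)
    rw [mul_one_div] at h2
    exact h2
  have hd := hG.differentiable one_ne_zero p
  unfold cg
  rw [dd_comp h1 hd, dd_comp h1 hd]
  push_cast
  ring

theorem gap_min {D : Set (ℝ × ℝ)} {F G : ℝ × ℝ → ℝ} (h : DefF D F) (hG : DefF D G)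
    (hS : SameDir F G) {z v : ℝ × ℝ} {ρ t : ℝ}
    (hx : ∀ x ∈ closedBall z ρ, F (x - t • v) < 0 ∧ 0 < F (x + t • v)) :
    ∃ m : ℝ, 0 < m ∧ ∀ x ∈ closedBall z ρ, G (x - t • v) < 0 ∧ m ≤ G (x + t • v) := by
  have hc := hG.cd.continuous
  have key : ∀ p, F p < 0 ↔ G p < 0 := fun p => by
    have e : {p | F p < 0} = {p | G p < 0} := h.eq.symm.trans hG.eq
    exact Set.ext_iff.1 e p
  obtain ⟨m, hm, H⟩ := (isCompact_closedBall z ρ).exists_forall_le'
    (f := fun x => G (x + t • v)) (a := 0) (by fun_prop) fun x hx' => by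
      have h1 := (hx x hx').2
      rcases lt_trichotomy (G (x + t • v)) 0 with h2 | h2 | h2
      · exact absurd ((key _).2 h2) h1.not_gt
      · exact absurd (hS _ h2).1 h1.ne'
      · exact h2
  exact ⟨m, hm, fun x hx' => ⟨(key _).1 (hx x hx').1, H x hx'⟩⟩

theorem gap {D : Set (ℝ × ℝ)} {F : ℝ × ℝ → ℝ} (h : DefF D F) (hne : D.Nonempty)
    (hnd : ¬ ∃ (c : ℝ × ℝ) (R : ℝ), 0 < R ∧ D = DC.discAt c R) :
    ∃ c : ℝ, 0 < c ∧ ∀ (G : ℝ × ℝ → ℝ) (η : ℝ), 0 < η → DefF D G → SameDir F G →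
      (∀ p, G p = 0 → |g2 G p - 1| < η) → ∃ ε₀ : ℝ, 0 < ε₀ ∧ ∀ ε : ℝ, 0 < ε → ε < ε₀ →
        ε * Real.sqrt (4 * Real.pi * (volume D).toReal + c) ≤
          (1 + η) ^ 2 * (volume {p | 0 ≤ G p ∧ G p ≤ ε}).toReal := by
  obtain ⟨z₁, z₂, h₁, h₂, hne', hlt⟩ := gap_pts h hne hnd
  obtain ⟨r, γ, hr, hγ, H⟩ := gap_local h h₁ h₂ hne' hlt
  obtain ⟨v₁, ρ₁, t₁, hv₁, hρ₁, ht₁, hr₁, hx₁⟩ := exists_seg h.cd h₁ (h.nz _ h₁) hr
  obtain ⟨v₂, ρ₂, t₂, hv₂, hρ₂, ht₂, hr₂, hx₂⟩ := exists_seg h.cd h₂ (h.nz _ h₂) hr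
  refine ⟨γ * (ρ₁ ^ 2 / t₁ * (ρ₂ ^ 2 / t₂)), by positivity, fun G η hη hG hS hN => ?_⟩
  obtain ⟨s, hs, Hs⟩ := H G hG hS
  obtain ⟨s', hs', Hs'⟩ := shrink hG (U := {p | g2 G p < 1 + η})
    (isOpen_lt (continuous_g2 hG.cd) continuous_const) fun p hp => by
      have := (abs_lt.1 (hN p hp)).2
      change g2 G p < 1 + η
      linarith
  obtain ⟨m₁, hm₁, Hm₁⟩ := gap_min h hG hS hx₁
  obtain ⟨m₂, hm₂, Hm₂⟩ := gap_min h hG hS hx₂
  obtain ⟨k, hk, k0, k1, kd, kz⟩ := exists_step hη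
  refine ⟨min (min s s') (min (min m₁ m₂) 1), by positivity, fun ε hε hε₀ => ?_⟩
  simp only [lt_min_iff] at hε₀
  obtain ⟨⟨e1, e2⟩, ⟨e3, e4⟩, e5⟩ := hε₀
  set u : ℝ × ℝ → ℝ := fun x => k (G x / ε) with hu
  set S : Set (ℝ × ℝ) := {p | 0 ≤ G p ∧ G p ≤ ε} with hSdef
  have cG := hG.cd.continuous
  have cu : ContDiff ℝ 1 u := hk.comp (hG.cd.div_const ε)
  have u1 : ∀ p, G p < 0 → u p = 1 := fun p hp =>
    k0 _ (div_nonpos_of_nonpos_of_nonneg hp.le hε.le)
  have u0 : ∀ p, ε ≤ G p → u p = 0 := fun p hp => k1 _ ((one_le_div hε).2 hp)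
  have su : HasCompactSupport u :=
    HasCompactSupport.intro (hG.isCompact_le e5) fun p hp => u0 p (not_le.1 hp).le
  set a : ℝ × ℝ → ℝ := fun p => deriv k (G p / ε) / ε with ha
  have ecg : ∀ p, cg u p = (a p : ℂ) * cg G p := gap_cg hG.cd hk ε
  have a0 : ∀ p, a p ≤ 0 := fun p => div_nonpos_of_nonpos_of_nonneg (kd _).2 hε.le
  have a1 : ∀ p, -a p ≤ (1 + η) / ε := fun p => by
    rw [ha, ← neg_div]
    exact div_le_div_of_nonneg_right (by linarith [(kd (G p / ε)).1]) hε.le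
  have az : ∀ p, p ∉ S → a p = 0 := fun p hp => by
    have : deriv k (G p / ε) = 0 := by
      apply kz
      rcases not_and_or.1 hp with h' | h'
      · exact Or.inl (div_neg_of_neg_of_pos (not_le.1 h') hε)
      · exact Or.inr ((one_lt_div hε).2 (not_le.1 h'))
    simp only [ha, this, zero_div]
  have aS : ∀ p ∈ S, |G p| ≤ ε := fun p hp => by rw [abs_of_nonneg hp.1]; exact hp.2
  have ncg : ∀ p, ‖cg u p‖ = -a p * ‖cg G p‖ := fun p => by
    rw [ecg, norm_mul, Complex.norm_real, Real.norm_eq_abs, abs_of_nonpos (a0 p)]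
  have I := iso_gap cu su (B₁ := closedBall z₁ r) (B₂ := closedBall z₂ r)
    measurableSet_closedBall measurableSet_closedBall (γ := γ) fun z hz ζ hζ => by
      have e : (-(cg u z * cg u ζ * ker z ζ)).re =
          (a z * a ζ) * (-(cg G z * cg G ζ * ker z ζ)).re := by
        rw [ecg, ecg, ← Complex.re_ofReal_mul]
        congr 1
        push_cast
        ring
      rw [e, ncg, ncg]
      by_cases hz' : z ∈ S
      · by_cases hζ' : ζ ∈ S
        · have h3 := Hs z hz ζ hζ ((aS z hz').trans e1.le) ((aS ζ hζ').trans e1.le)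
          have h4 := mul_le_mul_of_nonneg_left h3 (mul_nonneg_of_nonpos_of_nonpos (a0 z) (a0 ζ))
          linarith
        · simp [az ζ hζ']
      · simp [az z hz']
  have M₁ := local_mass cu hv₁ hρ₁ ht₁ hr₁ fun x hx =>
    ⟨u1 _ (Hm₁ x hx).1, u0 _ (e3.le.trans (Hm₁ x hx).2)⟩
  have M₂ := local_mass cu hv₂ hρ₂ ht₂ hr₂ fun x hx =>
    ⟨u1 _ (Hm₂ x hx).1, u0 _ (e4.le.trans (Hm₂ x hx).2)⟩
  have M := mul_le_mul_of_nonneg_left
    (mul_le_mul M₁ M₂ (by positivity) ((by positivity : (0 : ℝ) ≤ ρ₁ ^ 2 / t₁).trans M₁)) hγ.le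
  have hD : (volume D).toReal ≤ ∫ z, u z ^ 2 := by
    have c2 : Continuous fun z => u z ^ 2 := cu.continuous.pow 2
    have s2 : HasCompactSupport fun z => u z ^ 2 :=
      HasCompactSupport.intro (hG.isCompact_le e5) fun p hp => by
        rw [u0 p (not_le.1 hp).le]; simp
    have i1 : Integrable fun z => u z ^ 2 := c2.integrable_of_hasCompactSupport s2
    refine le_trans (le_of_eq ?_) (setIntegral_le_integral (s := D) i1
      (Eventually.of_forall fun z => sq_nonneg _))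
    rw [setIntegral_congr_fun hG.isOpen.measurableSet (g := fun _ => (1 : ℝ)) fun z hz => by
      rw [hG.eq] at hz
      simp only [u1 z hz, one_pow]]
    simp [Measure.real]
  have mS : MeasurableSet S :=
    ((isClosed_le continuous_const cG).inter (isClosed_le cG continuous_const)).measurableSet
  have fS : volume S ≠ ⊤ :=
    ((measure_mono fun p hp => hp.2).trans_lt (hG.isCompact_le e5).measure_lt_top).ne
  have hP : ∫ z, ‖cg u z‖ ≤ (1 + η) ^ 2 / ε * (volume S).toReal := by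
    have i1 : Integrable fun z => ‖cg u z‖ :=
      ((continuous_cg cu).integrable_of_hasCompactSupport (hasCompactSupport_cg su)).norm
    have i2 : Integrable (S.indicator fun _ => (1 + η) ^ 2 / ε) :=
      (integrable_indicator_iff mS).2 (integrableOn_const fS)
    refine (integral_mono i1 i2 fun z => ?_).trans (le_of_eq ?_)
    · by_cases hz : z ∈ S
      · rw [indicator_of_mem hz, ncg]
        have h3 : g2 G z < 1 + η := Hs' z ((aS z hz).trans e2.le)
        have h4 : ‖cg G z‖ ≤ 1 + η := by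
          refine le_of_sq_le_sq ?_ (by positivity)
          rw [norm_cg_sq]
          nlinarith
        calc -a z * ‖cg G z‖ ≤ (1 + η) / ε * (1 + η) :=
              mul_le_mul (a1 z) h4 (norm_nonneg _) (by positivity)
          _ = (1 + η) ^ 2 / ε := by ring
      · rw [indicator_of_notMem hz, ncg, az z hz]
        simp
    · rw [integral_indicator_const _ mS, smul_eq_mul, mul_comm]
      rfl
  have P0 : 0 ≤ ∫ z, ‖cg u z‖ := integral_nonneg fun z => norm_nonneg _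
  have hπ := mul_le_mul_of_nonneg_left hD (by positivity : 0 ≤ 4 * Real.pi)
  have fin : Real.sqrt (4 * Real.pi * (volume D).toReal + γ * (ρ₁ ^ 2 / t₁ * (ρ₂ ^ 2 / t₂))) ≤
      (1 + η) ^ 2 / ε * (volume S).toReal :=
    (Real.sqrt_le_iff.2 ⟨P0, by linarith⟩).trans hP
  calc _ ≤ ε * ((1 + η) ^ 2 / ε * (volume S).toReal) := mul_le_mul_of_nonneg_left fin hε.le
    _ = _ := by field_simp

end Pool.Agent.Lib.MP_d36e13_an.ND
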