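import Pool.Agent.Lib.MP_d36e13_an.ND.Defs

/-!
The calibration inequality for weakly differentiable functions.
-/

open MeasureTheory Set Filter Topology Metric
open scoped ENNReal ContDiff

namespace Pool.Agent.Lib.MP_d36e13_an.ND

theorem ibp_top {Ω : Set (ℝ × ℝ)} {f : ℝ × ℝ → ℝ} (hf : Continuous f) (hc : HasCompactSupport f) :
    MemLp f ⊤ (volume.restrict Ω) :=
  (hf.memLp_top_of_hasCompactSupport hc volume).restrict Ω

theorem ibp_core {Ω : Set (ℝ × ℝ)} (hΩ : IsOpen Ω) {f g ψ : ℝ × ℝ → ℝ} (v : ℝ × ℝ)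
    (hψ : Fld Ω ψ) (mf : MemLp f 2 (volume.restrict Ω)) (mg : MemLp g 2 (volume.restrict Ω))
    (ht : ∀ φ, Fld Ω φ → ∫ x in Ω, f x * dd v φ x = - ∫ x in Ω, g x * φ x)
    (ha : ∀ ε : ℝ, 0 < ε → ∃ w : ℝ × ℝ → ℝ, ContDiff ℝ ∞ w ∧
      ∫ x in tsupport ψ, (w x - f x) ^ 2 ≤ ε ∧ ∫ x in tsupport ψ, (dd v w x - g x) ^ 2 ≤ ε) :
    ∫ x in Ω, dd v ψ x * f x ^ 2 = - ∫ x in Ω, 2 * ψ x * (f x * g x) := by
  obtain ⟨h1, hc, hs⟩ := hψ
  have hK : IsCompact (tsupport ψ) := hc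
  have z0 : ∀ p, p ∉ tsupport ψ → ψ p = 0 := fun p hp => image_eq_zero_of_notMem_tsupport hp
  have z1 : ∀ p, p ∉ tsupport ψ → dd v ψ p = 0 := fun p hp => dd_eq_zero_of_notMem hp
  have mf' := memLp_sub hs mf
  have mg' := memLp_sub hs mg
  have t0 := memLp_on_compact hK h1.continuous ⊤
  have t1 := memLp_on_compact hK (continuous_dd (v := v) h1) ⊤
  have ma : MemLp (fun x => dd v ψ x * f x + ψ x * g x) 2 (volume.restrict (tsupport ψ)) :=
    (memLp_mul_top t1 mf').add (memLp_mul_top t0 mg')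
  have mb : MemLp (fun x => ψ x * f x) 2 (volume.restrict (tsupport ψ)) := memLp_mul_top t0 mf'
  have key := DC.lt_limit mf' mg' ma mb fun ε hε => by
    obtain ⟨w, hw, e0, e1⟩ := ha ε hε
    have hw1 : ContDiff ℝ 1 w := hw.of_le top_one
    have mw := memLp_on_compact hK hw.continuous 2
    have mw' := memLp_on_compact hK (continuous_dd (v := v) hw1) 2
    refine ⟨w, dd v w, mw, mw', e0, e1, ?_⟩
    have hs' : tsupport (fun x => ψ x * w x) ⊆ tsupport ψ := tsupport_mul_subset_left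
    have h2 := ht (fun x => ψ x * w x) ⟨h1.mul hw1, hc.mul_right, hs'.trans hs⟩
    rw [DC.lt_restrict hΩ hs (fun p hp => by
        rw [dd_eq_zero_of_notMem (fun h => hp (hs' h)), mul_zero]),
      DC.lt_restrict hΩ hs (fun p hp => by rw [z0 p hp, zero_mul, mul_zero])] at h2
    have i1 : Integrable (fun x => w x * (dd v ψ x * f x + ψ x * g x))
        (volume.restrict (tsupport ψ)) := mw.integrable_mul ma
    have i2 : Integrable (fun x => dd v w x * (ψ x * f x)) (volume.restrict (tsupport ψ)) :=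
      mw'.integrable_mul mb
    have i3 : Integrable (fun x => f x * dd v (fun x => ψ x * w x) x)
        (volume.restrict (tsupport ψ)) :=
      mf'.integrable_mul (memLp_on_compact hK (continuous_dd (v := v) (h1.mul hw1)) 2)
    have i4 : Integrable (fun x => g x * (ψ x * w x)) (volume.restrict (tsupport ψ)) :=
      mg'.integrable_mul (memLp_on_compact hK (h1.mul hw1).continuous 2)
    have h3 := add_eq_zero_iff_eq_neg.2 h2
    rw [← integral_add i3 i4] at h3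
    rw [← add_eq_zero_iff_eq_neg, ← integral_add i1 i2, ← h3]
    refine integral_congr_ae (Eventually.of_forall fun x => ?_)
    simp only
    rw [dd_mul (h1.differentiable one_ne_zero x) (hw1.differentiable one_ne_zero x)]
    ring
  have i1 : Integrable (fun x => f x * (dd v ψ x * f x + ψ x * g x))
      (volume.restrict (tsupport ψ)) := mf'.integrable_mul ma
  have i2 : Integrable (fun x => g x * (ψ x * f x)) (volume.restrict (tsupport ψ)) :=
    mg'.integrable_mul mb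
  have i3 : Integrable (fun x => dd v ψ x * f x ^ 2) (volume.restrict (tsupport ψ)) := by
    have : Integrable (fun x => f x * (dd v ψ x * f x)) (volume.restrict (tsupport ψ)) :=
      mf'.integrable_mul (memLp_mul_top t1 mf')
    exact this.congr (Eventually.of_forall fun x => by simp only; ring)
  have i4 : Integrable (fun x => 2 * ψ x * (f x * g x)) (volume.restrict (tsupport ψ)) :=
    (i2.const_mul 2).congr (Eventually.of_forall fun x => by simp only; ring)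
  have h3 := add_eq_zero_iff_eq_neg.2 key
  rw [← integral_add i1 i2] at h3
  rw [DC.lt_restrict hΩ hs (fun p hp => by rw [z1 p hp, zero_mul]),
    DC.lt_restrict hΩ hs (fun p hp => by rw [z0 p hp, mul_zero, zero_mul]),
    ← add_eq_zero_iff_eq_neg, ← integral_add i3 i4, ← h3]
  refine integral_congr_ae (Eventually.of_forall fun x => ?_)
  simp only
  ring

theorem ibp_int {μ : Measure (ℝ × ℝ)} {W f g : ℝ × ℝ → ℝ} (hW : MemLp W ⊤ μ) (hf : MemLp f 2 μ)
    (hg : MemLp g 2 μ) : Integrable (fun x => W x * (f x * g x)) μ := by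
  have : Integrable (fun x => f x * (W x * g x)) μ := hf.integrable_mul (memLp_mul_top hW hg)
  exact this.congr (Eventually.of_forall fun x => by simp only; ring)

theorem ibp_join {Ω : Set (ℝ × ℝ)} {u g : ℝ × ℝ → ℂ} (mu : MemLp u 2 (volume.restrict Ω))
    (mg : MemLp g 2 (volume.restrict Ω)) {ψ : ℝ × ℝ → ℝ} (hψ : Fld Ω ψ) (v : ℝ × ℝ)
    (h : ∀ L : ℂ →L[ℝ] ℝ, ∫ x in Ω, dd v ψ x * L (u x) ^ 2 =
      - ∫ x in Ω, 2 * ψ x * (L (u x) * L (g x))) :
    ∫ p in Ω, dd v ψ p * ‖u p‖ ^ 2 =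
      - ∫ p in Ω, 2 * ψ p * ((u p).re * (g p).re + (u p).im * (g p).im) := by
  have t0 : MemLp (fun x => 2 * ψ x) ⊤ (volume.restrict Ω) :=
    (ibp_top hψ.1.continuous hψ.2.1).const_mul 2
  have t1 : MemLp (dd v ψ) ⊤ (volume.restrict Ω) :=
    ibp_top (continuous_dd hψ.1) (hasCompactSupport_dd hψ.2.1)
  have h1 := h Complex.reCLM
  have h2 := h Complex.imCLM
  simp only [Complex.reCLM_apply, Complex.imCLM_apply, sq] at h1 h2
  have a1 : MemLp (fun x => (u x).re) 2 (volume.restrict Ω) := mu.re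
  have a2 : MemLp (fun x => (u x).im) 2 (volume.restrict Ω) := mu.im
  have b1 : MemLp (fun x => (g x).re) 2 (volume.restrict Ω) := mg.re
  have b2 : MemLp (fun x => (g x).im) 2 (volume.restrict Ω) := mg.im
  simp only [Complex.sq_norm, Complex.normSq_apply, mul_add]
  rw [integral_add (ibp_int t1 a1 a1) (ibp_int t1 a2 a2),
    integral_add (ibp_int t0 a1 b1) (ibp_int t0 a2 b2), h1, h2]
  ring

theorem sq_ibp {Ω : Set (ℝ × ℝ)} (hΩ : IsOpen Ω) {u g₁ g₂ : ℝ × ℝ → ℂ} (h : IsH1 Ω u g₁ g₂)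
    {ψ : ℝ × ℝ → ℝ} (hψ : Fld Ω ψ) :
    (∫ p in Ω, dd (1, 0) ψ p * ‖u p‖ ^ 2 =
      - ∫ p in Ω, 2 * ψ p * ((u p).re * (g₁ p).re + (u p).im * (g₁ p).im)) ∧
    (∫ p in Ω, dd (0, 1) ψ p * ‖u p‖ ^ 2 =
      - ∫ p in Ω, 2 * ψ p * ((u p).re * (g₂ p).re + (u p).im * (g₂ p).im)) := by
  have ht := fun (φ : ℝ × ℝ → ℝ) (hφ : Fld Ω φ) =>
    DC.lip_test hΩ h hφ.1.locallyLipschitz.locallyLipschitzOn hφ.2.1 hφ.2.2
  constructor
  · refine ibp_join h.memLp_u h.memLp_g₁ hψ _ fun L => ?_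
    have hw := h.weakGrad L
    refine ibp_core hΩ _ hψ hw.mu hw.m₁ (fun φ hφ => ?_) fun ε hε => ?_
    · rw [DC.clm_integral_mul L h.memLp_u (continuous_dd hφ.1) (hasCompactSupport_dd hφ.2.1),
        DC.clm_integral_mul L h.memLp_g₁ hφ.1.continuous hφ.2.1, (ht φ hφ).1, map_neg]
    · obtain ⟨w, h1, e0, e1, -⟩ := hw.approx hΩ hψ.2.1 hψ.2.2 hε
      exact ⟨w, h1, e0, e1⟩
  · refine ibp_join h.memLp_u h.memLp_g₂ hψ _ fun L => ?_
    have hw := h.weakGrad L
    refine ibp_core hΩ _ hψ hw.mu hw.m₂ (fun φ hφ => ?_) fun ε hε => ?_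
    · rw [DC.clm_integral_mul L h.memLp_u (continuous_dd hφ.1) (hasCompactSupport_dd hφ.2.1),
        DC.clm_integral_mul L h.memLp_g₂ hφ.1.continuous hφ.2.1, (ht φ hφ).2, map_neg]
    · obtain ⟨w, h1, e0, -, e2⟩ := hw.approx hΩ hψ.2.1 hψ.2.2 hε
      exact ⟨w, h1, e0, e2⟩

theorem ibp_one {Ω : Set (ℝ × ℝ)} {u g : ℝ × ℝ → ℂ} (mu : MemLp u 2 (volume.restrict Ω))
    (mg : MemLp g 2 (volume.restrict Ω)) {A W : ℝ × ℝ → ℝ} (hA : MemLp A ⊤ (volume.restrict Ω))
    (hW : Fld Ω W) (v : ℝ × ℝ)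
    (h : ∫ p in Ω, dd v W p * ‖u p‖ ^ 2 =
      - ∫ p in Ω, 2 * W p * ((u p).re * (g p).re + (u p).im * (g p).im)) :
    Integrable (fun p => (dd v W p - W p ^ 2) * ‖u p‖ ^ 2) (volume.restrict Ω) ∧
    Integrable (fun p => ‖-Complex.I * g p - (A p : ℂ) * u p‖ ^ 2) (volume.restrict Ω) ∧
    ∫ p in Ω, (dd v W p - W p ^ 2) * ‖u p‖ ^ 2 ≤
      ∫ p in Ω, ‖-Complex.I * g p - (A p : ℂ) * u p‖ ^ 2 := by
  have t0 : MemLp W ⊤ (volume.restrict Ω) := ibp_top hW.1.continuous hW.2.1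
  have t1 : MemLp (dd v W) ⊤ (volume.restrict Ω) :=
    ibp_top (continuous_dd hW.1) (hasCompactSupport_dd hW.2.1)
  have a1 : MemLp (fun x => (u x).re) 2 (volume.restrict Ω) := mu.re
  have a2 : MemLp (fun x => (u x).im) 2 (volume.restrict Ω) := mu.im
  have b1 : MemLp (fun x => (g x).re) 2 (volume.restrict Ω) := mg.re
  have b2 : MemLp (fun x => (g x).im) 2 (volume.restrict Ω) := mg.im
  have i1 : Integrable (fun p => dd v W p * ‖u p‖ ^ 2) (volume.restrict Ω) :=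
    (ibp_int t1 mu.norm mu.norm).congr (Eventually.of_forall fun x => by simp only; ring)
  have i2 : Integrable (fun p => W p ^ 2 * ‖u p‖ ^ 2) (volume.restrict Ω) :=
    (memLp_mul_top t0 mu.norm).integrable_sq.congr
      (Eventually.of_forall fun x => by simp only; ring)
  have i3 : Integrable (fun p => 2 * W p * ((u p).re * (g p).re + (u p).im * (g p).im))
      (volume.restrict Ω) :=
    ((ibp_int (t0.const_mul 2) a1 b1).add (ibp_int (t0.const_mul 2) a2 b2)).congr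
      (Eventually.of_forall fun x => by simp only [Pi.add_apply]; ring)
  have i4 : Integrable (fun p => ‖-Complex.I * g p - (A p : ℂ) * u p‖ ^ 2)
      (volume.restrict Ω) := by
    simp only [DC.sm_nrm]
    exact (b2.add ((memLp_mul_top hA a1).const_mul _)).integrable_sq.add
      (b1.add ((memLp_mul_top hA a2).const_mul _)).integrable_sq
  simp only [sub_mul]
  refine ⟨i1.sub i2, i4, ?_⟩
  rw [integral_sub i1 i2, h, ← integral_neg, ← integral_sub i3.fun_neg i2]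
  refine integral_mono (i3.fun_neg.sub i2) i4 fun p => ?_
  simp only
  rw [DC.sm_nrm, Complex.sq_norm, Complex.normSq_apply]
  nlinarith [sq_nonneg ((g p).im + -1 * (A p * (u p).re) + W p * (u p).im),
    sq_nonneg ((g p).re + 1 * (A p * (u p).im) + W p * (u p).re)]

theorem cal_le_En {Ω : Set (ℝ × ℝ)} (hΩ : IsOpen Ω) {u g₁ g₂ : ℝ × ℝ → ℂ} (h : IsH1 Ω u g₁ g₂)
    {A₁ A₂ : ℝ × ℝ → ℝ} (hA₁ : MemLp A₁ ⊤ (volume.restrict Ω))
    (hA₂ : MemLp A₂ ⊤ (volume.restrict Ω)) {W₁ W₂ : ℝ × ℝ → ℝ} (h₁ : Fld Ω W₁) (h₂ : Fld Ω W₂) :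
    ∫ p in Ω, cal W₁ W₂ p * ‖u p‖ ^ 2 ≤ En Ω A₁ A₂ u g₁ g₂ := by
  obtain ⟨i1, j1, e1⟩ := ibp_one h.memLp_u h.memLp_g₁ hA₁ h₁ _ (sq_ibp hΩ h h₁).1
  obtain ⟨i2, j2, e2⟩ := ibp_one h.memLp_u h.memLp_g₂ hA₂ h₂ _ (sq_ibp hΩ h h₂).2
  rw [En, integral_add j1 j2]
  refine le_trans (le_of_eq ?_) (add_le_add e1 e2)
  rw [← integral_add i1 i2]
  refine integral_congr_ae (Eventually.of_forall fun x => ?_)
  simp only [cal]
  ring

end Pool.Agent.Lib.MP_d36e13_an.ND
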