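import Pool.Agent.Lib.MP_d36e13_an.ND.Pol

/-!
Integrability of the Cauchy kernel.
-/

open MeasureTheory Set Filter Topology Metric
open scoped ENNReal ContDiff

namespace Pool.Agent.Lib.MP_d36e13_an.ND

theorem intg_kernel (R : ℝ) :
    Integrable ((ball (0 : ℝ × ℝ) R).indicator fun w => (cz w)⁻¹) := by
  rw [integrable_indicator_iff measurableSet_ball]
  refine integrableOn_ball_of_norm_le_rpow (C := 1) (α := 1) (by simp) (by simp)
    (ae_of_all _ fun w => ?_) continuous_cz.measurable.inv.aestronglyMeasurable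
  rw [norm_inv, one_mul, Real.rpow_neg_one]
  rcases eq_or_ne w 0 with rfl | hw
  · simp [cz]
  · refine inv_anti₀ (norm_pos_iff.2 hw) ?_
    rw [Prod.norm_def]
    refine max_le ?_ ?_
    · rw [Real.norm_eq_abs, ← cz_re w]
      exact Complex.abs_re_le_norm _
    · rw [Real.norm_eq_abs, ← cz_im w]
      exact Complex.abs_im_le_norm _

theorem integrable_cauchy {a b : ℝ × ℝ → ℂ} (ha : Continuous a) (hb : Continuous b)
    (sa : HasCompactSupport a) (sb : HasCompactSupport b) :
    Integrable (fun q : (ℝ × ℝ) × (ℝ × ℝ) => a q.1 * (b q.2 / (cz q.2 - cz q.1)))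
      (volume.prod volume) := by
  obtain ⟨A, hA⟩ := ha.bounded_above_of_compact_support sa
  obtain ⟨Ra, hRa⟩ := sa.isCompact.isBounded.subset_ball 0
  obtain ⟨Rb, hRb⟩ := sb.isCompact.isBounded.subset_ball 0
  have h1 := (hb.integrable_of_hasCompactSupport (μ := volume) sb).convolution_integrand
    (ContinuousLinearMap.mul ℂ ℂ) (intg_kernel (Ra + Rb))
  have h2 := h1.bdd_mul (f := fun q : (ℝ × ℝ) × (ℝ × ℝ) => -a q.1) (c := A)
    (ha.comp continuous_fst).neg.aestronglyMeasurable (ae_of_all _ fun q => by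
      rw [norm_neg]
      exact hA _)
  refine h2.congr (ae_of_all _ fun q => ?_)
  simp only [ContinuousLinearMap.mul_apply']
  by_cases h3 : a q.1 = 0
  · simp [h3]
  by_cases h4 : b q.2 = 0
  · simp [h4]
  have h5 := mem_ball_zero_iff.1 (hRa (subset_tsupport _ h3))
  have h6 := mem_ball_zero_iff.1 (hRb (subset_tsupport _ h4))
  rw [indicator_of_mem (mem_ball_zero_iff.2 ((norm_sub_le _ _).trans_lt (add_lt_add h5 h6))),
    cz_sub, ← neg_sub (cz q.2), inv_neg, div_eq_mul_inv]
  ring

end Pool.Agent.Lib.MP_d36e13_an.ND
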