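import Pool.Agent.Lib.MP_d36e13_an.ND.Mag

/-!
The magnetic field bounds the energy from below: weak case.
-/

open MeasureTheory Set Filter Topology Metric
open scoped ENNReal ContDiff

namespace Pool.Agent.Lib.MP_d36e13_an.ND

theorem magw_res {K S : Set (ℝ × ℝ)} (hs : K ⊆ S) {F : ℝ × ℝ → ℝ} (h : ∀ p, p ∉ K → F p = 0) :
    ∫ p in S, F p = ∫ p in K, F p := by
  rw [setIntegral_eq_integral_of_forall_compl_eq_zero h,
    setIntegral_eq_integral_of_forall_compl_eq_zero fun p hp => h p fun hk => hp (hs hk)]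

theorem magw_cut {K : Set (ℝ × ℝ)} (hK : IsCompact K) {χ p P : ℝ × ℝ → ℝ} (hχ : Continuous χ)
    (h1 : ∀ x, |χ x| ≤ 1) (mp : MemLp p 2 (volume.restrict K)) (hP : Continuous P) :
    Q K (fun x => χ x * P x - χ x * p x) ≤ ∫ x in K, (P x - p x) ^ 2 := by
  have mχ := memLp_on_compact hK hχ ⊤
  have mP := memLp_on_compact hK hP 2
  refine integral_mono ((memLp_mul_top mχ mP).sub (memLp_mul_top mχ mp)).integrable_sq
    (mP.sub mp).integrable_sq fun x => ?_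
  have := (sq_le_one_iff_abs_le_one _).2 (h1 x)
  have e : (χ x * P x - χ x * p x) ^ 2 = χ x ^ 2 * (P x - p x) ^ 2 := by ring
  simp only [e]
  exact mul_le_of_le_one_left (sq_nonneg _) this

theorem magw_term {K : Set (ℝ × ℝ)} (hK : IsCompact K) {A χ p q g P R : ℝ × ℝ → ℝ} {v : ℝ × ℝ}
    {B C ε s t : ℝ} (hs : s ^ 2 = 1) (hB0 : 0 ≤ B) (hC0 : 0 ≤ C) (ht : 0 < t) (hε : 0 ≤ ε)
    (hA : MemLp A ⊤ (volume.restrict K)) (hB : ∀ᵐ x ∂(volume.restrict K), A x ^ 2 ≤ B)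
    (hχ : ContDiff ℝ 1 χ) (h1 : ∀ x, |χ x| ≤ 1)
    (hC : ∀ᵐ x ∂(volume.restrict K), dd v χ x ^ 2 ≤ C)
    (mp : MemLp p 2 (volume.restrict K)) (mq : MemLp q 2 (volume.restrict K))
    (mg : MemLp g 2 (volume.restrict K)) (hP : Continuous P) (hR : ContDiff ℝ 1 R)
    (e1 : ∫ x in K, (P x - p x) ^ 2 ≤ ε) (e2 : ∫ x in K, (R x - q x) ^ 2 ≤ ε)
    (e3 : ∫ x in K, (dd v R x - g x) ^ 2 ≤ ε) :
    Q K (fun x => dd v (fun y => χ y * R y) x + s * (A x * (χ x * P x))) ≤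
      (1 + t) * (2 * Q K (fun x => g x + s * (A x * p x)) + 2 * Q K (fun x => dd v χ x * q x)) +
      (1 + 1 / t) * ((2 + 2 * B) * ((2 + 2 * C) * ε)) := by
  have mχ := memLp_on_compact hK hχ.continuous ⊤
  have md := memLp_on_compact hK (continuous_dd (v := v) hχ) ⊤
  have mP := memLp_on_compact hK hP 2
  have mR := memLp_on_compact hK hR.continuous 2
  have mD := memLp_on_compact hK (continuous_dd (v := v) hR) 2
  have mh := memLp_on_compact hK (continuous_dd (v := v) (hχ.mul hR)) 2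
  have mg' : MemLp (fun x => dd v χ x * q x + χ x * g x) 2 (volume.restrict K) :=
    (memLp_mul_top md mq).add (memLp_mul_top mχ mg)
  have mX : MemLp (fun x => g x + s * (A x * p x)) 2 (volume.restrict K) :=
    mg.add ((memLp_mul_top hA mp).const_mul s)
  have f1 : Q K (fun x => χ x * P x - χ x * p x) ≤ (2 + 2 * C) * ε := by
    have := magw_cut hK hχ.continuous h1 mp hP
    nlinarith [mul_nonneg hC0 hε]
  have f2 : Q K (fun x => dd v (fun y => χ y * R y) x - (dd v χ x * q x + χ x * g x)) ≤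
      (2 + 2 * C) * ε := by
    have h2 := Q_le (mh.sub mg') (mD.sub mg) (mR.sub mq) (a := 2) (c := 2 * C) (by
      filter_upwards [hC] with x hx
      have i1 := mul_le_of_le_one_left (sq_nonneg (dd v R x - g x))
        ((sq_le_one_iff_abs_le_one _).2 (h1 x))
      have i2 := mul_le_mul_of_nonneg_right hx (sq_nonneg (R x - q x))
      simp only [Pi.sub_apply]
      rw [dd_mul (hχ.differentiable one_ne_zero x) (hR.differentiable one_ne_zero x)]
      nlinarith [sq_nonneg (dd v χ x * (R x - q x) - χ x * (dd v R x - g x))])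
    refine le_trans h2 ?_
    have i1 : Q K (dd v R - g) ≤ ε := e3
    have i2 : Q K (R - q) ≤ ε := e2
    nlinarith [mul_le_mul_of_nonneg_left i2 hC0]
  have f3 := DC.sm_comb hs hB0 ht hA hB (memLp_mul_top mχ mp) (memLp_mul_top mχ mP) mg' mh f1 f2
  have f4 := Q_le (mg'.add ((memLp_mul_top hA (memLp_mul_top mχ mp)).const_mul s)) mX
    (memLp_mul_top md mq) (a := 2) (c := 2) (Eventually.of_forall fun x => by
      have i1 := mul_le_of_le_one_left (sq_nonneg (g x + s * (A x * p x)))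
        ((sq_le_one_iff_abs_le_one _).2 (h1 x))
      simp only [Pi.add_apply]
      nlinarith [sq_nonneg (dd v χ x * q x - χ x * (g x + s * (A x * p x)))])
  exact f3.trans (add_le_add_left (mul_le_mul_of_nonneg_left f4 (by positivity)) _)

theorem magw_lim {L R : ℝ}
    (h : ∀ t, 0 < t → ∃ C, ∀ ε, 0 < ε → L ≤ (1 + t) * ((1 + t) * R) + C * ε) : L ≤ R := by
  have h1 : ∀ t, 0 < t → L ≤ (1 + t) * ((1 + t) * R) := fun t ht => by
    obtain ⟨C, hC⟩ := h t ht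
    have c : Tendsto (fun ε : ℝ => (1 + t) * ((1 + t) * R) + C * ε) (𝓝[>] 0)
        (𝓝 ((1 + t) * ((1 + t) * R) + C * 0)) :=
      (Continuous.tendsto (by fun_prop) 0).mono_left nhdsWithin_le_nhds
    rw [mul_zero, add_zero] at c
    exact ge_of_tendsto c (eventually_nhdsWithin_of_forall hC)
  have c : Tendsto (fun t : ℝ => (1 + t) * ((1 + t) * R)) (𝓝[>] 0) (𝓝 ((1 + 0) * ((1 + 0) * R))) :=
    (Continuous.tendsto (by fun_prop) 0).mono_left nhdsWithin_le_nhds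
  simp only [add_zero, one_mul] at c
  exact ge_of_tendsto c (eventually_nhdsWithin_of_forall h1)

theorem magw_bound {μ : Measure (ℝ × ℝ)} {A₁ A₂ : ℝ × ℝ → ℝ} (h₁ : MemLp A₁ ⊤ μ)
    (h₂ : MemLp A₂ ⊤ μ) : ∃ B : ℝ, 0 ≤ B ∧ (∀ᵐ x ∂μ, A₁ x ^ 2 ≤ B) ∧ ∀ᵐ x ∂μ, A₂ x ^ 2 ≤ B := by
  obtain ⟨B₁, b₁⟩ := exists_ae_bound h₁
  obtain ⟨B₂, b₂⟩ := exists_ae_bound h₂
  exact ⟨max 0 (max B₁ B₂), le_max_left _ _,
    b₁.mono fun x hx => hx.trans ((le_max_left _ _).trans (le_max_right _ _)),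
    b₂.mono fun x hx => hx.trans ((le_max_right _ _).trans (le_max_right _ _))⟩

theorem magw_test {Ω : Set (ℝ × ℝ)} {χ P : ℝ × ℝ → ℝ} (hχ : IsTest Ω χ) (hP : ContDiff ℝ ∞ P) :
    IsTest Ω fun x => χ x * P x :=
  ⟨hχ.1.mul hP, hχ.2.1.mul_right, (tsupport_mul_subset_left).trans hχ.2.2⟩

theorem magw_Q {Ω : Set (ℝ × ℝ)} {χ P R A : ℝ × ℝ → ℝ} (hs : tsupport χ ⊆ Ω) (v : ℝ × ℝ) (s : ℝ) :
    Q Ω (fun x => dd v (fun y => χ y * R y) x + s * (A x * (χ x * P x))) =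
      Q (tsupport χ) (fun x => dd v (fun y => χ y * R y) x + s * (A x * (χ x * P x))) := by
  refine magw_res hs fun p hp => ?_
  simp only
  rw [dd_eq_zero_of_notMem fun h => hp (tsupport_mul_subset_left h),
    image_eq_zero_of_notMem_tsupport hp]
  simp

theorem mag_weak {Ω D : Set (ℝ × ℝ)} (hΩ : IsOpen Ω) (hD : D ⊆ Ω) {b : ℝ} (hb : 0 ≤ b)
    {A₁ A₂ : ℝ × ℝ → ℝ} (hA₁ : MemLp A₁ ⊤ (volume.restrict Ω))
    (hA₂ : MemLp A₂ ⊤ (volume.restrict Ω)) (hc : Curl Ω D b A₁ A₂) {χ : ℝ × ℝ → ℝ}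
    (hχ : IsTest D χ) (h1 : ∀ p, |χ p| ≤ 1) {u g₁ g₂ : ℝ × ℝ → ℂ} (h : IsH1 Ω u g₁ g₂) :
    b * ∫ p in Ω, χ p ^ 2 * ‖u p‖ ^ 2 ≤
      2 * En Ω A₁ A₂ u g₁ g₂ + 2 * ∫ p in Ω, g2 χ p * ‖u p‖ ^ 2 := by
  have hK : IsCompact (tsupport χ) := hχ.2.1
  have hKΩ : tsupport χ ⊆ Ω := hχ.2.2.trans hD
  have hχΩ : IsTest Ω χ := ⟨hχ.1, hχ.2.1, hKΩ⟩
  have c1 : ContDiff ℝ 1 χ := hχ.1.of_le top_one
  have wp := h.weakGrad Complex.reCLM
  have wq := h.weakGrad Complex.imCLM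
  simp only [Complex.reCLM_apply, Complex.imCLM_apply] at wp wq
  have a₁ := memLp_sub hKΩ hA₁
  have a₂ := memLp_sub hKΩ hA₂
  have mχ := memLp_on_compact hK c1.continuous ⊤
  have d₁ := memLp_on_compact hK (continuous_dd (v := (1, 0)) c1) ⊤
  have d₂ := memLp_on_compact hK (continuous_dd (v := (0, 1)) c1) ⊤
  have mp := memLp_sub hKΩ wp.mu
  have mq := memLp_sub hKΩ wq.mu
  obtain ⟨B, hB, b₁, b₂⟩ := magw_bound a₁ a₂
  obtain ⟨C, hC, k₁, k₂⟩ := magw_bound d₁ d₂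
  have e1 : ∫ p in Ω, χ p ^ 2 * ‖u p‖ ^ 2 = Q (tsupport χ) (fun x => χ x * (u x).re) +
      Q (tsupport χ) (fun x => χ x * (u x).im) := by
    rw [magw_res hKΩ fun p hp => by rw [image_eq_zero_of_notMem_tsupport hp]; simp]
    unfold Q
    rw [← integral_add (memLp_mul_top mχ mp).integrable_sq (memLp_mul_top mχ mq).integrable_sq]
    refine integral_congr_ae (Eventually.of_forall fun x => ?_)
    simp only
    rw [Complex.sq_norm, Complex.normSq_apply]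
    ring
  have e2 : ∫ p in Ω, g2 χ p * ‖u p‖ ^ 2 =
      (Q (tsupport χ) (fun x => dd (1, 0) χ x * (u x).im) +
        Q (tsupport χ) (fun x => dd (1, 0) χ x * (u x).re)) +
      (Q (tsupport χ) (fun x => dd (0, 1) χ x * (u x).im) +
        Q (tsupport χ) (fun x => dd (0, 1) χ x * (u x).re)) := by
    rw [magw_res hKΩ fun p hp => by simp [g2, dd_eq_zero_of_notMem hp]]
    unfold Q
    rw [← integral_add (memLp_mul_top d₁ mq).integrable_sq (memLp_mul_top d₁ mp).integrable_sq,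
      ← integral_add (memLp_mul_top d₂ mq).integrable_sq (memLp_mul_top d₂ mp).integrable_sq]
    refine Eq.trans ?_ (integral_add
      ((memLp_mul_top d₁ mq).integrable_sq.add (memLp_mul_top d₁ mp).integrable_sq)
      ((memLp_mul_top d₂ mq).integrable_sq.add (memLp_mul_top d₂ mp).integrable_sq))
    refine integral_congr_ae (Eventually.of_forall fun x => ?_)
    simp only [g2]
    rw [Complex.sq_norm, Complex.normSq_apply]
    ring
  have q1 := Q_mono hKΩ (f := fun x => (g₁ x).im + (-1) * (A₁ x * (u x).re))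
    (wq.m₁.add ((memLp_mul_top hA₁ wp.mu).const_mul _))
  have q2 := Q_mono hKΩ (f := fun x => (g₁ x).re + 1 * (A₁ x * (u x).im))
    (wp.m₁.add ((memLp_mul_top hA₁ wq.mu).const_mul _))
  have q3 := Q_mono hKΩ (f := fun x => (g₂ x).im + (-1) * (A₂ x * (u x).re))
    (wq.m₂.add ((memLp_mul_top hA₂ wp.mu).const_mul _))
  have q4 := Q_mono hKΩ (f := fun x => (g₂ x).re + 1 * (A₂ x * (u x).im))
    (wp.m₂.add ((memLp_mul_top hA₂ wq.mu).const_mul _))
  rw [En, DC.sm_energy hA₁ hA₂ wp.mu wq.mu wp.m₁ wq.m₁ wp.m₂ wq.m₂, e1, e2]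
  refine magw_lim fun t ht => ⟨(1 + t) * (4 * ((1 + 1 / t) * ((2 + 2 * B) * (2 + 2 * C)))) +
    2 * (b * (1 + 1 / t)), fun ε hε => ?_⟩
  obtain ⟨P, hP, p0, p1, p2⟩ := wp.approx hΩ hK hKΩ hε
  obtain ⟨R, hR, r0, r1, r2⟩ := wq.approx hΩ hK hKΩ hε
  have cP := hP.of_le top_one
  have cR := hR.of_le top_one
  have t1 := magw_term hK (s := -1) (by norm_num) hB hC ht hε.le a₁ b₁ c1 h1 k₁ mp mq
    (memLp_sub hKΩ wq.m₁) hP.continuous cR p0 r0 r1
  have t2 := magw_term hK (s := 1) (by norm_num) hB hC ht hε.le a₁ b₁ c1 h1 k₁ mq mp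
    (memLp_sub hKΩ wp.m₁) hR.continuous cP r0 p0 p1
  have t3 := magw_term hK (s := -1) (by norm_num) hB hC ht hε.le a₂ b₂ c1 h1 k₂ mp mq
    (memLp_sub hKΩ wq.m₂) hP.continuous cR p0 r0 r2
  have t4 := magw_term hK (s := 1) (by norm_num) hB hC ht hε.le a₂ b₂ c1 h1 k₂ mq mp
    (memLp_sub hKΩ wp.m₂) hR.continuous cP r0 p0 p2
  rw [← magw_Q hKΩ] at t1 t2 t3 t4
  simp only [neg_mul, one_mul, ← sub_eq_add_neg] at t1 t2 t3 t4 q1 q2 q3 q4 ⊢
  have key := mag_smooth hΩ hA₁ hA₂ hc (magw_test hχΩ hP) (magw_test hχΩ hR)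
  have mP := memLp_mul_top mχ (memLp_on_compact hK hP.continuous 2)
  have mR := memLp_mul_top mχ (memLp_on_compact hK hR.continuous 2)
  rw [magw_res hχ.2.2 fun p hp => by rw [image_eq_zero_of_notMem_tsupport hp]; simp,
    integral_add mP.integrable_sq mR.integrable_sq] at key
  have ht' : 0 ≤ 1 + 1 / t := by positivity
  have low : ∀ {w W : ℝ × ℝ → ℝ}, MemLp w 2 (volume.restrict (tsupport χ)) → Continuous W →
      ∫ x in tsupport χ, (W x - w x) ^ 2 ≤ ε → Q (tsupport χ) (fun x => χ x * w x) ≤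
        (1 + t) * (∫ x in tsupport χ, (χ x * W x) ^ 2) + (1 + 1 / t) * ε := by
    intro w W mw hW e
    refine (DC.sm_Qt (memLp_mul_top mχ mw) (memLp_mul_top mχ (memLp_on_compact hK hW 2)) ht).trans
      (add_le_add_right (mul_le_mul_of_nonneg_left ?_ ht') _)
    refine le_trans (le_of_eq ?_) ((magw_cut hK c1.continuous h1 mw hW).trans e)
    exact integral_congr_ae (Eventually.of_forall fun x => by simp only; ring)
  have l1 := mul_le_mul_of_nonneg_left (add_le_add (low mp hP.continuous p0)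
    (low mq hR.continuous r0)) hb
  have l2 := mul_le_mul_of_nonneg_left (key.trans (add_le_add (add_le_add (add_le_add t1 t2) t3) t4))
    (show 0 ≤ 1 + t by positivity)
  have l3 := mul_le_mul_of_nonneg_left (add_le_add (add_le_add q1 q2) (add_le_add q3 q4))
    (show 0 ≤ (1 + t) * (1 + t) * 2 by positivity)
  nlinarith

end Pool.Agent.Lib.MP_d36e13_an.ND
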