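import Pool.Agent.Lib.MP_d36e13_an.ND.Ibp
import Pool.Agent.Lib.MP_d36e13_an.ND.MagW

/-!
Lower bound for the eigenvalue from a calibration.
-/

open MeasureTheory Set Filter Topology Metric
open scoped ENNReal ContDiff

namespace Pool.Agent.Lib.MP_d36e13_an.ND

theorem exists_compact_tail {Ω : Set (ℝ × ℝ)} (hΩ : IsOpen Ω) (hb : Bornology.IsBounded Ω)
    {f : ℝ × ℝ → ℝ} (hf : IntegrableOn f Ω) {δ : ℝ} (hδ : 0 < δ) :
    ∃ K' : Set (ℝ × ℝ), IsCompact K' ∧ K' ⊆ Ω ∧ ∫ p in Ω \ K', f p ≤ δ := by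
  obtain ⟨F, hFc, hFs, hFU, hFm⟩ := hΩ.exists_iUnion_isClosed
  have h1 : Tendsto (fun n => ∫ p in F n, f p) atTop (𝓝 (∫ p in Ω, f p)) := by
    have h := tendsto_setIntegral_of_monotone (μ := volume) (f := f)
      (fun n => (hFc n).measurableSet) hFm (by rw [hFU]; exact hf)
    rwa [hFU] at h
  obtain ⟨n, hn⟩ := (h1.eventually (lt_mem_nhds (sub_lt_self (∫ p in Ω, f p) hδ))).exists
  refine ⟨F n, isCompact_of_isClosed_isBounded (hFc n) (hb.subset (hFs n)), hFs n, ?_⟩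
  rw [setIntegral_sdiff (hFc n).measurableSet hf (hFs n)]
  linarith

theorem low_integrable_mul {Ω : Set (ℝ × ℝ)} (hΩ : IsOpen Ω) (hb : Bornology.IsBounded Ω)
    {w f : ℝ × ℝ → ℝ} (hw : Continuous w) (hf : IntegrableOn f Ω) :
    IntegrableOn (fun p => w p * f p) Ω := by
  obtain ⟨C, hC⟩ := hb.isCompact_closure.exists_bound_of_continuousOn hw.continuousOn
  refine Integrable.bdd_mul (c := C) hf hw.aestronglyMeasurable ?_
  exact (ae_restrict_iff' hΩ.measurableSet).2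
    (Eventually.of_forall fun p hp => hC p (subset_closure hp))

theorem low_continuous_cal {Ω : Set (ℝ × ℝ)} {W₁ W₂ : ℝ × ℝ → ℝ} (h₁ : Fld Ω W₁)
    (h₂ : Fld Ω W₂) : Continuous (cal W₁ W₂) := by
  have a1 := continuous_dd (v := (1, 0)) h₁.1
  have a2 := continuous_dd (v := (0, 1)) h₂.1
  have a3 := h₁.1.continuous
  have a4 := h₂.1.continuous
  unfold cal
  fun_prop

theorem low_cal_bound {Ω D' K' : Set (ℝ × ℝ)} (hΩ : IsOpen Ω) (hb : Bornology.IsBounded Ω)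
    (hD' : MeasurableSet D') (hK' : MeasurableSet K') {κ M : ℝ} (hκ : 0 ≤ κ)
    {w f : ℝ × ℝ → ℝ} (hw : Continuous w) (hf : IntegrableOn f Ω) (hf0 : ∀ p, 0 ≤ f p)
    (h1 : ∀ p ∈ K', p ∉ D' → κ ≤ w p) (h2 : ∀ p ∈ Ω, p ∉ D' → 0 ≤ w p)
    (h3 : ∀ p ∈ Ω, -M ≤ w p) :
    κ * (∫ p in Ω, f p) - (κ + M) * (∫ p in Ω, D'.indicator f p) - κ * ∫ p in Ω \ K', f p ≤
      ∫ p in Ω, w p * f p := by
  have e : ∫ p in Ω \ K', f p = ∫ p in Ω, K'ᶜ.indicator f p := by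
    rw [setIntegral_indicator hK'.compl, Set.sdiff_eq]
  have i1 : Integrable (fun p => D'.indicator f p) (volume.restrict Ω) := hf.indicator hD'
  have i2 : Integrable (fun p => K'ᶜ.indicator f p) (volume.restrict Ω) := hf.indicator hK'.compl
  have i3 : Integrable (fun p => κ * f p - (κ + M) * D'.indicator f p) (volume.restrict Ω) :=
    (hf.const_mul _).sub (i1.const_mul _)
  rw [e, ← integral_const_mul, ← integral_const_mul, ← integral_const_mul,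
    ← integral_sub (hf.const_mul _) (i1.const_mul _), ← integral_sub i3 (i2.const_mul _)]
  refine setIntegral_mono_on (i3.sub (i2.const_mul _))
    (low_integrable_mul hΩ hb hw hf) hΩ.measurableSet fun p hp => ?_
  have h0 := hf0 p
  by_cases hpD : p ∈ D'
  · have a := mul_le_mul_of_nonneg_right (h3 p hp) h0
    have b : 0 ≤ κ * K'ᶜ.indicator f p :=
      mul_nonneg hκ (Set.indicator_nonneg (fun q _ => hf0 q) p)
    rw [Set.indicator_of_mem hpD]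
    linarith
  · rw [Set.indicator_of_notMem hpD]
    by_cases hpK : p ∈ K'
    · have a := mul_le_mul_of_nonneg_right (h1 p hpK hpD) h0
      rw [Set.indicator_of_notMem (show p ∉ K'ᶜ from fun hh => hh hpK)]
      linarith
    · have a := mul_nonneg (h2 p hp hpD) h0
      rw [Set.indicator_of_mem (show p ∈ K'ᶜ from hpK)]
      linarith

theorem lam_ge_of_cal {Ω D : Set (ℝ × ℝ)} (hΩ : IsOpen Ω) (hb : Bornology.IsBounded Ω)
    (hD : D ⊆ Ω) {κ c τ : ℝ} (hκ : 0 ≤ κ) (h : Cal Ω D κ c) (hτ : 0 < τ) (hτ1 : τ < 1) :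
    ∃ b₀ : ℝ, ∀ b : ℝ, b₀ ≤ b → ∀ A₁ A₂ : ℝ × ℝ → ℝ, MemLp A₁ ⊤ (volume.restrict Ω) →
      MemLp A₂ ⊤ (volume.restrict Ω) → Curl Ω D b A₁ A₂ →
      ENNReal.ofReal ((1 - τ) * κ - τ * c) ≤ lam Ω A₁ A₂ := by
  obtain ⟨D', χ, M, hD', hχ, hχ1, hχD, hχc, hM, hW⟩ := h
  refine ⟨2 * (κ + M) / τ, fun b hb0 A₁ A₂ hA₁ hA₂ hc => ?_⟩
  have hb1 : 2 * (κ + M) ≤ b * τ := (div_le_iff₀ hτ).1 hb0
  have hbn : 0 ≤ b := le_trans (by positivity) hb0
  have hc0 : 0 ≤ c := (g2_nonneg χ 0).trans (hχc 0)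
  by_contra hlt
  obtain ⟨u, g₁, g₂, hu, hE⟩ := DC.exists_of_lam_lt hA₁ hA₂ (not_le.1 hlt)
  change En Ω A₁ A₂ u g₁ g₂ < _ at hE
  have hE0 : 0 ≤ En Ω A₁ A₂ u g₁ g₂ :=
    integral_nonneg fun x => add_nonneg (sq_nonneg _) (sq_nonneg _)
  have hf : IntegrableOn (fun p => ‖u p‖ ^ 2) Ω := hu.memLp_u.norm.integrable_sq
  have hf0 : ∀ p, 0 ≤ ‖u p‖ ^ 2 := fun p => sq_nonneg _
  have hχd : ContDiff ℝ 1 χ := hχ.1.of_le (by exact_mod_cast le_top)
  have hm0 : 0 ≤ ∫ p in Ω, ‖u p‖ ^ 2 := integral_nonneg hf0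
  have hm0' : 0 ≤ ∫ p in Ω, D'.indicator (fun p => ‖u p‖ ^ 2) p :=
    integral_nonneg fun p => Set.indicator_nonneg (fun q _ => hf0 q) p
  have hA : κ * (∫ p in Ω, ‖u p‖ ^ 2) -
      (κ + M) * (∫ p in Ω, D'.indicator (fun p => ‖u p‖ ^ 2) p) ≤ En Ω A₁ A₂ u g₁ g₂ := by
    refine le_of_forall_pos_le_add fun ε hε => ?_
    obtain ⟨K', hK, hKΩ, hδ⟩ := exists_compact_tail hΩ hb hf
      (show 0 < ε / (κ + 1) by positivity)
    obtain ⟨W₁, W₂, h₁, h₂, a1, a2, a3⟩ := hW K' hK hKΩ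
    have a4 := low_cal_bound hΩ hb hD' hK.measurableSet hκ (low_continuous_cal h₁ h₂) hf hf0
      a1 a2 a3
    have a5 := cal_le_En hΩ hu hA₁ hA₂ h₁ h₂
    have a6 : κ * ∫ p in Ω \ K', ‖u p‖ ^ 2 ≤ ε := by
      refine (mul_le_mul_of_nonneg_left hδ hκ).trans ?_
      rw [← mul_div_assoc, div_le_iff₀ (by positivity)]
      nlinarith
    linarith
  have hB := mag_weak hΩ hD hbn hA₁ hA₂ hc hχ hχ1 hu
  have hB1 : ∫ p in Ω, D'.indicator (fun p => ‖u p‖ ^ 2) p ≤ ∫ p in Ω, χ p ^ 2 * ‖u p‖ ^ 2 := by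
    refine integral_mono (hf.indicator hD')
      (low_integrable_mul hΩ hb (hχd.continuous.pow 2) hf) fun p => ?_
    by_cases hp : p ∈ D'
    · simp only [Set.indicator_of_mem hp, hχD p hp]
      linarith
    · simp only [Set.indicator_of_notMem hp]
      positivity
  have hB2 : ∫ p in Ω, g2 χ p * ‖u p‖ ^ 2 ≤ c * ∫ p in Ω, ‖u p‖ ^ 2 := by
    rw [← integral_const_mul]
    exact integral_mono (low_integrable_mul hΩ hb (continuous_g2 hχd) hf) (hf.const_mul _)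
      fun p => mul_le_mul_of_nonneg_right (hχc p) (hf0 p)
  set m := ∫ p in Ω, ‖u p‖ ^ 2
  set m' := ∫ p in Ω, D'.indicator (fun p => ‖u p‖ ^ 2) p
  set E := En Ω A₁ A₂ u g₁ g₂
  have k1 : b * m' ≤ 2 * E + 2 * (c * m) := by
    have := mul_le_mul_of_nonneg_left hB1 hbn
    linarith
  have k2 : 2 * (κ + M) * m' ≤ b * τ * m' := mul_le_mul_of_nonneg_right hb1 hm0'
  have k3 : τ * (b * m') ≤ τ * (2 * E + 2 * (c * m)) := mul_le_mul_of_nonneg_left k1 hτ.le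
  have k4 : τ * E ≤ τ * (((1 - τ) * κ - τ * c) * m) := mul_le_mul_of_nonneg_left hE.le hτ.le
  have k5 : 0 ≤ τ * τ * (κ * m) := by positivity
  have k6 : 0 ≤ τ * τ * (c * m) := by positivity
  nlinarith

end Pool.Agent.Lib.MP_d36e13_an.ND
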