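import Pool.Agent.Lib.MP_d36e13_an.ND.Defs

/-!
The magnetic field bounds the energy from below: smooth case.
-/

open MeasureTheory Set Filter Topology Metric
open scoped ENNReal ContDiff

namespace Pool.Agent.Lib.MP_d36e13_an.ND

theorem mag_test {Ω : Set (ℝ × ℝ)} {p q : ℝ × ℝ → ℝ} (hp : IsTest Ω p) (hq : IsTest Ω q) :
    IsTest Ω (fun x => p x * p x + q x * q x) := by
  have hs : tsupport (fun x => p x * p x + q x * q x) ⊆ tsupport p ∪ tsupport q := by
    refine closure_minimal ?_ ((isClosed_tsupport p).union (isClosed_tsupport q))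
    intro x hx
    by_contra h
    rw [mem_union, not_or] at h
    have h1 : p x = 0 := image_eq_zero_of_notMem_tsupport h.1
    have h2 : q x = 0 := image_eq_zero_of_notMem_tsupport h.2
    exact hx (by simp [h1, h2])
  refine ⟨(hp.1.mul hp.1).add (hq.1.mul hq.1), ?_, hs.trans (union_subset hp.2.2 hq.2.2)⟩
  exact (IsCompact.union hp.2.1 hq.2.1).of_isClosed_subset (isClosed_tsupport _) hs

theorem mag_setInt {Ω : Set (ℝ × ℝ)} {f : ℝ × ℝ → ℝ} (hf : ContDiff ℝ ∞ f)
    (hc : HasCompactSupport f) (hs : tsupport f ⊆ Ω) (v : ℝ × ℝ) : ∫ x in Ω, dd v f x = 0 := by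
  rw [setIntegral_eq_integral_of_forall_compl_eq_zero
    (fun x hx => dd_eq_zero_of_notMem fun h => hx (hs h))]
  exact integral_dd_eq_zero (hf.of_le top_one) hc

theorem mag_mem {Ω : Set (ℝ × ℝ)} {f : ℝ × ℝ → ℝ} (hf : Continuous f)
    (hc : HasCompactSupport f) : MemLp f 2 (volume.restrict Ω) :=
  (hf.memLp_of_hasCompactSupport (p := 2) (μ := volume) hc).restrict Ω

theorem mag_jac {Ω : Set (ℝ × ℝ)} {p q : ℝ × ℝ → ℝ} (hp : IsTest Ω p) (hq : IsTest Ω q) :
    ∫ x in Ω, (dd (1, 0) p x * dd (0, 1) q x - dd (0, 1) p x * dd (1, 0) q x) = 0 := by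
  have key : ∀ v w : ℝ × ℝ, ContDiff ℝ ∞ (fun x => p x * dd w q x) ∧
      HasCompactSupport (fun x => p x * dd w q x) ∧
      ∫ x in Ω, dd v (fun x => p x * dd w q x) x = 0 := by
    intro v w
    have h1 : ContDiff ℝ ∞ (fun x => p x * dd w q x) := hp.1.mul (contDiff_dd_top hq.1)
    have h2 : HasCompactSupport (fun x => p x * dd w q x) := hp.2.1.mul_right
    exact ⟨h1, h2, mag_setInt h1 h2 ((tsupport_mul_subset_left).trans hp.2.2) v⟩
  obtain ⟨a1, a2, a3⟩ := key (1, 0) (0, 1)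
  obtain ⟨b1, b2, b3⟩ := key (0, 1) (1, 0)
  have i1 : Integrable (dd (1, 0) (fun x => p x * dd (0, 1) q x)) (volume.restrict Ω) :=
    ((continuous_dd (a1.of_le top_one)).integrable_of_hasCompactSupport
      (hasCompactSupport_dd a2)).restrict
  have i2 : Integrable (dd (0, 1) (fun x => p x * dd (1, 0) q x)) (volume.restrict Ω) :=
    ((continuous_dd (b1.of_le top_one)).integrable_of_hasCompactSupport
      (hasCompactSupport_dd b2)).restrict
  have e : ∀ x, dd (1, 0) p x * dd (0, 1) q x - dd (0, 1) p x * dd (1, 0) q x =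
      dd (1, 0) (fun x => p x * dd (0, 1) q x) x - dd (0, 1) (fun x => p x * dd (1, 0) q x) x := by
    intro x
    have dp : DifferentiableAt ℝ p x := (hp.1.differentiable (by simp)) x
    have dq : ∀ w, DifferentiableAt ℝ (dd w q) x := fun w =>
      ((contDiff_dd_top hq.1).differentiable (by simp)) x
    rw [dd_mul dp (dq _), dd_mul dp (dq _), dd_symm (v := (1, 0)) (w := (0, 1)) hq.1]
    ring
  simp only [e]
  rw [integral_sub i1 i2, a3, b3, sub_zero]

theorem mag_smooth {Ω D : Set (ℝ × ℝ)} (hΩ : IsOpen Ω) {b : ℝ} {A₁ A₂ : ℝ × ℝ → ℝ}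
    (hA₁ : MemLp A₁ ⊤ (volume.restrict Ω)) (hA₂ : MemLp A₂ ⊤ (volume.restrict Ω))
    (hc : Curl Ω D b A₁ A₂) {p q : ℝ × ℝ → ℝ} (hp : IsTest Ω p) (hq : IsTest Ω q) :
    b * ∫ x in D, (p x ^ 2 + q x ^ 2) ≤
      Q Ω (fun x => dd (1, 0) q x - A₁ x * p x) + Q Ω (fun x => dd (1, 0) p x + A₁ x * q x) +
      Q Ω (fun x => dd (0, 1) q x - A₂ x * p x) + Q Ω (fun x => dd (0, 1) p x + A₂ x * q x) := by
  have _ := hΩ
  have h0 := hc _ (mag_test hp hq)
  have mp : MemLp p 2 (volume.restrict Ω) := mag_mem hp.1.continuous hp.2.1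
  have mq : MemLp q 2 (volume.restrict Ω) := mag_mem hq.1.continuous hq.2.1
  have mdp : ∀ v, MemLp (dd v p) 2 (volume.restrict Ω) := fun v =>
    mag_mem (continuous_dd (hp.1.of_le top_one)) (hasCompactSupport_dd hp.2.1)
  have mdq : ∀ v, MemLp (dd v q) 2 (volume.restrict Ω) := fun v =>
    mag_mem (continuous_dd (hq.1.of_le top_one)) (hasCompactSupport_dd hq.2.1)
  have mX : MemLp (fun x => dd (1, 0) q x - A₁ x * p x) 2 (volume.restrict Ω) :=
    (mdq _).sub (memLp_mul_top hA₁ mp)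
  have mX' : MemLp (fun x => dd (1, 0) p x + A₁ x * q x) 2 (volume.restrict Ω) :=
    (mdp _).add (memLp_mul_top hA₁ mq)
  have mY : MemLp (fun x => dd (0, 1) q x - A₂ x * p x) 2 (volume.restrict Ω) :=
    (mdq _).sub (memLp_mul_top hA₂ mp)
  have mY' : MemLp (fun x => dd (0, 1) p x + A₂ x * q x) 2 (volume.restrict Ω) :=
    (mdp _).add (memLp_mul_top hA₂ mq)
  have iJ : Integrable
      (fun x => dd (1, 0) p x * dd (0, 1) q x - dd (0, 1) p x * dd (1, 0) q x)
      (volume.restrict Ω) :=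
    ((mdp _).integrable_mul (mdq _)).sub ((mdp _).integrable_mul (mdq _))
  have iW : Integrable (fun x => (dd (1, 0) p x + A₁ x * q x) * (dd (0, 1) q x - A₂ x * p x) -
      (dd (1, 0) q x - A₁ x * p x) * (dd (0, 1) p x + A₂ x * q x)) (volume.restrict Ω) :=
    (mX'.integrable_mul mY).sub (mX.integrable_mul mY')
  have e : ∀ x, A₁ x * dd (0, 1) (fun x => p x * p x + q x * q x) x -
      A₂ x * dd (1, 0) (fun x => p x * p x + q x * q x) x =
      2 * ((dd (1, 0) p x + A₁ x * q x) * (dd (0, 1) q x - A₂ x * p x) -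
      (dd (1, 0) q x - A₁ x * p x) * (dd (0, 1) p x + A₂ x * q x)) -
      2 * (dd (1, 0) p x * dd (0, 1) q x - dd (0, 1) p x * dd (1, 0) q x) := by
    intro x
    have dp : DifferentiableAt ℝ p x := (hp.1.differentiable (by simp)) x
    have dq : DifferentiableAt ℝ q x := (hq.1.differentiable (by simp)) x
    rw [dd_add (dp.fun_mul dp) (dq.fun_mul dq), dd_add (dp.fun_mul dp) (dq.fun_mul dq),
      dd_mul dp dp, dd_mul dq dq, dd_mul dp dp, dd_mul dq dq]
    ring
  simp only [e] at h0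
  rw [integral_sub (iW.const_mul 2) (iJ.const_mul 2), integral_const_mul 2
    (fun x => dd (1, 0) p x * dd (0, 1) q x - dd (0, 1) p x * dd (1, 0) q x), mag_jac hp hq,
    mul_zero, sub_zero] at h0
  have e2 : (fun x => p x ^ 2 + q x ^ 2) = fun x => p x * p x + q x * q x := by
    funext x; ring
  rw [e2, ← h0]
  unfold Q
  have i1 := mX.integrable_sq
  have i2 := mX'.integrable_sq
  have i3 := mY.integrable_sq
  have i4 := mY'.integrable_sq
  have i12 : Integrable (fun x => (dd (1, 0) q x - A₁ x * p x) ^ 2 +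
      (dd (1, 0) p x + A₁ x * q x) ^ 2) (volume.restrict Ω) := i1.add i2
  have i123 : Integrable (fun x => (dd (1, 0) q x - A₁ x * p x) ^ 2 +
      (dd (1, 0) p x + A₁ x * q x) ^ 2 + (dd (0, 1) q x - A₂ x * p x) ^ 2)
      (volume.restrict Ω) := i12.add i3
  rw [← integral_add i1 i2, ← integral_add i12 i3, ← integral_add i123 i4]
  refine integral_mono (iW.const_mul 2) (i123.add i4) fun x => ?_
  beta_reduce
  generalize dd (1, 0) q x - A₁ x * p x = X
  generalize dd (1, 0) p x + A₁ x * q x = X'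
  generalize dd (0, 1) q x - A₂ x * p x = Y
  generalize dd (0, 1) p x + A₂ x * q x = Y'
  nlinarith [sq_nonneg (X' - Y), sq_nonneg (X + Y')]

end Pool.Agent.Lib.MP_d36e13_an.ND
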