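import Pool.Agent.Lib.MP_d36e13_an.ND.Defs

/-!
A bounded potential for any bounded measurable set.
-/

open MeasureTheory Set Filter Topology Metric
open scoped ENNReal ContDiff

namespace Pool.Agent.Lib.MP_d36e13_an.ND

theorem pot_one (μ : Measure ℝ) [IsFiniteMeasure μ] {f : ℝ → ℝ} (hf : ContDiff ℝ 1 f)
    (hc : HasCompactSupport f) : ∫ y, μ.real (Iio y) * deriv f y = -∫ t, f t ∂μ := by
  have h1 : Integrable (deriv f) volume :=
    (hf.continuous_deriv le_rfl).integrable_of_hasCompactSupport hc.deriv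
  have h2 : Integrable ({z : ℝ × ℝ | z.2 < z.1}.indicator fun z => deriv f z.1) (volume.prod μ) :=
    (h1.comp_fst μ).indicator (measurableSet_lt measurable_snd measurable_fst)
  have h3 : ∀ y, μ.real (Iio y) * deriv f y =
      ∫ t, {z : ℝ × ℝ | z.2 < z.1}.indicator (fun z => deriv f z.1) (y, t) ∂μ := by
    intro y
    have : (fun t => {z : ℝ × ℝ | z.2 < z.1}.indicator (fun z => deriv f z.1) (y, t)) =
        (Iio y).indicator fun _ => deriv f y := rfl
    rw [this, integral_indicator measurableSet_Iio, setIntegral_const, smul_eq_mul]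
  simp only [h3]
  rw [integral_integral_swap (f := fun y t =>
    {z : ℝ × ℝ | z.2 < z.1}.indicator (fun z => deriv f z.1) (y, t)) h2, ← integral_neg]
  refine integral_congr_ae (Eventually.of_forall fun t => ?_)
  have : (fun y => {z : ℝ × ℝ | z.2 < z.1}.indicator (fun z => deriv f z.1) (y, t)) =
      (Ioi t).indicator (deriv f) := rfl
  simp only [this]
  rw [integral_indicator measurableSet_Ioi, hc.integral_Ioi_deriv_eq hf]

theorem exists_pot {Ω D : Set (ℝ × ℝ)} (hΩ : IsOpen Ω) (hD : MeasurableSet D)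
    (hb : Bornology.IsBounded D) (b : ℝ) :
    ∃ A₁ A₂ : ℝ × ℝ → ℝ, MemLp A₁ ⊤ (volume.restrict Ω) ∧ MemLp A₂ ⊤ (volume.restrict Ω) ∧
      Curl Ω D b A₁ A₂ := by
  obtain ⟨R, hR⟩ := hb.subset_closedBall 0
  have hsub : ∀ x : ℝ, Prod.mk x ⁻¹' D ⊆ Icc (-R) R := fun x t ht => by
    have h1 : ‖((x, t) : ℝ × ℝ)‖ ≤ R := mem_closedBall_zero_iff.1 (hR ht)
    exact abs_le.1 ((norm_snd_le ((x, t) : ℝ × ℝ)).trans h1)
  have hfin : ∀ x : ℝ, IsFiniteMeasure (volume.restrict (Prod.mk x ⁻¹' D)) := fun x =>
    isFiniteMeasure_restrict.2 ((measure_mono (hsub x)).trans_lt measure_Icc_lt_top).ne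
  let a : ℝ × ℝ → ℝ := fun p => (volume.restrict (Prod.mk p.1 ⁻¹' D)).real (Iio p.2)
  have hS : MeasurableSet {q : (ℝ × ℝ) × ℝ | q.2 < q.1.2 ∧ (q.1.1, q.2) ∈ D} :=
    (measurableSet_lt measurable_snd measurable_fst.snd).inter
      ((measurable_fst.fst.prodMk measurable_snd) hD)
  have ham : Measurable a := by
    have h1 := (measurable_measure_prodMk_left (ν := volume) hS).ennreal_toReal
    have h2 : a = fun p => (volume (Prod.mk p ⁻¹'
        {q : (ℝ × ℝ) × ℝ | q.2 < q.1.2 ∧ (q.1.1, q.2) ∈ D})).toReal := by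
      funext p
      simp only [a, measureReal_def]
      rw [Measure.restrict_apply measurableSet_Iio]
      rfl
    rw [h2]
    exact h1
  have hab : ∀ p, ‖a p‖ ≤ volume.real (Icc (-R) R) := fun p => by
    rw [Real.norm_of_nonneg measureReal_nonneg, measureReal_restrict_apply measurableSet_Iio]
    exact measureReal_mono (inter_subset_right.trans (hsub _)) measure_Icc_lt_top.ne
  refine ⟨fun p => -b * a p, fun _ => 0, (memLp_top_of_bound ham.aestronglyMeasurable _
    (Eventually.of_forall hab)).const_mul _, memLp_top_const 0, fun φ hφ => ?_⟩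
  have h1 : ContDiff ℝ 1 φ := hφ.1.of_le top_one
  have hψ : Integrable (dd (0, 1) φ) volume :=
    (continuous_dd h1).integrable_of_hasCompactSupport (hasCompactSupport_dd hφ.2.1)
  have hi : Integrable (fun p => a p * dd (0, 1) φ p) volume :=
    hψ.bdd_mul ham.aestronglyMeasurable (Eventually.of_forall hab)
  have hφi : Integrable (D.indicator φ) volume :=
    (h1.continuous.integrable_of_hasCompactSupport hφ.2.1).indicator hD
  have key : ∫ p, a p * dd (0, 1) φ p = -∫ p in D, φ p := by
    rw [← integral_indicator hD, Measure.volume_eq_prod, integral_prod _ hi, integral_prod _ hφi,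
      ← integral_neg]
    refine integral_congr_ae (Eventually.of_forall fun x => ?_)
    have hx : ContDiff ℝ 1 fun y : ℝ => φ (x, y) := h1.comp (contDiff_const.prodMk contDiff_id)
    have hcx : HasCompactSupport fun y : ℝ => φ (x, y) :=
      hφ.2.1.comp_isClosedEmbedding (Isometry.isClosedEmbedding (Isometry.of_dist_eq fun s t => dist_prod_same_left))
    have := hfin x
    have h2 := pot_one (volume.restrict (Prod.mk x ⁻¹' D)) hx hcx
    have h3 : ∀ y, deriv (fun y : ℝ => φ (x, y)) y = dd (0, 1) φ (x, y) := fun y =>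
      ((h1.differentiable one_ne_zero (x, y)).hasFDerivAt.comp_hasDerivAt y
        ((hasDerivAt_const y x).prodMk (hasDerivAt_id y))).deriv
    simp only [h3] at h2
    have h4 : (fun y => D.indicator φ (x, y)) = (Prod.mk x ⁻¹' D).indicator fun y => φ (x, y) := rfl
    simp only [h4]
    rw [integral_indicator (measurable_prodMk_left hD)]
    exact h2
  rw [setIntegral_eq_integral_of_forall_compl_eq_zero fun p hp => by
    rw [dd_eq_zero_of_notMem fun h => hp (hφ.2.2 h)]; simp]
  simp only [zero_mul, sub_zero, mul_assoc]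
  rw [integral_const_mul, key]
  ring

end Pool.Agent.Lib.MP_d36e13_an.ND
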