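import Pool.Agent.Lib.MP_d36e13_an.ND.Defs

/-!
Polar coordinates.
-/

open MeasureTheory Set Filter Topology Metric
open scoped ENNReal ContDiff

namespace Pool.Agent.Lib.MP_d36e13_an.ND

theorem polar_int (z : ℝ × ℝ) (f : ℝ × ℝ → ℂ) :
    ∫ ζ, f ζ = ∫ p in Ioi (0 : ℝ) ×ˢ Ioo (-Real.pi) Real.pi, (p.1 : ℂ) * f (pt z p.1 p.2) := by
  rw [← integral_add_left_eq_self f z, ← integral_comp_polarCoord_symm, polarCoord_target]
  refine integral_congr_ae (Eventually.of_forall fun p => ?_)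
  simp only [polarCoord_symm_apply, Complex.real_smul]
  rfl

theorem fubini_both {g : ℝ × ℝ → ℂ} (hg : Continuous g) {R : ℝ} (hR : ∀ p, R ≤ p.1 → g p = 0) :
    (∫ p in Ioi (0 : ℝ) ×ˢ Ioo (-Real.pi) Real.pi, g p =
      ∫ r in Ioi (0 : ℝ), ∫ θ in Ioo (-Real.pi) Real.pi, g (r, θ)) ∧
    (∫ p in Ioi (0 : ℝ) ×ˢ Ioo (-Real.pi) Real.pi, g p =
      ∫ θ in Ioo (-Real.pi) Real.pi, ∫ r in Ioi (0 : ℝ), g (r, θ)) ∧
    IntegrableOn g (Ioi (0 : ℝ) ×ˢ Ioo (-Real.pi) Real.pi) := by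
  have hi : IntegrableOn g (Ioi (0 : ℝ) ×ˢ Ioo (-Real.pi) Real.pi) := by
    have h1 : IntegrableOn g (Icc (0 : ℝ) R ×ˢ Icc (-Real.pi) Real.pi) :=
      hg.continuousOn.integrableOn_compact (isCompact_Icc.prod isCompact_Icc)
    refine h1.of_forall_sdiff_eq_zero (measurableSet_Ioi.prod measurableSet_Ioo) fun p hp => ?_
    refine hR p (not_lt.1 fun h => hp.2 ⟨⟨le_of_lt hp.1.1, h.le⟩, Ioo_subset_Icc_self hp.1.2⟩)
  have hi' := hi
  rw [IntegrableOn, Measure.volume_eq_prod, ← Measure.prod_restrict] at hi'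
  refine ⟨?_, ?_, hi⟩
  · rw [Measure.volume_eq_prod, ← Measure.prod_restrict, integral_prod _ hi']
  · rw [Measure.volume_eq_prod, ← Measure.prod_restrict, integral_prod_symm _ hi']

theorem hasDerivAt_ray {u : ℝ × ℝ → ℝ} (hu : ContDiff ℝ 1 u) (z : ℝ × ℝ) (r θ : ℝ) :
    HasDerivAt (fun s => u (pt z s θ))
      (Real.cos θ * dd (1, 0) u (pt z r θ) + Real.sin θ * dd (0, 1) u (pt z r θ)) r := by
  have h1 : HasDerivAt (fun s => pt z s θ) (Real.cos θ, Real.sin θ) r := by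
    refine HasDerivAt.prodMk ?_ ?_
    · simpa using ((hasDerivAt_id r).mul_const (Real.cos θ)).const_add z.1
    · simpa using ((hasDerivAt_id r).mul_const (Real.sin θ)).const_add z.2
  have h2 := ((hu.differentiable one_ne_zero) (pt z r θ)).hasFDerivAt.comp_hasDerivAt r h1
  rw [clm_apply_eq] at h2
  exact h2

theorem hasDerivAt_circ {u : ℝ × ℝ → ℝ} (hu : ContDiff ℝ 1 u) (z : ℝ × ℝ) (r θ : ℝ) :
    HasDerivAt (fun s => u (pt z r s))
      (r * (-Real.sin θ * dd (1, 0) u (pt z r θ) + Real.cos θ * dd (0, 1) u (pt z r θ))) θ := by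
  have h1 : HasDerivAt (fun s => pt z r s) (r * -Real.sin θ, r * Real.cos θ) θ :=
    HasDerivAt.prodMk (((Real.hasDerivAt_cos θ).const_mul r).const_add z.1)
      (((Real.hasDerivAt_sin θ).const_mul r).const_add z.2)
  have h2 := ((hu.differentiable one_ne_zero) (pt z r θ)).hasFDerivAt.comp_hasDerivAt θ h1
  rw [clm_apply_eq] at h2
  refine h2.congr_deriv ?_
  simp only [dd]
  ring

theorem exists_far {K : Set (ℝ × ℝ)} (hK : IsCompact K) (z : ℝ × ℝ) :
    ∃ R : ℝ, 0 < R ∧ ∀ r θ : ℝ, R ≤ r → pt z r θ ∉ K := by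
  obtain ⟨M, hM⟩ := hK.exists_bound_of_continuousOn (f := fun p => cz p - cz z)
    (continuous_cz.sub continuous_const).continuousOn
  refine ⟨|M| + 1, by positivity, fun r θ hr hp => ?_⟩
  have h := hM _ hp
  rw [cz_pt, norm_mul, Complex.norm_exp_ofReal_mul_I, mul_one, Complex.norm_real,
    Real.norm_eq_abs] at h
  linarith [le_abs_self r, le_abs_self M]

theorem annulus_int {f : ℝ → ℝ} (hf : Continuous f) {a b : ℝ} (ha : 0 ≤ a) (hab : a ≤ b) :
    ∫ p in {p : ℝ × ℝ | a ^ 2 < DC.sq2 p ∧ DC.sq2 p < b ^ 2}, f (Real.sqrt (DC.sq2 p)) =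
      2 * Real.pi * ∫ r in a..b, r * f r := by
  have hm : MeasurableSet {p : ℝ × ℝ | a ^ 2 < DC.sq2 p ∧ DC.sq2 p < b ^ 2} :=
    ((isOpen_lt continuous_const DC.continuous_sq2).inter
      (isOpen_lt DC.continuous_sq2 continuous_const)).measurableSet
  rw [← integral_indicator hm, ← integral_comp_polarCoord_symm, polarCoord_target]
  have e : ∀ p ∈ Ioi (0 : ℝ) ×ˢ Ioo (-Real.pi) Real.pi,
      p.1 • {p : ℝ × ℝ | a ^ 2 < DC.sq2 p ∧ DC.sq2 p < b ^ 2}.indicator
        (fun p => f (Real.sqrt (DC.sq2 p))) (polarCoord.symm p) =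
      (Ioo a b).indicator (fun r => r * f r) p.1 * (1 : ℝ) := by
    intro p hp
    have h0 : 0 < p.1 := hp.1
    have hs : DC.sq2 (polarCoord.symm p) = p.1 ^ 2 := by
      simp only [polarCoord_symm_apply, DC.sq2]
      linear_combination p.1 ^ 2 * Real.cos_sq_add_sin_sq p.2
    by_cases h : p.1 ∈ Ioo a b
    · rw [indicator_of_mem h, indicator_of_mem, hs, Real.sqrt_sq h0.le, smul_eq_mul, mul_one]
      simp only [mem_ofPred_eq, hs]
      constructor <;> nlinarith [h.1, h.2]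
    · rw [indicator_of_notMem h, indicator_of_notMem, smul_zero, zero_mul]
      simp only [mem_ofPred_eq, hs]
      intro hh
      exact h ⟨lt_of_pow_lt_pow_left₀ 2 h0.le hh.1, lt_of_pow_lt_pow_left₀ 2 (ha.trans hab) hh.2⟩
  rw [setIntegral_congr_fun (measurableSet_Ioi.prod measurableSet_Ioo) e, Measure.volume_eq_prod,
    ← Measure.prod_restrict,
    integral_prod_mul (fun r => (Ioo a b).indicator (fun r => r * f r) r) (fun _ => (1 : ℝ)),
    setIntegral_indicator measurableSet_Ioo,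
    inter_eq_self_of_subset_right
      (show Ioo a b ⊆ Ioi 0 from fun r hr => lt_of_le_of_lt ha hr.1),
    intervalIntegral.integral_of_le hab, integral_Ioc_eq_integral_Ioo]
  simp only [integral_const, MeasurableSet.univ, measureReal_restrict_apply, univ_inter,
    Real.volume_real_Ioo, smul_eq_mul, mul_one]
  rw [max_eq_left (by linarith [Real.pi_pos])]
  ring

end Pool.Agent.Lib.MP_d36e13_an.ND
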