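import Pool.Agent.Lib.MP_d36e13_an.ND.Test
import Pool.Agent.Lib.MP_d36e13_an.ND.Pol

/-!
Upper bound on the disc for an integer flux.
-/

open MeasureTheory Set Filter Topology Metric
open scoped ENNReal ContDiff

namespace Pool.Agent.Lib.MP_d36e13_an.ND

theorem up_shift (g : ℝ → ℝ) (R₀ : ℝ) {d : ℝ} (hd : 0 < d) :
    ∫ r in R₀..R₀ + d, g (Real.pi / (2 * d) * (r - R₀)) =
      (Real.pi / (2 * d))⁻¹ * ∫ x in (0 : ℝ)..Real.pi / 2, g x := by
  have hk : Real.pi / (2 * d) ≠ 0 := by have := Real.pi_pos; positivity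
  rw [intervalIntegral.integral_comp_sub_right (fun x => g (Real.pi / (2 * d) * x)) R₀,
    intervalIntegral.integral_comp_mul_left g hk]
  have e1 : Real.pi / (2 * d) * (R₀ - R₀) = 0 := by ring
  have e2 : Real.pi / (2 * d) * (R₀ + d - R₀) = Real.pi / 2 := by field_simp; ring
  rw [e1, e2, smul_eq_mul]

theorem up_cos (R₀ : ℝ) {d : ℝ} (hd : 0 < d) :
    ∫ r in R₀..R₀ + d, Real.cos (Real.pi / (2 * d) * (r - R₀)) ^ 2 = d / 2 := by
  rw [up_shift (fun x => Real.cos x ^ 2) R₀ hd, integral_cos_sq]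
  have := Real.pi_pos
  simp only [Real.cos_pi_div_two, Real.sin_zero]
  field_simp
  ring

theorem up_sin (R₀ : ℝ) {d : ℝ} (hd : 0 < d) :
    ∫ r in R₀..R₀ + d, Real.sin (Real.pi / (2 * d) * (r - R₀)) ^ 2 = d / 2 := by
  rw [up_shift (fun x => Real.sin x ^ 2) R₀ hd, integral_sin_sq]
  have := Real.pi_pos
  simp only [Real.cos_pi_div_two, Real.sin_zero]
  field_simp
  ring

theorem disc_upper (m : ℕ) {R₀ R₁ d μ : ℝ} (hR₀ : 0 < R₀) (hd : 0 < d) (hR : R₀ + d ≤ R₁)
    (hμ : (Real.pi / (2 * d)) ^ 2 * (1 + d / R₀) < μ) :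
    lam (disc R₁) (DC.P1 m R₀) (DC.P2 m R₀) ≤ ENNReal.ofReal μ := by
  obtain ⟨F, K, hF, h1, h2, h3⟩ := disc_test m hR₀ hd
  set k := Real.pi / (2 * d) with hk
  have hb := isBounded_disc R₁
  have hle : R₀ ≤ R₀ + d := by linarith
  set A : Set (ℝ × ℝ) := {p | R₀ ^ 2 < DC.sq2 p ∧ DC.sq2 p < (R₀ + d) ^ 2} with hA
  have hAm : MeasurableSet A :=
    ((isOpen_lt continuous_const DC.continuous_sq2).inter
      (isOpen_lt DC.continuous_sq2 continuous_const)).measurableSet
  have hsub : A ⊆ disc R₁ := fun p hp =>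
    lt_of_lt_of_le hp.2 (pow_le_pow_left₀ (by linarith) hR 2)
  have hE : ∫ p in disc R₁, DC.en m R₀ F p ≤ 2 * Real.pi * (k ^ 2 * ((R₀ + d) * (d / 2))) := by
    rw [setIntegral_eq_of_subset_of_ae_sdiff_eq_zero (isOpen_disc R₁).measurableSet.nullMeasurableSet
      hsub (by
        filter_upwards [DC.ae_sq2_ne (R₀ ^ 2), DC.ae_sq2_ne ((R₀ + d) ^ 2)] with p p1 p2 hp
        rcases lt_or_gt_of_ne p1 with h | h
        · exact h1 p h
        · rcases lt_or_gt_of_ne p2 with h' | h'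
          · exact absurd ⟨h, h'⟩ hp.2
          · exact h2 p h'),
      setIntegral_congr_fun hAm (fun p hp => (h3 p hp.1 hp.2).1),
      annulus_int (f := fun r => k ^ 2 * Real.cos (k * (r - R₀)) ^ 2) (by fun_prop) hR₀.le hle]
    refine mul_le_mul_of_nonneg_left ?_ (by have := Real.pi_pos; positivity)
    rw [← up_cos R₀ hd, ← intervalIntegral.integral_const_mul,
      ← intervalIntegral.integral_const_mul]
    refine intervalIntegral.integral_mono_on hle (Continuous.intervalIntegrable (by fun_prop) _ _)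
      (Continuous.intervalIntegrable (by fun_prop) _ _) fun r hr => ?_
    have : 0 ≤ k ^ 2 * Real.cos (k * (r - R₀)) ^ 2 := by positivity
    nlinarith [mul_le_mul_of_nonneg_right hr.2 this]
  have hN : 2 * Real.pi * (R₀ * (d / 2)) ≤ ∫ p in disc R₁, ‖F p‖ ^ 2 := by
    refine le_trans ?_ (setIntegral_mono_set
      (DC.integrableOn_of_continuous hb (hF.continuous.norm.pow 2))
      (Eventually.of_forall fun p => sq_nonneg _) hsub.eventuallyLE)
    rw [setIntegral_congr_fun hAm (fun p hp => (h3 p hp.1 hp.2).2),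
      annulus_int (f := fun r => Real.sin (k * (r - R₀)) ^ 2) (by fun_prop) hR₀.le hle]
    refine mul_le_mul_of_nonneg_left ?_ (by have := Real.pi_pos; positivity)
    rw [← up_sin R₀ hd, ← intervalIntegral.integral_const_mul]
    refine intervalIntegral.integral_mono_on hle (Continuous.intervalIntegrable (by fun_prop) _ _)
      (Continuous.intervalIntegrable (by fun_prop) _ _) fun r hr => ?_
    exact mul_le_mul_of_nonneg_right hr.1 (sq_nonneg _)
  refine DC.lam_le_of_isH1 (DC.isH1_of_lip (isOpen_disc R₁) hb hF)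
    (DC.memLp_top_of_continuous hb (DC.continuous_P1 m hR₀))
    (DC.memLp_top_of_continuous hb (DC.continuous_P2 m hR₀)) ?_
  have hpos : 0 < 2 * Real.pi * (R₀ * (d / 2)) := by have := Real.pi_pos; positivity
  have hμ0 : 0 ≤ μ := le_trans (by positivity) hμ.le
  have e : 2 * Real.pi * (k ^ 2 * ((R₀ + d) * (d / 2))) =
      k ^ 2 * (1 + d / R₀) * (2 * Real.pi * (R₀ * (d / 2))) := by
    field_simp
  calc ∫ p in disc R₁, DC.en m R₀ F p
      ≤ k ^ 2 * (1 + d / R₀) * (2 * Real.pi * (R₀ * (d / 2))) := e ▸ hE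
    _ < μ * (2 * Real.pi * (R₀ * (d / 2))) := mul_lt_mul_of_pos_right hμ hpos
    _ ≤ μ * ∫ p in disc R₁, ‖F p‖ ^ 2 := mul_le_mul_of_nonneg_left hN hμ0

end Pool.Agent.Lib.MP_d36e13_an.ND
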