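import Pool.Agent.Lib.MP_d36e13_an.ND.DefF
import Pool.Agent.Lib.MP_d36e13_an.ND.Collar
import Pool.Agent.Lib.MP_d36e13_an.ND.Fld
import Pool.Agent.Lib.MP_d36e13_an.ND.Low
import Pool.Agent.Lib.MP_d36e13_an.ND.Gap
import Pool.Agent.Lib.MP_d36e13_an.ND.Up
import Pool.Agent.Lib.MP_d36e13_an.ND.Pot
import Pool.Agent.Lib.MP_d36e13_an.ND.Const

/-!
A domain that is not a disc violates the inequality in a thin collar.
-/

open MeasureTheory Set Filter Topology Metric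
open scoped ENNReal ContDiff

namespace Pool.Agent.Lib.MP_d36e13_an.ND

theorem exists_radius_vol {S : Set (ℝ × ℝ)} (h0 : volume S ≠ 0) (h1 : volume S ≠ ⊤) :
    ∃ R : ℝ, 0 < R ∧ volume (disc R) = volume S ∧ Real.pi * R ^ 2 = (volume S).toReal := by
  have hp : 0 < (volume S).toReal := ENNReal.toReal_pos h0 h1
  have hq : 0 < (volume S).toReal / Real.pi := div_pos hp Real.pi_pos
  have e : Real.pi * Real.sqrt ((volume S).toReal / Real.pi) ^ 2 = (volume S).toReal := by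
    rw [Real.sq_sqrt hq.le]; field_simp
  refine ⟨_, Real.sqrt_pos.2 hq, ?_, e⟩
  rw [DC.vol_disc (Real.sqrt_nonneg _), e, ENNReal.ofReal_toReal h1]

theorem Col.area {D Ω : Set (ℝ × ℝ)} {G K H : ℝ × ℝ → ℝ} {η ε t : ℝ}
    (c : Col D Ω G K H η ε t) :
    (volume D).toReal + (volume {p | 0 ≤ G p ∧ G p ≤ (1 - 3 * η) * ε}).toReal ≤
      (volume Ω).toReal := by
  have hc := c.defG.cd.continuous
  have hpos : 0 ≤ (1 - 3 * η) * ε := mul_nonneg (by linarith [c.eta_le]) c.eps_pos.le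
  have m2 : MeasurableSet {p | 0 ≤ G p ∧ G p ≤ (1 - 3 * η) * ε} :=
    ((isClosed_le continuous_const hc).inter (isClosed_le hc continuous_const)).measurableSet
  have hD : ∀ p ∈ D, G p < 0 := fun p hp => by rw [c.defG.eq] at hp; exact hp
  have hsub : D ∪ {p | 0 ≤ G p ∧ G p ≤ (1 - 3 * η) * ε} ⊆ Ω := by
    rintro p (hp | hp)
    · exact c.inn p ((hD p hp).le.trans hpos)
    · exact c.inn p hp.2
  have hdis : Disjoint D {p | 0 ≤ G p ∧ G p ≤ (1 - 3 * η) * ε} :=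
    Set.disjoint_left.2 fun p hp hq => absurd hq.1 (not_le.2 (hD p hp))
  have fin : volume Ω ≠ ⊤ := c.bdd.measure_lt_top.ne
  have f1 : volume D ≠ ⊤ := ne_top_of_le_ne_top fin (measure_mono (subset_union_left.trans hsub))
  have f2 : volume {p | 0 ≤ G p ∧ G p ≤ (1 - 3 * η) * ε} ≠ ⊤ :=
    ne_top_of_le_ne_top fin (measure_mono (subset_union_right.trans hsub))
  rw [← ENNReal.toReal_add f1 f2, ← measure_union hdis m2]
  exact ENNReal.toReal_mono fin (measure_mono hsub)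

theorem exists_violation {D : Set (ℝ × ℝ)} (hD : IsC1Domain D)
    (hnd : ¬ ∃ (c : ℝ × ℝ) (R : ℝ), 0 < R ∧ D = DC.discAt c R) :
    ∃ (Φ : ℝ) (Ω : Set (ℝ × ℝ)) (R₀ R₁ : ℝ), IsC1Domain Ω ∧ closure D ⊆ Ω ∧ 0 < R₀ ∧ 0 < R₁ ∧
      volume (disc R₀) = volume D ∧ volume (disc R₁) = volume Ω ∧
      ∃ A₁ A₂ B₁ B₂ : ℝ × ℝ → ℝ, IsPotential Φ Ω D A₁ A₂ ∧
        IsPotential Φ (disc R₁) (disc R₀) B₁ B₂ ∧ lam (disc R₁) B₁ B₂ < lam Ω A₁ A₂ := by
  have fin : ∀ {S : Set (ℝ × ℝ)}, IsC1Domain S → volume S ≠ 0 ∧ volume S ≠ ⊤ := fun h =>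
    ⟨(h.isOpen.measure_pos volume h.simplyConnected.nonempty).ne', h.bounded.measure_lt_top.ne⟩
  have hpi := Real.pi_pos
  obtain ⟨F, hF⟩ := exists_defF hD
  obtain ⟨c, hc, hgap⟩ := gap hF hD.simplyConnected.nonempty hnd
  obtain ⟨R₀, hR₀, v₀, e₀⟩ := exists_radius_vol (fin hD).1 (fin hD).2
  have hDpos : 0 < (volume D).toReal := ENNReal.toReal_pos (fin hD).1 (fin hD).2
  set q : ℝ := Real.sqrt (4 * Real.pi * (volume D).toReal + c) / (2 * Real.pi * R₀) with hq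
  have hq1 : 1 < q := by
    rw [hq, lt_div_iff₀ (by positivity), one_mul]
    refine Real.lt_sqrt_of_sq_lt ?_
    rw [← e₀]; nlinarith
  have hqe : Real.sqrt (4 * Real.pi * (volume D).toReal + c) = 2 * Real.pi * R₀ * q := by
    rw [hq]; field_simp
  obtain ⟨η, hη, hη1, ε₁, hε₁, hcon⟩ := consts hq1 hR₀
  obtain ⟨G, hG, hFG, hu⟩ := exists_normal hF hη
  obtain ⟨ε₂, hε₂, hgap⟩ := hgap G η hη hG hFG hu
  obtain ⟨t, ht, C, hC, hcal⟩ := cal_of_col hη hη1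
  obtain ⟨ε₃, hε₃, hcol⟩ := exists_col hD.simplyConnected hG hη hη1 ht hu
  obtain ⟨ε, hε, h1, h2, h3, h4⟩ : ∃ ε : ℝ, 0 < ε ∧ ε < ε₁ ∧ ε < ε₂ ∧ ε < ε₃ ∧ ε < 1 := by
    have hm : 0 < min (min ε₁ ε₂) (min ε₃ 1) := by positivity
    have a1 := min_le_left (min ε₁ ε₂) (min ε₃ 1)
    have a2 := min_le_right (min ε₁ ε₂) (min ε₃ 1)
    have a3 := min_le_left ε₁ ε₂
    have a4 := min_le_right ε₁ ε₂
    have a5 := min_le_left ε₃ 1
    have a6 := min_le_right ε₃ 1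
    exact ⟨min (min ε₁ ε₂) (min ε₃ 1) / 2, by positivity, by linarith, by linarith, by linarith,
      by linarith⟩
  obtain ⟨Ω, K, H, hs, col⟩ := hcol ε hε h3
  have hΩ := col.isC1Domain hs
  obtain ⟨R₁, hR₁, v₁, e₁⟩ := exists_radius_vol (fin hΩ).1 (fin hΩ).2
  obtain ⟨d, hd, hd1, hd2⟩ := hcon ε hε h1
  have hpos : 0 < (1 - 3 * η) * ε := mul_pos (by linarith) hε
  have hcl : closure D ⊆ Ω := fun p hp => col.inn p ((hG.closure_subset hp).trans hpos.le)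
  have hg := hgap ((1 - 3 * η) * ε) hpos (by nlinarith)
  have har := col.area
  have hR : R₀ + d ≤ R₁ := by
    rw [hqe] at hg
    rw [← e₀, ← e₁] at har
    have a1 : (1 + η) ^ 2 * (Real.pi * (2 * R₀ * d + d ^ 2)) ≤
        (1 + η) ^ 2 * (Real.pi * R₁ ^ 2 - Real.pi * R₀ ^ 2) := by
      have b1 := mul_le_mul_of_nonneg_left hd1 hpi.le
      have b2 := mul_le_mul_of_nonneg_left
        (show (volume {p | 0 ≤ G p ∧ G p ≤ (1 - 3 * η) * ε}).toReal ≤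
          Real.pi * R₁ ^ 2 - Real.pi * R₀ ^ 2 by linarith) (sq_nonneg (1 + η))
      nlinarith
    have a2 := le_of_mul_le_mul_left a1 (by positivity)
    have a3 : Real.pi * (R₀ + d) ^ 2 ≤ Real.pi * R₁ ^ 2 := by nlinarith
    exact (abs_le_of_sq_le_sq' (le_of_mul_le_mul_left a3 hpi) hR₁.le).2
  have hpi2 : 9 ≤ Real.pi ^ 2 := by nlinarith [Real.pi_gt_three]
  have hpi3 : Real.pi ^ 2 ≤ 16 := by nlinarith [Real.pi_le_four]
  have hκ : 0 ≤ (Real.pi ^ 2 / 4 - 70 * η) / ε ^ 2 := div_nonneg (by linarith) (by positivity)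
  set τ : ℝ := η / (4 + C) with hτ
  have hτ0 : 0 < τ := by positivity
  have hτe : τ * (4 + C) = η := by rw [hτ]; field_simp
  have hτ1 : τ < 1 := by nlinarith
  obtain ⟨b₀, hb₀⟩ := lam_ge_of_cal hΩ.isOpen hΩ.bounded (subset_closure.trans hcl) hκ
    (hcal D Ω G K H ε col h4) hτ0 hτ1
  obtain ⟨m, hm⟩ := exists_nat_ge (b₀ * (volume D).toReal / (2 * Real.pi))
  have hb : b₀ ≤ 2 * Real.pi * m / (volume D).toReal := by
    rw [div_le_iff₀ (by positivity)] at hm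
    rw [le_div_iff₀ hDpos]
    linarith
  obtain ⟨A₁, A₂, m₁, m₂, hcurl⟩ := exists_pot hΩ.isOpen hD.isOpen.measurableSet hD.bounded
    (2 * Real.pi * m / (volume D).toReal)
  have hB := DC.isPotential_can (isOpen_disc R₁) (isBounded_disc R₁) 0 hR₀ (fun p hp => by
    rw [DC.discAt_zero] at hp
    exact lt_trans (show p.1 ^ 2 + p.2 ^ 2 < R₀ ^ 2 from hp) (by nlinarith)) (m : ℝ)
  rw [DC.discAt_zero] at hB
  simp only [sub_zero] at hB
  refine ⟨m, Ω, R₀, R₁, hΩ, hcl, hR₀, hR₁, v₀, v₁, A₁, A₂, _, _, ⟨m₁, m₂, hcurl⟩, hB, ?_⟩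
  refine lt_of_le_of_lt (disc_upper m hR₀ hd hR hd2)
    (lt_of_lt_of_le ?_ (hb₀ _ hb A₁ A₂ m₁ m₂ hcurl))
  have e : (1 - τ) * ((Real.pi ^ 2 / 4 - 70 * η) / ε ^ 2) - τ * (C / ε ^ 2) =
      ((1 - τ) * (Real.pi ^ 2 / 4 - 70 * η) - τ * C) / ε ^ 2 := by ring
  have key : Real.pi ^ 2 / 4 - 71 * η ≤ (1 - τ) * (Real.pi ^ 2 / 4 - 70 * η) - τ * C := by
    nlinarith [mul_pos hτ0 hη]
  rw [e, ENNReal.ofReal_lt_ofReal_iff (div_pos (by linarith) (by positivity))]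
  exact div_lt_div_of_pos_right (by linarith) (by positivity)

end Pool.Agent.Lib.MP_d36e13_an.ND
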