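import Pool.Agent.Lib.MP_d36e13_an.ND.Basic

/-!
Mollification with a second derivative bound.
-/

open MeasureTheory Set Filter Topology Metric
open scoped ENNReal ContDiff

namespace Pool.Agent.Lib.MP_d36e13_an.ND

theorem dd_mol_C1 {φ : ContDiffBump (0 : ℝ × ℝ)} {f : ℝ × ℝ → ℝ} (hf : ContDiff ℝ 1 f)
    (v x : ℝ × ℝ) : dd v (mol φ f) x = mol φ (dd v f) x := by
  have h := weak_of_C1 (Ω := univ) hf (isTest_shift (φ := φ) (x := x) (subset_univ _)) v
  simp only [Measure.restrict_univ, dd_shift, mul_neg, integral_neg, neg_inj] at h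
  rw [dd_mol hf.continuous.locallyIntegrable, h, mol_eq]

theorem moll_scale {f : ℝ × ℝ → ℝ} (hf : Differentiable ℝ f) (c : ℝ) (v p : ℝ × ℝ) :
    dd v (fun x => f (c • x)) p = c * dd v f (c • p) := by
  have h1 : HasFDerivAt (fun x : ℝ × ℝ => c • x) (c • ContinuousLinearMap.id ℝ (ℝ × ℝ)) p :=
    (hasFDerivAt_id p).const_smul c
  have h2 := (hf (c • p)).hasFDerivAt.comp p h1
  have e : (fun x => f (c • x)) = f ∘ fun x : ℝ × ℝ => c • x := rfl
  unfold dd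
  rw [e, h2.fderiv]
  simp

theorem moll_ker {k f : ℝ × ℝ → ℝ} (hk : Continuous k) (hc : HasCompactSupport k)
    (h0 : ∀ y, 1 < ‖y‖ → k y = 0) (hf : Continuous f) {x : ℝ × ℝ} {c a : ℝ}
    (h : ∀ t, ‖x - t‖ ≤ 1 → |f t - c| ≤ a) :
    |(∫ t, f t * k (x - t)) - c * ∫ y, k y| ≤ a * ∫ y, |k y| := by
  have hk' : Continuous fun t => k (x - t) := hk.comp (continuous_const.sub continuous_id)
  have hc' : HasCompactSupport fun t => k (x - t) :=
    hc.comp_homeomorph (Homeomorph.subLeft x)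
  have i1 : Integrable fun t => f t * k (x - t) :=
    (hf.mul hk').integrable_of_hasCompactSupport hc'.mul_left
  have i0 : Integrable fun t => k (x - t) := hk'.integrable_of_hasCompactSupport hc'
  rw [← integral_sub_left_eq_self k volume x,
    ← integral_sub_left_eq_self (fun y => |k y|) volume x, ← integral_const_mul,
    ← integral_const_mul, ← integral_sub i1 (i0.const_mul c), ← Real.norm_eq_abs]
  refine norm_integral_le_of_norm_le (i0.abs.const_mul a) (Eventually.of_forall fun t => ?_)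
  rw [← sub_mul, Real.norm_eq_abs, abs_mul]
  by_cases ht : ‖x - t‖ ≤ 1
  · exact mul_le_mul_of_nonneg_right (h t ht) (abs_nonneg _)
  · simp [h0 _ (not_le.1 ht)]

/-- the bump function of radius one -/
noncomputable def moll_bump : ContDiffBump (0 : ℝ × ℝ) := ⟨1 / 2, 1, by norm_num, by norm_num⟩

theorem moll_out {y : ℝ × ℝ} (hy : 1 < ‖y‖) : y ∉ tsupport (moll_bump.normed volume) := by
  rw [ContDiffBump.tsupport_normed_eq, mem_closedBall_zero_iff]
  exact not_le.2 hy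

theorem moll_close {f : ℝ × ℝ → ℝ} (hf : Continuous f) {x : ℝ × ℝ} {c a : ℝ}
    (h : ∀ t, ‖x - t‖ ≤ 1 → |f t - c| ≤ a) : |mol moll_bump f x - c| ≤ a := by
  have h1 := moll_ker moll_bump.continuous_normed moll_bump.hasCompactSupport_normed
    (fun y hy => image_eq_zero_of_notMem_tsupport (moll_out hy)) hf h
  simp only [abs_of_nonneg (moll_bump.nonneg_normed _), moll_bump.integral_normed,
    mul_one] at h1
  exact h1

theorem moll_dd : ∃ C : ℝ, 0 < C ∧ ∀ f : ℝ × ℝ → ℝ, Continuous f → ∀ (x w : ℝ × ℝ) (c a : ℝ),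
    0 ≤ a → (∀ t, ‖x - t‖ ≤ 1 → |f t - c| ≤ a) →
      |dd w (mol moll_bump f) x| ≤ a * (C * ‖w‖) := by
  have c1 : ContDiff ℝ 1 (moll_bump.normed (volume : Measure (ℝ × ℝ))) :=
    moll_bump.contDiff_normed (n := 1)
  have cs : HasCompactSupport (moll_bump.normed (volume : Measure (ℝ × ℝ))) :=
    moll_bump.hasCompactSupport_normed
  have iF : Integrable fun y => ‖fderiv ℝ (moll_bump.normed (volume : Measure (ℝ × ℝ))) y‖ :=
    ((c1.continuous_fderiv (by simp)).integrable_of_hasCompactSupport (cs.fderiv ℝ)).norm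
  have h0 : 0 ≤ ∫ y, ‖fderiv ℝ (moll_bump.normed (volume : Measure (ℝ × ℝ))) y‖ :=
    integral_nonneg fun _ => norm_nonneg _
  refine ⟨(∫ y, ‖fderiv ℝ (moll_bump.normed (volume : Measure (ℝ × ℝ))) y‖) + 1, by linarith,
    fun f hf x w c a ha h => ?_⟩
  have h1 := moll_ker (continuous_dd (v := w) c1) (hasCompactSupport_dd cs)
    (fun y hy => dd_eq_zero_of_notMem (moll_out hy)) hf h
  rw [integral_dd_eq_zero c1 cs, mul_zero, sub_zero, ← dd_mol hf.locallyIntegrable] at h1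
  refine h1.trans (mul_le_mul_of_nonneg_left ?_ ha)
  have h2 : ∫ y, |dd w (moll_bump.normed volume) y| ≤
      ∫ y, ‖fderiv ℝ (moll_bump.normed (volume : Measure (ℝ × ℝ))) y‖ * ‖w‖ :=
    integral_mono_of_nonneg (Eventually.of_forall fun _ => abs_nonneg _) (iF.mul_const _)
      (Eventually.of_forall fun y => (fderiv ℝ (moll_bump.normed volume) y).le_opNorm w)
  rw [integral_mul_const] at h2
  nlinarith [norm_nonneg w]

theorem exists_moll {D : Set (ℝ × ℝ)} {G : ℝ × ℝ → ℝ} (h : DefF D G) {θ : ℝ} (hθ : 0 < θ) :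
    ∃ ε₀ : ℝ, 0 < ε₀ ∧ ∀ ε : ℝ, 0 < ε → ε < ε₀ → ∃ H : ℝ × ℝ → ℝ, ContDiff ℝ ∞ H ∧
      (∀ p, |H p - G p| ≤ θ * ε) ∧
      (∀ p v : ℝ × ℝ, |dd v H p - dd v G p| ≤ θ * ‖v‖) ∧
      (∀ p v w : ℝ × ℝ, |dd w (dd v H) p| ≤ θ / ε * (‖v‖ * ‖w‖)) := by
  obtain ⟨L, hL1, -, hL⟩ := h.exists_bound
  have hL0 : 0 < L := by linarith
  obtain ⟨C, hC, hdd⟩ := moll_dd
  obtain ⟨τ, hτ0, hτ1, hτ2⟩ : ∃ τ : ℝ, 0 < τ ∧ τ ≤ θ ∧ τ ≤ θ * θ / (L * C) :=
    ⟨min θ (θ * θ / (L * C)), by positivity, min_le_left _ _, min_le_right _ _⟩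
  obtain ⟨δ₀, hδ₀, hu⟩ := h.unif hτ0
  refine ⟨δ₀ * L / θ, by positivity, fun ε hε hε₀ => ?_⟩
  obtain ⟨δ, hδ⟩ : ∃ δ : ℝ, δ = θ * ε / L := ⟨_, rfl⟩
  have hδ0 : 0 < δ := by rw [hδ]; positivity
  have hδ1 : δ ≤ δ₀ := by
    rw [lt_div_iff₀ hθ] at hε₀
    rw [hδ, div_le_iff₀ hL0]
    linarith
  have hGd : Differentiable ℝ G := h.cd.differentiable (by simp)
  have hs : ∀ c : ℝ, ContDiff ℝ ∞ fun x : ℝ × ℝ => c • x := fun c => contDiff_const_smul c
  have hG1 : ContDiff ℝ 1 fun y : ℝ × ℝ => G (δ • y) := h.cd.comp ((hs δ).of_le top_one)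
  have hnear : ∀ p t : ℝ × ℝ, ‖δ⁻¹ • p - t‖ ≤ 1 → ‖δ • t - p‖ ≤ δ := fun p t ht => by
    have e : δ • t - p = -(δ • (δ⁻¹ • p - t)) := by
      rw [smul_sub, smul_inv_smul₀ hδ0.ne', neg_sub]
    rw [e, norm_neg, norm_smul, Real.norm_of_nonneg hδ0.le]
    exact mul_le_of_le_one_right hδ0.le ht
  have hgc : ∀ v, Continuous fun y : ℝ × ℝ => dd v G (δ • y) := fun v =>
    (continuous_dd h.cd).comp (hs δ).continuous
  have hm : ∀ {f : ℝ × ℝ → ℝ}, Continuous f → ContDiff ℝ ∞ (mol moll_bump f) := fun hf =>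
    contDiff_mol hf.locallyIntegrable
  have hd1 : ∀ v, dd v (fun x => mol moll_bump (fun y => G (δ • y)) (δ⁻¹ • x)) =
      fun x => mol moll_bump (fun y => dd v G (δ • y)) (δ⁻¹ • x) := fun v => by
    funext x
    rw [moll_scale ((hm hG1.continuous).differentiable (by simp)), dd_mol_C1 hG1, mol_eq, mol_eq]
    simp only [moll_scale hGd, mul_assoc]
    rw [integral_const_mul, ← mul_assoc, inv_mul_cancel₀ hδ0.ne', one_mul]
  have hcl : ∀ p v t : ℝ × ℝ, ‖δ⁻¹ • p - t‖ ≤ 1 → |dd v G (δ • t) - dd v G p| ≤ τ * ‖v‖ :=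
    fun p v t ht => hu _ _ v ((hnear p t ht).trans hδ1)
  refine ⟨fun x => mol moll_bump (fun y => G (δ • y)) (δ⁻¹ • x),
    (hm hG1.continuous).comp (hs δ⁻¹), fun p => ?_, fun p v => ?_, fun p v w => ?_⟩
  · refine moll_close hG1.continuous fun t ht => (hL _ _).trans ?_
    have h1 := mul_le_mul_of_nonneg_left (hnear p t ht) hL0.le
    have h2 : L * δ = θ * ε := by rw [hδ]; field_simp
    linarith
  · rw [hd1]
    exact (moll_close (hgc v) (hcl p v)).trans (mul_le_mul_of_nonneg_right hτ1 (norm_nonneg v))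
  · rw [hd1, moll_scale ((hm (hgc v)).differentiable (by simp)), abs_mul,
      abs_of_pos (inv_pos.2 hδ0)]
    have h1 := hdd _ (hgc v) (δ⁻¹ • p) w _ _ (by positivity) (hcl p v)
    have h2 : δ⁻¹ * (τ * C) ≤ θ / ε := by
      rw [le_div_iff₀ (by positivity)] at hτ2
      have h3 : δ⁻¹ * (τ * C) = τ * (L * C) / (θ * ε) := by rw [hδ]; field_simp
      rw [h3, div_le_div_iff₀ (by positivity) hε]
      nlinarith
    calc δ⁻¹ * |dd w (mol moll_bump fun y => dd v G (δ • y)) (δ⁻¹ • p)|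
        ≤ δ⁻¹ * (τ * ‖v‖ * (C * ‖w‖)) := mul_le_mul_of_nonneg_left h1 (inv_pos.2 hδ0).le
      _ = δ⁻¹ * (τ * C) * (‖v‖ * ‖w‖) := by ring
      _ ≤ θ / ε * (‖v‖ * ‖w‖) := mul_le_mul_of_nonneg_right h2 (by positivity)

end Pool.Agent.Lib.MP_d36e13_an.ND
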