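import Pool.Agent.Lib.MP_d36e13_an.ND.Defs

/-!
The test function on the disc for an integer flux.
-/

open MeasureTheory Set Filter Topology Metric
open scoped ENNReal ContDiff

namespace Pool.Agent.Lib.MP_d36e13_an.ND

theorem test_cz_rot (t : ℝ) (q : ℝ × ℝ) :
    cz (DC.rot t q) = Complex.exp ((t : ℂ) * Complex.I) * cz q := by
  rw [Complex.exp_mul_I]
  simp only [cz, DC.rot]
  push_cast
  linear_combination (-(q.2 : ℂ) * Complex.sin t) * Complex.I_mul_I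

theorem test_cz_smul (s : ℝ) (q : ℝ × ℝ) : cz (s • q) = (s : ℂ) * cz q := by
  simp only [cz, Prod.smul_fst, Prod.smul_snd, smul_eq_mul]
  push_cast
  ring

theorem test_norm_cz (q : ℝ × ℝ) : ‖cz q‖ = Real.sqrt (DC.sq2 q) := by
  rw [DC.frz_sqrt_eq]
  congr 1
  apply Complex.ext <;> simp [cz]

theorem test_contDiff_cz : ContDiff ℝ 1 cz := by
  have h1 : ContDiff ℝ 1 fun p : ℝ × ℝ => (p.1 : ℂ) := Complex.ofRealCLM.contDiff.comp contDiff_fst
  have h2 : ContDiff ℝ 1 fun p : ℝ × ℝ => (p.2 : ℂ) := Complex.ofRealCLM.contDiff.comp contDiff_snd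
  exact h1.add (h2.mul contDiff_const)

theorem test_en_congr {Φ R₀ : ℝ} {F M : ℝ × ℝ → ℂ} {p : ℝ × ℝ} (h : F =ᶠ[𝓝 p] M) :
    DC.en Φ R₀ F p = DC.en Φ R₀ M p := by
  unfold DC.en
  rw [h.fderiv_eq, h.eq_of_nhds]

theorem en_radial (m : ℕ) {R₀ : ℝ} (hR₀ : 0 < R₀) {f : ℝ → ℝ} {f' : ℝ} {F : ℝ × ℝ → ℂ}
    {p : ℝ × ℝ} (hp : R₀ ^ 2 < DC.sq2 p) (hf : HasDerivAt f f' (Real.sqrt (DC.sq2 p)))
    (hF : F =ᶠ[𝓝 p] fun q =>
      (f (Real.sqrt (DC.sq2 q)) : ℂ) * (cz q / (Real.sqrt (DC.sq2 q) : ℂ)) ^ m) :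
    DC.en m R₀ F p = f' ^ 2 ∧ ‖F p‖ ^ 2 = f (Real.sqrt (DC.sq2 p)) ^ 2 := by
  set M : ℝ × ℝ → ℂ := fun q =>
    (f (Real.sqrt (DC.sq2 q)) : ℂ) * (cz q / (Real.sqrt (DC.sq2 q) : ℂ)) ^ m with hM
  have hp0 : 0 < DC.sq2 p := lt_of_le_of_lt (sq_nonneg R₀) hp
  have hr : 0 < Real.sqrt (DC.sq2 p) := Real.sqrt_pos.2 hp0
  have hrc : ((Real.sqrt (DC.sq2 p) : ℝ) : ℂ) ≠ 0 := Complex.ofReal_ne_zero.2 hr.ne'
  have hE : DC.Equi (m : ℤ) M := by
    intro t q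
    simp only [hM, DC.sq2_rot, test_cz_rot]
    have : Complex.exp ((((m : ℤ) : ℂ)) * (t : ℂ) * Complex.I) =
        Complex.exp ((t : ℂ) * Complex.I) ^ m := by
      rw [← Complex.exp_nat_mul, Int.cast_natCast, mul_assoc]
    rw [this, mul_div_assoc, mul_pow]
    ring
  have hn : ‖(cz p / (Real.sqrt (DC.sq2 p) : ℂ)) ^ m‖ = 1 := by
    rw [norm_pow, norm_div, test_norm_cz, Complex.norm_real, Real.norm_eq_abs, abs_of_pos hr,
      div_self hr.ne', one_pow]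
  have hs : DifferentiableAt ℝ (fun q => Real.sqrt (DC.sq2 q)) p := by
    have h1 : DifferentiableAt ℝ DC.sq2 p := by unfold DC.sq2; fun_prop
    exact h1.sqrt hp0.ne'
  have hd : DifferentiableAt ℝ M p := by
    have a1 : DifferentiableAt ℝ (fun q => (f (Real.sqrt (DC.sq2 q)) : ℂ)) p :=
      Complex.ofRealCLM.differentiableAt.comp p (hf.differentiableAt.comp p hs)
    have a2 : DifferentiableAt ℝ (fun q => ((Real.sqrt (DC.sq2 q) : ℝ) : ℂ)) p :=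
      Complex.ofRealCLM.differentiableAt.comp p hs
    have a3 : DifferentiableAt ℝ cz p := test_contDiff_cz.differentiable (by simp) p
    refine a1.mul (DifferentiableAt.pow ?_ m)
    simp only [div_eq_mul_inv]
    exact a3.mul (a2.inv hrc)
  have hl : HasDerivAt (fun s : ℝ => s • p) p 1 := by
    simpa using (hasDerivAt_id (1 : ℝ)).smul_const p
  have h1 : HasDerivAt (fun s : ℝ => M (s • p)) (fderiv ℝ M p p) 1 :=
    HasFDerivAt.comp_hasDerivAt_of_eq (l := M) (f := fun s : ℝ => s • p) (1 : ℝ)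
      hd.hasFDerivAt hl (one_smul ℝ p).symm
  have h2 : (fun s : ℝ => M (s • p)) =ᶠ[𝓝 1] fun s =>
      (f (s * Real.sqrt (DC.sq2 p)) : ℂ) * (cz p / (Real.sqrt (DC.sq2 p) : ℂ)) ^ m := by
    filter_upwards [Ioi_mem_nhds (show (0 : ℝ) < 1 by norm_num)] with s hs0
    have hs0 : 0 < s := hs0
    have hsc : (s : ℂ) ≠ 0 := Complex.ofReal_ne_zero.2 hs0.ne'
    simp only [hM]
    rw [DC.frz_sq2_smul, Real.sqrt_mul (sq_nonneg s), Real.sqrt_sq hs0.le, test_cz_smul]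
    push_cast
    rw [mul_div_mul_left _ _ hsc]
  have h3 : HasDerivAt (fun s : ℝ => f (s * Real.sqrt (DC.sq2 p)))
      (f' * Real.sqrt (DC.sq2 p)) 1 := by
    have b1 : HasDerivAt (fun s : ℝ => s * Real.sqrt (DC.sq2 p)) (Real.sqrt (DC.sq2 p)) 1 := by
      simpa using (hasDerivAt_id (1 : ℝ)).mul_const (Real.sqrt (DC.sq2 p))
    exact HasDerivAt.comp_of_eq (1 : ℝ) hf b1 (one_mul _).symm
  have h4 := (h3.ofReal_comp.mul_const ((cz p / (Real.sqrt (DC.sq2 p) : ℂ)) ^ m))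
  have h5 := h1.unique (h4.congr_of_eventuallyEq h2)
  constructor
  · rw [test_en_congr hF, DC.en_ge_out hR₀ hE hd hp.le, h5, norm_mul, hn, Complex.norm_real,
      Real.norm_eq_abs, mul_one, sq_abs, mul_pow, Real.sq_sqrt hp0.le, Int.cast_natCast, sub_self]
    field_simp
    ring
  · rw [hF.eq_of_nhds]
    simp only [hM]
    rw [norm_mul, hn, Complex.norm_real, Real.norm_eq_abs, mul_one, sq_abs]

theorem disc_test (m : ℕ) {R₀ d : ℝ} (hR₀ : 0 < R₀) (hd : 0 < d) :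
    ∃ (F : ℝ × ℝ → ℂ) (K : NNReal), LipschitzWith K F ∧
      (∀ p, DC.sq2 p < R₀ ^ 2 → DC.en m R₀ F p = 0) ∧
      (∀ p, (R₀ + d) ^ 2 < DC.sq2 p → DC.en m R₀ F p = 0) ∧
      ∀ p, R₀ ^ 2 < DC.sq2 p → DC.sq2 p < (R₀ + d) ^ 2 →
        DC.en m R₀ F p = (Real.pi / (2 * d)) ^ 2 *
          Real.cos (Real.pi / (2 * d) * (Real.sqrt (DC.sq2 p) - R₀)) ^ 2 ∧
        ‖F p‖ ^ 2 = Real.sin (Real.pi / (2 * d) * (Real.sqrt (DC.sq2 p) - R₀)) ^ 2 := by
  set k : ℝ := Real.pi / (2 * d) with hk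
  set Hh : ℝ × (ℝ × ℝ) → ℂ := fun y =>
    (Real.sin (k * (y.1 - R₀)) : ℂ) * (cz y.2 / (y.1 : ℂ)) ^ m with hH
  set w : ℝ × ℝ → ℂ := fun q => Hh (max (Real.sqrt (DC.sq2 q)) R₀, q) with hw
  have hR : 0 < R₀ + d := by positivity
  have lin : LocallyLipschitz fun q : ℝ × ℝ => (max (Real.sqrt (DC.sq2 q)) R₀, q) := by
    have a : LipschitzWith 2 fun q : ℝ × ℝ => Real.sqrt (DC.sq2 q) :=
      LipschitzWith.of_dist_le_mul fun p q => by
        rw [Real.dist_eq, dist_eq_norm]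
        exact DC.frz_sqrt_lip p q
    exact (a.locallyLipschitz.max_const _).prodMk LocallyLipschitz.id
  have lw : LocallyLipschitz w := by
    intro x
    have hx : ((max (Real.sqrt (DC.sq2 x)) R₀ : ℝ) : ℂ) ≠ 0 :=
      Complex.ofReal_ne_zero.2 (lt_max_of_lt_right hR₀).ne'
    have hc : ContDiffAt ℝ 1 Hh (max (Real.sqrt (DC.sq2 x)) R₀, x) := by
      have a1 : ContDiff ℝ 1 fun y : ℝ × (ℝ × ℝ) => (Real.sin (k * (y.1 - R₀)) : ℂ) :=
        Complex.ofRealCLM.contDiff.comp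
          (show ContDiff ℝ 1 fun y : ℝ × (ℝ × ℝ) => Real.sin (k * (y.1 - R₀)) by fun_prop)
      have a2 : ContDiff ℝ 1 fun y : ℝ × (ℝ × ℝ) => (y.1 : ℂ) :=
        Complex.ofRealCLM.contDiff.comp contDiff_fst
      have a3 : ContDiff ℝ 1 fun y : ℝ × (ℝ × ℝ) => cz y.2 := test_contDiff_cz.comp contDiff_snd
      refine a1.contDiffAt.mul (ContDiffAt.pow ?_ m)
      simp only [div_eq_mul_inv]
      exact a3.contDiffAt.mul (a2.contDiffAt.inv hx)
    obtain ⟨K, t, ht, hK⟩ := hc.exists_lipschitzOnWith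
    obtain ⟨K', s, hs, hK'⟩ := lin x
    refine ⟨K * K', s ∩ (fun q : ℝ × ℝ => (max (Real.sqrt (DC.sq2 q)) R₀, q)) ⁻¹' t,
      inter_mem hs (lin.continuous.continuousAt.preimage_mem_nhds ht), ?_⟩
    exact hK.comp (hK'.mono inter_subset_left) fun y hy => hy.2
  obtain ⟨K, hK⟩ := (lw.locallyLipschitzOn
    (s := closedBall (0 : ℝ × ℝ) (R₀ + d))).exists_lipschitzOnWith_of_compact
    (isCompact_closedBall _ _)
  have hin : ∀ q, DC.sq2 q < (R₀ + d) ^ 2 → (w ∘ DC.frzRho (R₀ + d)) q = w q := fun q hq => by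
    simp only [Function.comp]
    rw [DC.frzRho_in hR hq]
  refine ⟨w ∘ DC.frzRho (R₀ + d), K * 3, ?_, ?_, ?_, ?_⟩
  · rw [← lipschitzOnWith_univ]
    exact hK.comp (DC.frzRho_lip hR).lipschitzOnWith (fun p _ => DC.frzRho_mem hR p)
  · intro p hp
    have e : (w ∘ DC.frzRho (R₀ + d)) =ᶠ[𝓝 p] fun _ => 0 := by
      filter_upwards [(isOpen_lt DC.continuous_sq2 continuous_const).mem_nhds hp] with q hq
      have hq : DC.sq2 q < R₀ ^ 2 := hq
      rw [hin q (by nlinarith)]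
      have : Real.sqrt (DC.sq2 q) ≤ R₀ := Real.sqrt_le_iff.2 ⟨hR₀.le, hq.le⟩
      simp [hw, hH, max_eq_right this]
    rw [test_en_congr e]
    simp [DC.en]
  · intro p hp
    have e : (w ∘ DC.frzRho (R₀ + d)) =ᶠ[𝓝 p] fun q =>
        (((fun _ => (1 : ℝ)) (Real.sqrt (DC.sq2 q)) : ℝ) : ℂ) *
          (cz q / (Real.sqrt (DC.sq2 q) : ℂ)) ^ m := by
      filter_upwards [(isOpen_lt continuous_const DC.continuous_sq2).mem_nhds hp] with q hq
      have hq : (R₀ + d) ^ 2 < DC.sq2 q := hq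
      have hq0 : 0 < DC.sq2 q := lt_of_le_of_lt (sq_nonneg _) hq
      have hr : 0 < Real.sqrt (DC.sq2 q) := Real.sqrt_pos.2 hq0
      have e1 : Real.sqrt (DC.sq2 (((R₀ + d) / Real.sqrt (DC.sq2 q)) • q)) = R₀ + d := by
        rw [DC.frz_sq2_smul, div_pow, Real.sq_sqrt hq0.le, div_mul_cancel₀ _ hq0.ne',
          Real.sqrt_sq hR.le]
      have e2 : k * (R₀ + d - R₀) = Real.pi / 2 := by rw [hk]; field_simp; ring
      have hrc : ((Real.sqrt (DC.sq2 q) : ℝ) : ℂ) ≠ 0 := Complex.ofReal_ne_zero.2 hr.ne'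
      have hRc : ((R₀ + d : ℝ) : ℂ) ≠ 0 := Complex.ofReal_ne_zero.2 hR.ne'
      simp only [Function.comp, hw, hH]
      rw [DC.frzRho_out hq, e1, max_eq_left (by linarith), e2, Real.sin_pi_div_two, test_cz_smul,
        Complex.ofReal_div]
      congr 2
      field_simp
    have := (en_radial m hR₀ (by nlinarith) (hasDerivAt_const _ (1 : ℝ)) e).1
    simpa using this
  · intro p hp1 hp2
    have e : (w ∘ DC.frzRho (R₀ + d)) =ᶠ[𝓝 p] fun q =>
        (((fun s => Real.sin (k * (s - R₀))) (Real.sqrt (DC.sq2 q)) : ℝ) : ℂ) *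
          (cz q / (Real.sqrt (DC.sq2 q) : ℂ)) ^ m := by
      filter_upwards [(isOpen_lt continuous_const DC.continuous_sq2).mem_nhds hp1,
        (isOpen_lt DC.continuous_sq2 continuous_const).mem_nhds hp2] with q hq1 hq2
      have : R₀ ≤ Real.sqrt (DC.sq2 q) := Real.le_sqrt_of_sq_le (le_of_lt hq1)
      rw [hin q hq2]
      simp only [hw, hH, max_eq_left this]
    have hf : HasDerivAt (fun s => Real.sin (k * (s - R₀)))
        (Real.cos (k * (Real.sqrt (DC.sq2 p) - R₀)) * k) (Real.sqrt (DC.sq2 p)) := by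
      have b : HasDerivAt (fun s => k * (s - R₀)) k (Real.sqrt (DC.sq2 p)) := by
        simpa using ((hasDerivAt_id (Real.sqrt (DC.sq2 p))).sub_const R₀).const_mul k
      exact b.sin
    obtain ⟨c1, c2⟩ := en_radial m hR₀ hp1 hf e
    exact ⟨by rw [c1]; ring, c2⟩

end Pool.Agent.Lib.MP_d36e13_an.ND
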