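import Pool.Agent.Lib.MP_d36e13_an.ND.Cauchy
import Pool.Agent.Lib.MP_d36e13_an.ND.Intg

/-!
The isoperimetric identity and a strict inequality.
-/

open MeasureTheory Set Filter Topology Metric
open scoped ENNReal ContDiff

namespace Pool.Agent.Lib.MP_d36e13_an.ND

theorem iso_identity {u : ℝ × ℝ → ℝ} (hu : ContDiff ℝ 1 u) (hc : HasCompactSupport u) :
    ∫ ζ, ∫ z, cg u z * cg u ζ * ker z ζ = -(4 * Real.pi * ∫ z, u z ^ 2 : ℝ) := by
  have hi := integrable_cauchy (a := fun z => (u z : ℂ)) (b := cg u)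
    (Complex.continuous_ofReal.comp hu.continuous) (continuous_cg hu)
    (hc.comp_left (g := fun x : ℝ => (x : ℂ)) Complex.ofReal_zero) (hasCompactSupport_cg hc)
  calc ∫ ζ, ∫ z, cg u z * cg u ζ * ker z ζ
      = ∫ ζ, ∫ z, 2 * ((u z : ℂ) * (cg u ζ / (cz ζ - cz z))) := by
        refine integral_congr_ae (Eventually.of_forall fun ζ => ?_)
        have e : (fun z => cg u z * cg u ζ * ker z ζ) =
            fun z => cg u ζ * (cg u z * ker z ζ) := funext fun z => by ring
        simp only
        rw [e, integral_const_mul, ker_ibp hu hc, ← integral_const_mul, ← integral_const_mul]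
        refine integral_congr_ae (Eventually.of_forall fun z => ?_)
        simp only
        rw [← neg_sub (cz ζ) (cz z), div_neg]
        ring
    _ = ∫ z, ∫ ζ, 2 * ((u z : ℂ) * (cg u ζ / (cz ζ - cz z))) :=
        (integral_integral_swap (f := fun z ζ => 2 * ((u z : ℂ) * (cg u ζ / (cz ζ - cz z))))
          (hi.const_mul 2)).symm
    _ = ∫ z, ((-(4 * Real.pi) * u z ^ 2 : ℝ) : ℂ) := by
        refine integral_congr_ae (Eventually.of_forall fun z => ?_)
        simp only
        rw [integral_const_mul, integral_const_mul, cauchy_pompeiu hu hc]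
        push_cast
        ring
    _ = _ := by
        rw [integral_complex_ofReal, integral_const_mul]
        push_cast
        ring

theorem iso_gap {u : ℝ × ℝ → ℝ} (hu : ContDiff ℝ 1 u) (hc : HasCompactSupport u)
    {B₁ B₂ : Set (ℝ × ℝ)} (h₁ : MeasurableSet B₁) (h₂ : MeasurableSet B₂) {γ : ℝ}
    (h : ∀ z ∈ B₁, ∀ ζ ∈ B₂, (-(cg u z * cg u ζ * ker z ζ)).re ≤
      (1 - γ) * (‖cg u z‖ * ‖cg u ζ‖)) :
    4 * Real.pi * (∫ z, u z ^ 2) + γ * ((∫ z in B₁, ‖cg u z‖) * ∫ z in B₂, ‖cg u z‖) ≤
      (∫ z, ‖cg u z‖) ^ 2 := by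
  have hg := continuous_cg hu
  have hn : Integrable fun z => ‖cg u z‖ :=
    (hg.integrable_of_hasCompactSupport (hasCompactSupport_cg hc)).norm
  have hnn := hn.mul_prod hn
  have hb := ((hn.indicator h₂).mul_prod (hn.indicator h₁)).const_mul γ
  have nF : ∀ z ζ, ‖cg u z * cg u ζ * ker z ζ‖ ≤ ‖cg u ζ‖ * ‖cg u z‖ := fun z ζ => by
    rw [norm_mul, norm_mul, mul_comm ‖cg u z‖]
    exact mul_le_of_le_one_right (by positivity) (norm_ker_le z ζ)
  have hF : Integrable (fun q : (ℝ × ℝ) × (ℝ × ℝ) => cg u q.2 * cg u q.1 * ker q.2 q.1)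
      (volume.prod volume) := by
    refine hnn.mono' ?_ (Eventually.of_forall fun q => nF q.2 q.1)
    exact (((hg.comp continuous_snd).mul (hg.comp continuous_fst)).measurable.mul
      (measurable_ker.comp measurable_swap)).aestronglyMeasurable
  have e1 := integral_prod _ hF
  simp only at e1
  rw [iso_identity hu hc] at e1
  have e2 : ∫ q : (ℝ × ℝ) × (ℝ × ℝ), (-(cg u q.2 * cg u q.1 * ker q.2 q.1)).re
      ∂(volume.prod volume) = 4 * Real.pi * ∫ z, u z ^ 2 := by
    have := integral_re hF.neg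
    simp only [RCLike.re_to_complex, Pi.neg_apply] at this
    rw [this, integral_neg, e1, neg_neg, Complex.ofReal_re]
  have e3 := integral_mono hF.neg.re (hnn.sub hb) fun q => (by
    simp only [RCLike.re_to_complex, Pi.neg_apply, Pi.sub_apply]
    have a1 := (Complex.re_le_norm (-(cg u q.2 * cg u q.1 * ker q.2 q.1))).trans
      ((norm_neg _).trans_le (nF q.2 q.1))
    by_cases k1 : q.2 ∈ B₁
    · by_cases k2 : q.1 ∈ B₂
      · rw [indicator_of_mem k1, indicator_of_mem k2]
        linarith [h _ k1 _ k2]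
      · rw [indicator_of_notMem k2]
        linarith
    · rw [indicator_of_notMem k1]
      linarith)
  simp only [RCLike.re_to_complex, Pi.neg_apply, Pi.sub_apply] at e3
  rw [e2, integral_sub hnn hb, integral_const_mul,
    integral_prod_mul (fun z => ‖cg u z‖) fun z => ‖cg u z‖,
    integral_prod_mul (B₂.indicator fun z => ‖cg u z‖) (B₁.indicator fun z => ‖cg u z‖),
    integral_indicator h₁, integral_indicator h₂] at e3
  linarith

end Pool.Agent.Lib.MP_d36e13_an.ND
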